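import Pool.Agent.H31.Kn.Defs

/-!
Module H31 KN 21. Existence of maximal intersecting families and the counting bound.
-/

namespace Pool.Agent.H31.Kn

open Finset

theorem exists_maximal (n k : ℕ) : ∃ F : Finset (Finset (Fin n)), Maximal (IsInt n k) F := by
  have h0 : IsInt n k ∅ := by
    constructor
    · intro A hA
      simp at hA
    · intro A hA
      simp at hA
  have hfin : (Set.univ : Set (Finset (Finset (Fin n)))).Finite := Set.toFinite _
  obtain ⟨F, -, hF⟩ := (Set.toFinite {F : Finset (Finset (Fin n)) | IsInt n k F}).exists_le_maximal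
    (a := ∅) h0
  exact ⟨F, hF⟩

theorem counting_bound (n k : ℕ) (hk : 1 ≤ k) (F : Finset (Finset (Fin n)))
    (hF : Maximal (IsInt n k) F) : n.choose k ≤ F.card * (1 + (n - k).choose k) := by
  have hsub : (univ : Finset (Fin n)).powersetCard k ⊆
      F ∪ F.biUnion (fun B => (univ \ B).powersetCard k) := by
    intro A hA
    rw [mem_powersetCard] at hA
    by_cases hAF : A ∈ F
    · exact mem_union_left _ hAF
    · apply mem_union_right
      by_contra hcon
      apply hAF
      have hint : IsInt n k (insert A F) := by
        constructor
        · intro B hB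
          rcases mem_insert.1 hB with h | h
          · rw [h]; exact hA.2
          · exact hF.prop.1 B h
        · have key : ∀ B ∈ F, (A ∩ B).Nonempty := by
            intro B hB
            by_contra hne
            apply hcon
            rw [mem_biUnion]
            refine ⟨B, hB, ?_⟩
            rw [mem_powersetCard]
            refine ⟨?_, hA.2⟩
            intro x hx
            rw [mem_sdiff]
            refine ⟨mem_univ _, fun hxB => hne ⟨x, mem_inter.2 ⟨hx, hxB⟩⟩⟩
          intro B hB C hC
          rcases mem_insert.1 hB with h | h
          · rcases mem_insert.1 hC with h' | h'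
            · rw [h, h', inter_self, ← card_pos, hA.2]
              exact hk
            · rw [h]; exact key C h'
          · rcases mem_insert.1 hC with h' | h'
            · rw [h', inter_comm]; exact key B h
            · exact hF.prop.2 B h C h'
      have hle : insert A F ≤ F := hF.le_of_ge hint (subset_insert A F)
      exact hle (mem_insert_self A F)
  have h1 := card_le_card hsub
  rw [card_powersetCard, card_univ, Fintype.card_fin] at h1
  refine le_trans h1 (le_trans (card_union_le _ _) ?_)
  have h2 : (F.biUnion (fun B => (univ \ B).powersetCard k)).card ≤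
      F.card * (n - k).choose k := by
    apply card_biUnion_le_card_mul
    intro B hB
    rw [card_powersetCard, card_sdiff_of_subset (subset_univ _), card_univ, Fintype.card_fin,
      hF.prop.1 B hB]
  calc F.card + (F.biUnion (fun B => (univ \ B).powersetCard k)).card
      ≤ F.card + F.card * (n - k).choose k := by omega
    _ = F.card * (1 + (n - k).choose k) := by ring

theorem one_add_choose_le (c k : ℕ) (hk : 1 ≤ k) :
    1 + (2 * k + c - k).choose k ≤ 2 * (1 + c) ^ c * k ^ c := by
  have h1 : 2 * k + c - k = k + c := by omega
  rw [h1, Nat.choose_symm_add]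
  have h2 : (k + c).choose c ≤ (k + c) ^ c := Nat.choose_le_pow _ _
  have h3 : (k + c) ^ c ≤ ((1 + c) * k) ^ c := by
    apply Nat.pow_le_pow_left
    nlinarith
  rw [mul_pow] at h3
  have h4 : 1 ≤ (1 + c) ^ c * k ^ c := by
    have h5 : 1 ≤ (1 + c) ^ c := Nat.one_le_pow _ _ (by omega)
    have h6 : 1 ≤ k ^ c := Nat.one_le_pow _ _ hk
    exact Nat.one_le_iff_ne_zero.2 (Nat.mul_ne_zero (by omega) (by omega))
  calc 1 + (k + c).choose c ≤ (1 + c) ^ c * k ^ c + (1 + c) ^ c * k ^ c := by omega
    _ = 2 * (1 + c) ^ c * k ^ c := by ring

end Pool.Agent.H31.Kn
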