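import Mathlib

/-!
Round 7, MP_3036ab_co: the order of magnitude of `i(2k+c,k)`.
Common definitions of the modules `H31 KN ..`.
-/

namespace Pool.Agent.H31.Kn

open Finset

variable {α : Type} [DecidableEq α]

/-- The modulus `2^(c+1) - 1`. -/
def NN (c : ℕ) : ℕ := 2 ^ (c + 1) - 1

/-- The subsets `P` of `W` none of whose one-element deletions lies in `D`. -/
def unc (W : Finset α) (D : Finset (Finset α)) : Finset (Finset α) :=
  W.powerset.filter (fun P => ∀ y ∈ P, P.erase y ∉ D)

/-- The subsets `Y` of `W` that do not lie `c` above a member of `Q`. -/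
def upU (c : ℕ) (W : Finset α) (Q : Finset (Finset α)) : Finset (Finset α) :=
  W.powerset.filter (fun Y => ∀ X ∈ Q, ¬ (X ⊆ Y ∧ (Y \ X).card = c))

/-- The subsets `X` of `W` that do not lie `c` below a member of `P`. -/
def loL (c : ℕ) (W : Finset α) (P : Finset (Finset α)) : Finset (Finset α) :=
  W.powerset.filter (fun X => ∀ Y ∈ P, ¬ (X ⊆ Y ∧ (Y \ X).card = c))

/-- No member of `Q` lies `c` below a member of `P`. -/
def Indep (c : ℕ) (Q P : Finset (Finset α)) : Prop :=
  ∀ X ∈ Q, ∀ Y ∈ P, ¬ (X ⊆ Y ∧ (Y \ X).card = c)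

/-! ### The step for down-covers -/

section Down

variable {G : Type} [AddCommGroup G] [Fintype G] [DecidableEq G]

/-- The sets that avoid the fibre of their own sum, with trace in `A` on the fibre of `0`. -/
def avoid (W : Finset α) (chi : α → G) (A : Finset (Finset α)) : Finset (Finset α) :=
  W.powerset.filter (fun S => (∑ x ∈ S, chi x) ≠ 0 ∧
    (∀ x ∈ S, chi x ≠ ∑ y ∈ S, chi y) ∧ S.filter (fun x => chi x = 0) ∈ A)

/-- The down-cover built from a down-cover `D0` of the fibre of `0`. -/
def stepD (W : Finset α) (chi : α → G) (D0 : Finset (Finset α)) : Finset (Finset α) :=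
  W.powerset.filter (fun S => (∑ x ∈ S, chi x) = 0) ∪ avoid W chi D0

end Down

/-! ### The step for systems -/

/-- Indices of the parts of one kind. -/
abbrev Idx (c : ℕ) : Type := Fin (c + 1) × Fin c

/-- Labels: `none` for the core, `some (true, s)` for the parts `T s`,
`some (false, s)` for the parts `E s`. -/
abbrev Lab (c : ℕ) : Type := Option (Bool × Idx c)

/-- The weight of a label. -/
def wt (c : ℕ) (l : Lab c) : ZMod (NN c) :=
  match l with
  | none => 0
  | some (_, s) => 2 ^ (s.1 : ℕ)

/-- The sum of the weights of the elements of `Z`. -/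
def gs (c : ℕ) (lam : α → Lab c) (Z : Finset α) : ZMod (NN c) := ∑ x ∈ Z, wt c (lam x)

/-- The elements of `Z` with label `l`. -/
def part {c : ℕ} (lam : α → Lab c) (l : Lab c) (Z : Finset α) : Finset α :=
  Z.filter (fun x => lam x = l)

/-- The number of the parts `T s` whose trace with `Z` lies in the down-cover. -/
def tc (c : ℕ) (lam : α → Lab c) (D : Bool × Idx c → Finset (Finset α)) (Z : Finset α) : ℕ :=
  (univ.filter (fun s : Idx c => part lam (some (true, s)) Z ∈ D (true, s))).card

/-- The number of the parts `E s` whose trace with `W \ Z` lies in the down-cover. -/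
def ec (c : ℕ) (lam : α → Lab c) (W : Finset α) (D : Bool × Idx c → Finset (Finset α))
    (Z : Finset α) : ℕ :=
  (univ.filter (fun s : Idx c => part lam (some (false, s)) (W \ Z) ∈ D (false, s))).card

/-- The lower members. -/
def Qf (c : ℕ) (lam : α → Lab c) (W : Finset α) (D : Bool × Idx c → Finset (Finset α))
    (a : ZMod (NN c)) (Jlo : Finset (Finset α)) : Finset (Finset α) :=
  W.powerset.filter (fun Z => gs c lam Z = a ∧
    (c ≤ tc c lam D Z ∨ (ec c lam W D Z < c ∧ part lam none Z ∈ Jlo)))

/-- The upper members. -/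
def Pf (c : ℕ) (lam : α → Lab c) (W : Finset α) (D : Bool × Idx c → Finset (Finset α))
    (a : ZMod (NN c)) (Jup : Finset (Finset α)) : Finset (Finset α) :=
  W.powerset.filter (fun Z => gs c lam Z = a ∧ tc c lam D Z < c ∧
    (c ≤ ec c lam W D Z ∨ part lam none Z ∈ Jup))

/-! ### Maximal intersecting families -/

/-- Intersecting families of `k`-subsets of `{0, .., n-1}`. -/
def IsInt (n k : ℕ) (F : Finset (Finset (Fin n))) : Prop :=
  (∀ A ∈ F, A.card = k) ∧ ∀ A ∈ F, ∀ B ∈ F, (A ∩ B).Nonempty

end Pool.Agent.H31.Kn
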