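import Pool.Agent.H31.Kn.Defs

/-!
Module H31 KN 01. A nonempty sum of at most `c` powers `2^i`, `i ≤ c`, is not `0` modulo
`N = 2^(c+1) - 1`.

Proof. Induction on the number of terms. If two terms have the same exponent `i`, replace them by
one term `2^(i+1)` (if `i < c`) or by `2^0 = 1 = 2^(c+1)` (if `i = c`): the sum in `ZMod N` is the
same, the number of terms is smaller and still positive. If all exponents are distinct, the sum of
the naturals `2^i` is `> 0` and, since at least one of the `c+1` exponents is missing, smaller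
than `1 + 2 + ... + 2^c = N`; so it is not divisible by `N`. (It may be convenient to prove it for
functions `a : Fin (c+1) → ℕ` with `1 ≤ ∑ a i ≤ c`, or for multisets, and to transfer. The case
`c = 0` is void.)
-/

namespace Pool.Agent.H31.Kn

open Finset

private theorem k01_two_pow_mod (c e : ℕ) : (2 : ZMod (NN c)) ^ (e % (c + 1)) = 2 ^ e := by
  have h1 : (2 : ZMod (NN c)) ^ (c + 1) = 1 := by
    have h2 : NN c + 1 = 2 ^ (c + 1) := Nat.sub_add_cancel Nat.one_le_two_pow
    have h3 : ((NN c + 1 : ℕ) : ZMod (NN c)) = ((2 ^ (c + 1) : ℕ) : ZMod (NN c)) := by rw [h2]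
    push_cast at h3
    rw [ZMod.natCast_self, zero_add] at h3
    exact h3.symm
  conv_rhs => rw [← Nat.div_add_mod e (c + 1), pow_add, pow_mul, h1, one_pow, one_mul]

private theorem k01_geom (n : ℕ) : ∑ j ∈ range n, 2 ^ j + 1 = 2 ^ n := by
  induction n with
  | zero => simp
  | succ n ih => rw [sum_range_succ, pow_succ]; omega

theorem sum_pow_ne_zero {β : Type} (c : ℕ) (R : Finset β) (f : β → ZMod (NN c))
    (hf : ∀ x ∈ R, ∃ i : ℕ, i ≤ c ∧ f x = 2 ^ i) (h1 : R.Nonempty) (h2 : R.card ≤ c) :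
    (∑ x ∈ R, f x) ≠ 0 := by
  intro h0
  choose! i hi using hf
  have hcpos : 1 ≤ R.card := h1.card_pos
  have hN : 0 < NN c := by
    unfold NN
    have : 2 ^ 1 ≤ 2 ^ (c + 1) := Nat.pow_le_pow_right (by norm_num) (by omega)
    omega
  -- the rotations
  set V : Fin (c + 1) → ℕ := fun j => ∑ x ∈ R, 2 ^ ((Fin.ofNat (c + 1) (i x) + j : Fin (c + 1)) : ℕ)
    with hV
  have hVdvd : ∀ j, NN c ∣ V j := by
    intro j
    rw [← ZMod.natCast_eq_zero_iff, hV]
    push_cast
    have e1 : ∀ x ∈ R, (2 : ZMod (NN c)) ^ ((Fin.ofNat (c + 1) (i x) + j : Fin (c + 1)) : ℕ) =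
        f x * 2 ^ (j : ℕ) := by
      intro x hx
      rw [Fin.val_add, k01_two_pow_mod, pow_add, Fin.val_ofNat, k01_two_pow_mod, (hi x hx).2]
    rw [sum_congr rfl e1, ← sum_mul, h0, zero_mul]
  have hVpos : ∀ j, 0 < V j := fun j => sum_pos (fun x _ => by positivity) h1
  have hVge : ∀ j, NN c ≤ V j := fun j => Nat.le_of_dvd (hVpos j) (hVdvd j)
  have hsum : ∑ j, V j = R.card * NN c := by
    rw [hV, sum_comm]
    have e2 : ∀ x ∈ R, ∑ j : Fin (c + 1), 2 ^ ((Fin.ofNat (c + 1) (i x) + j : Fin (c + 1)) : ℕ) =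
        NN c := by
      intro x _
      have h3 := Equiv.sum_comp (Equiv.addLeft (Fin.ofNat (c + 1) (i x)))
        (fun j : Fin (c + 1) => 2 ^ (j : ℕ))
      simp only [Equiv.coe_addLeft] at h3
      rw [h3, Fin.sum_univ_eq_sum_range (fun j => 2 ^ j)]
      have := k01_geom (c + 1)
      unfold NN
      omega
    rw [sum_congr rfl e2, sum_const, smul_eq_mul]
  have hle : (c + 1) * NN c ≤ R.card * NN c := by
    rw [← hsum]
    calc (c + 1) * NN c = ∑ _j : Fin (c + 1), NN c := by simp
      _ ≤ ∑ j, V j := sum_le_sum fun j _ => hVge j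
  have := Nat.le_of_mul_le_mul_right hle hN
  omega

end Pool.Agent.H31.Kn
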