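import Pool.Agent.H31.Kn.Defs

/-!
Module H31 KN 02. Every `x ≠ 0` modulo `N = 2^(c+1) - 1` is a sum of exactly `c` powers `2^i`,
`0 ≤ i ≤ c`.

Proof. `x.val` is in `{1, .., 2^(c+1) - 2}`, so it is a sum of distinct powers `2^i` with `i ≤ c`;
at least one and at most `c` powers (all `c+1` powers would give `2^(c+1) - 1`). A sum of `s ≥ 1`
such powers is, modulo `N`, also a sum of `s+1` such powers: replace one term `2^i`, `i ≥ 1`, by
two terms `2^(i-1)`, and a term `2^0 = 1 = 2^(c+1)` by two terms `2^c`. Repeat until there are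
exactly `c` terms. (`c = 0` is void: `ZMod 1`.)
-/

namespace Pool.Agent.H31.Kn

open Finset

private theorem k02_two_pow_mod (c e : ℕ) : (2 : ZMod (NN c)) ^ (e % (c + 1)) = 2 ^ e := by
  have h1 : (2 : ZMod (NN c)) ^ (c + 1) = 1 := by
    have h2 : NN c + 1 = 2 ^ (c + 1) := Nat.sub_add_cancel Nat.one_le_two_pow
    have h3 : ((NN c + 1 : ℕ) : ZMod (NN c)) = ((2 ^ (c + 1) : ℕ) : ZMod (NN c)) := by rw [h2]
    push_cast at h3
    rw [ZMod.natCast_self, zero_add] at h3
    exact h3.symm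
  conv_rhs => rw [← Nat.div_add_mod e (c + 1), pow_add, pow_mul, h1, one_pow, one_mul]

private theorem k02_geom (n : ℕ) : ∑ j ∈ range n, 2 ^ j + 1 = 2 ^ n := by
  induction n with
  | zero => simp
  | succ n ih => rw [sum_range_succ, pow_succ]; omega

/-- `v` is a sum of exactly `s` powers of two, exponents at most `c` -/
private def k02_rep (c v s : ℕ) : Prop :=
  ∃ m : Multiset ℕ, (∀ e ∈ m, e ≤ c) ∧ m.card = s ∧ (m.map (fun e => 2 ^ e)).sum = v

private theorem k02_step {c v s : ℕ} (hv : v + 1 < 2 ^ (c + 1)) (hs : c ≤ s)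
    (h : k02_rep c v (s + 1)) : k02_rep c v s := by
  obtain ⟨m, hm, hcard, hsum⟩ := h
  by_cases hnd : m.Nodup
  · exfalso
    have h1 : (⟨m, hnd⟩ : Finset ℕ) ⊆ range (c + 1) := by
      intro e he
      have := hm e he
      rw [mem_range]
      omega
    have h2 : (⟨m, hnd⟩ : Finset ℕ) = range (c + 1) := by
      refine eq_of_subset_of_card_le h1 ?_
      rw [card_range]
      change c + 1 ≤ m.card
      omega
    have h3 : ∑ j ∈ (⟨m, hnd⟩ : Finset ℕ), 2 ^ j = v := hsum
    rw [h2] at h3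
    have := k02_geom (c + 1)
    omega
  · rw [Multiset.nodup_iff_ne_cons_cons] at hnd
    simp only [not_forall, not_not] at hnd
    obtain ⟨e, t, rfl⟩ := hnd
    have hsum' : 2 ^ e + (2 ^ e + (t.map (fun e => 2 ^ e)).sum) = v := by
      simpa using hsum
    have hec : e + 1 ≤ c := by
      have h1 := hm e (by simp)
      rcases Nat.lt_or_ge e c with h | h
      · exact h
      · exfalso
        have h2 : e = c := by omega
        rw [h2, ← add_assoc, ← two_mul, ← pow_succ'] at hsum'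
        omega
    refine ⟨(e + 1) ::ₘ t, ?_, ?_, ?_⟩
    · intro e' he'
      rw [Multiset.mem_cons] at he'
      rcases he' with rfl | he'
      · exact hec
      · exact hm e' (by simp [he'])
    · simp only [Multiset.card_cons] at hcard ⊢
      omega
    · rw [Multiset.map_cons, Multiset.sum_cons, pow_succ]
      omega

private theorem k02_all {c v : ℕ} (hv : v + 1 < 2 ^ (c + 1)) (hc : c ≤ v) : k02_rep c v c := by
  obtain ⟨d, rfl⟩ : ∃ d, v = c + d := ⟨v - c, by omega⟩
  have key : ∀ j, j ≤ d → k02_rep c (c + d) (c + d - j) := by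
    intro j
    induction j with
    | zero =>
      intro _
      refine ⟨Multiset.replicate (c + d) 0, fun e he => ?_, by simp, by simp⟩
      rw [Multiset.eq_of_mem_replicate he]
      exact Nat.zero_le _
    | succ j ih =>
      intro hj
      have h1 := ih (by omega)
      have h2 : c + d - j = (c + d - (j + 1)) + 1 := by omega
      rw [h2] at h1
      exact k02_step hv (by omega) h1
  have := key d le_rfl
  rwa [Nat.add_sub_cancel] at this

theorem exists_pow_sum (c : ℕ) (x : ZMod (NN c)) (hx : x ≠ 0) :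
    ∃ f : Fin c → Fin (c + 1), ∑ j, (2 : ZMod (NN c)) ^ (f j : ℕ) = x := by
  have hN2 : NN c + 1 = 2 ^ (c + 1) := Nat.sub_add_cancel Nat.one_le_two_pow
  have hN0 : 0 < NN c := by
    unfold NN
    have : 2 ^ 1 ≤ 2 ^ (c + 1) := Nat.pow_le_pow_right (by norm_num) (by omega)
    omega
  haveI : NeZero (NN c) := ⟨hN0.ne'⟩
  set w := x.val with hw
  have hwlt : w < NN c := ZMod.val_lt x
  have hw0 : w ≠ 0 := by
    rw [hw]
    exact (ZMod.val_ne_zero x).2 hx
  have hwx : (w : ZMod (NN c)) = x := ZMod.natCast_zmod_val x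
  -- the rotation
  have hlog : Nat.log 2 w ≤ c := by
    have h1 : 2 ^ Nat.log 2 w ≤ w := Nat.pow_log_le_self 2 hw0
    have h2 : 2 ^ Nat.log 2 w < 2 ^ (c + 1) := by omega
    have := (Nat.pow_lt_pow_iff_right (by norm_num : 1 < 2)).1 h2
    omega
  set k := c - Nat.log 2 w with hk
  have hkc : k ≤ c := Nat.sub_le _ _
  have hv1 : 2 ^ c ≤ 2 ^ k * w := by
    calc 2 ^ c = 2 ^ k * 2 ^ Nat.log 2 w := by rw [← pow_add]; congr 1; omega
      _ ≤ 2 ^ k * w := Nat.mul_le_mul_left _ (Nat.pow_log_le_self 2 hw0)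
  have hv2 : 2 ^ k * w < 2 ^ (c + 1) := by
    have h1 : w < 2 ^ (Nat.log 2 w + 1) := Nat.lt_pow_succ_log_self (by norm_num) w
    calc 2 ^ k * w < 2 ^ k * 2 ^ (Nat.log 2 w + 1) := by
          exact Nat.mul_lt_mul_of_pos_left h1 (by positivity)
      _ = 2 ^ (c + 1) := by rw [← pow_add]; congr 1; omega
  have hv3 : 2 ^ k * w + 1 < 2 ^ (c + 1) := by
    rcases Nat.eq_zero_or_pos k with h0 | h0
    · rw [h0, pow_zero, one_mul]
      omega
    · have h1 : 2 ∣ 2 ^ k * w := Dvd.dvd.mul_right (dvd_pow_self 2 (by omega)) w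
      have h2 : 2 ∣ 2 ^ (c + 1) := dvd_pow_self 2 (by omega)
      omega
  have hcv : c ≤ 2 ^ k * w := le_trans (Nat.lt_two_pow_self).le hv1
  obtain ⟨m, hm, hcard, hsum⟩ := k02_all hv3 hcv
  induction m using Quotient.inductionOn with
  | h l =>
    have hlen : l.length = c := by simpa using hcard
    have hsum' : (l.map (fun e => 2 ^ e)).sum = 2 ^ k * w := by simpa using hsum
    refine ⟨fun j => ⟨(l.get (j.cast hlen.symm) + (c + 1 - k)) % (c + 1),
      Nat.mod_lt _ (by omega)⟩, ?_⟩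
    have h1 : ∀ j : Fin c, (2 : ZMod (NN c)) ^
        ((l.get (j.cast hlen.symm) + (c + 1 - k)) % (c + 1)) =
        2 ^ (l.get (j.cast hlen.symm)) * 2 ^ (c + 1 - k) := by
      intro j
      rw [k02_two_pow_mod, pow_add]
    simp only [h1]
    rw [← Finset.sum_mul]
    have h2 : ∑ j : Fin c, (2 : ZMod (NN c)) ^ (l.get (j.cast hlen.symm)) =
        ((l.map (fun e => 2 ^ e)).sum : ℕ) := by
      subst hlen
      rw [← Fin.sum_univ_fun_getElem l (fun e => 2 ^ e)]
      push_cast
      rfl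
    rw [h2, hsum']
    push_cast
    rw [hwx]
    have h3 : (2 : ZMod (NN c)) ^ k * 2 ^ (c + 1 - k) = 1 := by
      rw [← pow_add, show k + (c + 1 - k) = c + 1 by omega]
      have := k02_two_pow_mod c (c + 1)
      rw [Nat.mod_self, pow_zero] at this
      exact this.symm
    calc (2 : ZMod (NN c)) ^ k * x * 2 ^ (c + 1 - k) = (2 ^ k * 2 ^ (c + 1 - k)) * x := by ring
      _ = x := by rw [h3, one_mul]

end Pool.Agent.H31.Kn
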