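import Pool.Agent.H31.Kn.Defs

/-!
Module H31 KN 03. A labelling of `W` such that every label except `i0` is used exactly `m` times
on `W`.

Proof. Choose (for example by induction over the labels `i ≠ i0`, with
`Finset.exists_subset_card_eq` on what is left, or with an injection of `{i // i ≠ i0} × Fin m`
into `W`) disjoint subsets of size `m` of `W` for `i ≠ i0`; everything else gets the label `i0`.
-/

namespace Pool.Agent.H31.Kn

open Finset

theorem K03Label_aux {α : Type} [DecidableEq α] {ι : Type} [DecidableEq ι] (i0 : ι) (m : ℕ)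
    (s : Finset ι) (hs : i0 ∉ s) : ∀ W : Finset α, s.card * m ≤ W.card →
    ∃ lam : α → ι, (∀ i ∈ s, (W.filter (fun x => lam x = i)).card = m) ∧
      ∀ x, lam x ∈ s ∨ lam x = i0 := by
  induction s using Finset.induction_on with
  | empty =>
    intro W _
    exact ⟨fun _ => i0, fun i hi => absurd hi (notMem_empty i), fun _ => Or.inr rfl⟩
  | insert a s ha ih =>
    intro W hW
    rw [card_insert_of_notMem ha, add_mul, one_mul] at hW
    have hs' : i0 ∉ s := fun h => hs (mem_insert_of_mem h)
    have ha0 : a ≠ i0 := fun h => hs (h ▸ mem_insert_self a s)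
    obtain ⟨V, hV, hVc⟩ := exists_subset_card_eq (s := W) (n := m) (by omega)
    obtain ⟨lam, h1, h2⟩ := ih hs' (W \ V) (by rw [card_sdiff_of_subset hV, hVc]; omega)
    obtain ⟨f, hf⟩ : ∃ f : α → ι, ∀ x, f x = if x ∈ V then a else if x ∈ W then lam x else i0 :=
      ⟨_, fun _ => rfl⟩
    refine ⟨f, ?_, ?_⟩
    · intro i hi
      rw [mem_insert] at hi
      by_cases hia : i = a
      · have e : W.filter (fun x => f x = i) = V := by
          ext x
          rw [mem_filter, hf]
          constructor
          · rintro ⟨hxW, hx⟩
            by_contra hxV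
            rw [if_neg hxV, if_pos hxW, hia] at hx
            rcases h2 x with h3 | h3
            · rw [hx] at h3
              exact ha h3
            · rw [hx] at h3
              exact ha0 h3
          · intro hxV
            exact ⟨hV hxV, by rw [if_pos hxV, hia]⟩
        rw [e, hVc]
      · have his : i ∈ s := hi.resolve_left hia
        rw [← h1 i his]
        congr 1
        ext x
        rw [mem_filter, mem_filter, mem_sdiff, hf]
        constructor
        · rintro ⟨hxW, hx⟩
          by_cases hxV : x ∈ V
          · rw [if_pos hxV] at hx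
            exact absurd hx.symm hia
          · rw [if_neg hxV, if_pos hxW] at hx
            exact ⟨⟨hxW, hxV⟩, hx⟩
        · rintro ⟨⟨hxW, hxV⟩, hx⟩
          exact ⟨hxW, by rw [if_neg hxV, if_pos hxW]; exact hx⟩
    · intro x
      rw [hf]
      split_ifs with h3 h4
      · exact Or.inl (mem_insert_self a s)
      · rcases h2 x with h5 | h5
        · exact Or.inl (mem_insert_of_mem h5)
        · exact Or.inr h5
      · exact Or.inr rfl

theorem exists_label {α : Type} [DecidableEq α] {ι : Type} [Fintype ι] [DecidableEq ι] (i0 : ι)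
    (W : Finset α) (m : ℕ) (h : (Fintype.card ι - 1) * m ≤ W.card) :
    ∃ lam : α → ι, ∀ i, i ≠ i0 → (W.filter (fun x => lam x = i)).card = m := by
  obtain ⟨lam, h1, _⟩ := K03Label_aux i0 m (univ.erase i0) (notMem_erase i0 univ) W
    (by rw [card_erase_of_mem (mem_univ i0), card_univ]; exact h)
  exact ⟨lam, fun i hi => h1 i (mem_erase.2 ⟨hi, mem_univ i⟩)⟩

end Pool.Agent.H31.Kn
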