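import Pool.Agent.H31.Kn.Defs

/-!
Module H31 KN 04. Equidistribution of the subset sums in an elementary abelian 2-group.

Proof. Let `F h` be the family of the `S ⊆ W` with sum `h`. For `g ≠ 0` choose `x ∈ W` with
`chi x = g`; the map `S ↦ symmDiff S {x}` is an involution of the power set of `W` and maps `F h`
into `F (h + g)` (as `g + g = 0`) and back. So all `F h` have the same size, and the sizes add up
to `2^|W|`.
-/

namespace Pool.Agent.H31.Kn

open Finset

theorem K04Toggle_sum {α : Type} [DecidableEq α] {G : Type} [AddCommGroup G]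
    (h2 : ∀ g : G, g + g = 0) (chi : α → G) (x : α) (S : Finset α) :
    ∑ y ∈ symmDiff S {x}, chi y = ∑ y ∈ S, chi y + chi x := by
  by_cases hx : x ∈ S
  · have e : symmDiff S {x} = S.erase x := by
      ext y
      simp only [mem_symmDiff, mem_singleton, mem_erase]
      constructor
      · rintro (⟨h, h'⟩ | ⟨h, h'⟩)
        · exact ⟨h', h⟩
        · exact absurd (h ▸ hx) h'
      · rintro ⟨h, h'⟩
        exact Or.inl ⟨h', h⟩
    rw [e, ← sum_erase_add S chi hx, add_assoc, h2, add_zero]
  · have e : symmDiff S {x} = insert x S := by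
      ext y
      simp only [mem_symmDiff, mem_singleton, mem_insert]
      constructor
      · rintro (⟨h, h'⟩ | ⟨h, h'⟩)
        · exact Or.inr h
        · exact Or.inl h
      · rintro (h | h)
        · exact Or.inr ⟨h, h ▸ hx⟩
        · exact Or.inl ⟨h, fun h' => hx (h' ▸ h)⟩
    rw [e, sum_insert hx, add_comm]

theorem card_sum_eq {α : Type} [DecidableEq α] {G : Type} [AddCommGroup G] [Fintype G]
    [DecidableEq G] (h2 : ∀ g : G, g + g = 0) (W : Finset α) (chi : α → G)
    (hs : ∀ g : G, g ≠ 0 → ∃ x ∈ W, chi x = g) (h : G) :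
    Fintype.card G * (W.powerset.filter (fun S => (∑ x ∈ S, chi x) = h)).card = 2 ^ W.card := by
  have key : ∀ h' : G, (W.powerset.filter (fun S => (∑ x ∈ S, chi x) = h')).card =
      (W.powerset.filter (fun S => (∑ x ∈ S, chi x) = h)).card := by
    intro h'
    by_cases hh : h = h'
    · rw [hh]
    · obtain ⟨x, hx, hg⟩ := hs (h - h') (sub_ne_zero.2 hh)
      have hneg : ∀ g : G, -g = g := fun g => neg_eq_of_add_eq_zero_left (h2 g)
      have hsub : ∀ S, S ⊆ W → symmDiff S {x} ⊆ W := by
        intro S hS y hy
        rw [mem_symmDiff, mem_singleton] at hy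
        rcases hy with ⟨h3, _⟩ | ⟨h3, _⟩
        · exact hS h3
        · exact h3 ▸ hx
      refine card_nbij' (fun S => symmDiff S {x}) (fun S => symmDiff S {x}) ?_ ?_ ?_ ?_
      · intro S hS
        rw [mem_coe, mem_filter, mem_powerset] at hS
        rw [mem_coe, mem_filter, mem_powerset]
        refine ⟨hsub S hS.1, ?_⟩
        rw [K04Toggle_sum h2, hS.2, hg, add_sub_cancel]
      · intro S hS
        rw [mem_coe, mem_filter, mem_powerset] at hS
        rw [mem_coe, mem_filter, mem_powerset]
        refine ⟨hsub S hS.1, ?_⟩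
        rw [K04Toggle_sum h2, hS.2, hg, ← hneg (h - h'), neg_sub, add_sub_cancel]
      · intro S _
        exact symmDiff_symmDiff_cancel_right {x} S
      · intro S _
        exact symmDiff_symmDiff_cancel_right {x} S
  have hsum : ∑ h' : G, (W.powerset.filter (fun S => (∑ x ∈ S, chi x) = h')).card = 2 ^ W.card := by
    rw [← card_powerset W]
    exact (card_eq_sum_card_fiberwise (f := fun S => ∑ x ∈ S, chi x) (t := (univ : Finset G))
      (fun _ _ => mem_coe.2 (mem_univ _))).symm
  rw [sum_congr rfl fun h' _ => key h', sum_const, card_univ, smul_eq_mul] at hsum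
  exact hsum

end Pool.Agent.H31.Kn
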