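import Pool.Agent.H31.Kn.Defs

/-!
Module H31 KN 05. The number of sets that avoid the fibre of their own sum.

Proof. For `g ≠ 0` let `F_g = {x ∈ W : chi x = g}` (it has at least `m` elements) and
`A_g = {S ∈ avoid W chi A : ∑ x ∈ S, chi x = g}`. For `S ∈ A_g` and a subset `E` of `F_g` of even
size the set `S ∪ E` has sum `g` again (`|E| • g = 0`), has the same trace on the fibre of `0`,
and `(S, E) ↦ S ∪ E` is injective on `A_g × {even subsets of F_g}` since `E = (S ∪ E) ∩ F_g` and
`S = (S ∪ E) \ F_g`. There are at least `2^(m-1)` even subsets of `F_g` (toggle one fixed element).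
So `|A_g| * 2^(m-1) ≤ #{S ⊆ W : sum g, trace in A}`; the sum over `g ≠ 0` gives
`|avoid W chi A| * 2^(m-1) ≤ #{S ⊆ W : trace on the fibre of 0 in A} ≤ |A| * 2^#{x ∈ W : chi x ≠ 0}`
(`S ↦ (trace, S ∩ {chi ≠ 0})` is injective).
-/

namespace Pool.Agent.H31.Kn

open Finset

theorem k05_even {α : Type} [DecidableEq α] (F : Finset α) (m : ℕ) (hm : 1 ≤ m)
    (hF : m ≤ F.card) : 2 ^ (m - 1) ≤ (F.powerset.filter (fun E => Even E.card)).card := by
  obtain ⟨x0, hx0⟩ : F.Nonempty := by
    rw [← card_pos]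
    omega
  have h1 : 2 ^ (m - 1) ≤ ((F.erase x0).powerset).card := by
    rw [card_powerset, card_erase_of_mem hx0]
    exact Nat.pow_le_pow_right (by norm_num) (by omega)
  refine h1.trans ?_
  apply card_le_card_of_injOn (fun E => if Even E.card then E else insert x0 E)
  · intro E hE
    rw [coe_powerset, Set.mem_preimage, Set.mem_powerset_iff, coe_subset] at hE
    have hx : x0 ∉ E := fun h => notMem_erase x0 F (hE h)
    have hEF : E ⊆ F := hE.trans (erase_subset _ _)
    rw [mem_coe, mem_filter, mem_powerset]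
    by_cases he : Even E.card
    · simp only [if_pos he]
      exact ⟨hEF, he⟩
    · simp only [if_neg he]
      refine ⟨insert_subset hx0 hEF, ?_⟩
      rw [card_insert_of_notMem hx]
      exact Nat.even_add_one.2 he
  · intro E hE E' hE' h
    rw [coe_powerset, Set.mem_preimage, Set.mem_powerset_iff, coe_subset] at hE hE'
    have hx : x0 ∉ E := fun h => notMem_erase x0 F (hE h)
    have hx' : x0 ∉ E' := fun h => notMem_erase x0 F (hE' h)
    have key : ∀ E : Finset α, x0 ∉ E → (if Even E.card then E else insert x0 E).erase x0 = E := by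
      intro E hxE
      split_ifs
      · exact erase_eq_of_notMem hxE
      · exact erase_insert hxE
    have h2 := congrArg (fun T => Finset.erase T x0) h
    simp only at h2
    rw [key E hx, key E' hx'] at h2
    exact h2

theorem k05_sum {α : Type} [DecidableEq α] {G : Type} [AddCommGroup G]
    (h2 : ∀ g : G, g + g = 0) (chi : α → G) (g : G) (S E : Finset α)
    (hS : ∀ x ∈ S, chi x ≠ g) (hE : ∀ x ∈ E, chi x = g) (he : Even E.card) :
    ∑ x ∈ S ∪ E, chi x = ∑ x ∈ S, chi x := by
  have hd : Disjoint S E := by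
    rw [disjoint_left]
    intro x h1 h3
    exact hS x h1 (hE x h3)
  rw [sum_union hd, sum_congr rfl hE, sum_const]
  obtain ⟨k, hk⟩ := he
  rw [hk, add_nsmul, h2, add_zero]

theorem card_avoid {α : Type} [DecidableEq α] {G : Type} [AddCommGroup G] [Fintype G]
    [DecidableEq G] (h2 : ∀ g : G, g + g = 0) (W : Finset α) (chi : α → G) (m : ℕ) (hm : 1 ≤ m)
    (hs : ∀ g : G, g ≠ 0 → m ≤ (W.filter (fun x => chi x = g)).card)
    (A : Finset (Finset α)) :
    (avoid W chi A).card * 2 ^ (m - 1) ≤ A.card * 2 ^ (W.filter (fun x => chi x ≠ 0)).card := by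
  let ev : Finset α → Finset (Finset α) := fun S =>
    (W.filter (fun x => chi x = ∑ y ∈ S, chi y)).powerset.filter (fun E => Even E.card)
  have h1 : (avoid W chi A).card * 2 ^ (m - 1) ≤ ((avoid W chi A).sigma ev).card := by
    rw [card_sigma, ← smul_eq_mul]
    apply card_nsmul_le_sum
    intro S hS
    unfold avoid at hS
    rw [mem_filter] at hS
    exact k05_even _ m hm (hs _ hS.2.1)
  have h3 : (A ×ˢ (W.filter (fun x => chi x ≠ 0)).powerset).card =
      A.card * 2 ^ (W.filter (fun x => chi x ≠ 0)).card := by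
    rw [card_product, card_powerset]
  rw [← h3]
  refine h1.trans ?_
  have hev : ∀ p ∈ (avoid W chi A).sigma ev, p.1 ⊆ W ∧ (∑ x ∈ p.1, chi x) ≠ 0 ∧
      (∀ x ∈ p.1, chi x ≠ ∑ y ∈ p.1, chi y) ∧ p.1.filter (fun x => chi x = 0) ∈ A ∧
      p.2 ⊆ W ∧ (∀ x ∈ p.2, chi x = ∑ y ∈ p.1, chi y) ∧ Even p.2.card := by
    intro p hp
    rw [mem_sigma] at hp
    obtain ⟨hp1, hp2⟩ := hp
    unfold avoid at hp1
    rw [mem_filter, mem_powerset] at hp1
    simp only [ev] at hp2
    rw [mem_filter, mem_powerset] at hp2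
    refine ⟨hp1.1, hp1.2.1, hp1.2.2.1, hp1.2.2.2, hp2.1.trans (filter_subset _ _), ?_, hp2.2⟩
    intro x hx
    exact (mem_filter.1 (hp2.1 hx)).2
  apply card_le_card_of_injOn (fun p : (Σ _ : Finset α, Finset α) =>
    (p.1.filter (fun x => chi x = 0), (p.1 ∪ p.2).filter (fun x => chi x ≠ 0)))
  · intro p hp
    obtain ⟨a1, a2, a3, a4, a5, a6, a7⟩ := hev p hp
    rw [mem_coe, mem_product, mem_powerset]
    exact ⟨a4, filter_subset_filter _ (union_subset a1 a5)⟩
  · rintro ⟨S, E⟩ hp ⟨S', E'⟩ hp' h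
    obtain ⟨a1, a2, a3, a4, a5, a6, a7⟩ := hev _ hp
    obtain ⟨b1, b2, b3, b4, b5, b6, b7⟩ := hev _ hp'
    simp only at a1 a2 a3 a4 a5 a6 a7 b1 b2 b3 b4 b5 b6 b7
    simp only [Prod.mk.injEq] at h
    obtain ⟨e1, e2⟩ := h
    -- the union is determined
    have hT : ∀ (S E : Finset α), (∑ x ∈ S, chi x) ≠ 0 → (∀ x ∈ E, chi x = ∑ y ∈ S, chi y) →
        S ∪ E = S.filter (fun x => chi x = 0) ∪ (S ∪ E).filter (fun x => chi x ≠ 0) := by
      intro S E c1 c2
      ext x
      simp only [mem_union, mem_filter]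
      constructor
      · rintro (hx | hx)
        · by_cases h0 : chi x = 0
          · exact Or.inl ⟨hx, h0⟩
          · exact Or.inr ⟨Or.inl hx, h0⟩
        · refine Or.inr ⟨Or.inr hx, ?_⟩
          rw [c2 x hx]
          exact c1
      · rintro (hx | hx)
        · exact Or.inl hx.1
        · exact hx.1
    have hTT : S ∪ E = S' ∪ E' := by
      rw [hT S E a2 a6, hT S' E' b2 b6, e1, e2]
    have hsum : ∑ x ∈ S, chi x = ∑ x ∈ S', chi x := by
      rw [← k05_sum h2 chi _ S E a3 a6 a7, ← k05_sum h2 chi _ S' E' b3 b6 b7, hTT]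
    have hSS : ∀ x, x ∈ S ↔ x ∈ S ∪ E ∧ chi x ≠ ∑ y ∈ S, chi y := by
      intro x
      rw [mem_union]
      constructor
      · intro hx
        exact ⟨Or.inl hx, a3 x hx⟩
      · rintro ⟨hx | hx, hne⟩
        · exact hx
        · exact absurd (a6 x hx) hne
    have hSS' : ∀ x, x ∈ S' ↔ x ∈ S' ∪ E' ∧ chi x ≠ ∑ y ∈ S', chi y := by
      intro x
      rw [mem_union]
      constructor
      · intro hx
        exact ⟨Or.inl hx, b3 x hx⟩
      · rintro ⟨hx | hx, hne⟩
        · exact hx
        · exact absurd (b6 x hx) hne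
    have hEE : ∀ x, x ∈ E ↔ x ∈ S ∪ E ∧ chi x = ∑ y ∈ S, chi y := by
      intro x
      rw [mem_union]
      constructor
      · intro hx
        exact ⟨Or.inr hx, a6 x hx⟩
      · rintro ⟨hx | hx, hne⟩
        · exact absurd hne (a3 x hx)
        · exact hx
    have hEE' : ∀ x, x ∈ E' ↔ x ∈ S' ∪ E' ∧ chi x = ∑ y ∈ S', chi y := by
      intro x
      rw [mem_union]
      constructor
      · intro hx
        exact ⟨Or.inr hx, b6 x hx⟩
      · rintro ⟨hx | hx, hne⟩
        · exact absurd hne (b3 x hx)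
        · exact hx
    have r1 : S = S' := by
      ext x
      rw [hSS, hSS', hTT, hsum]
    have r2 : E = E' := by
      ext x
      rw [hEE, hEE', hTT, hsum]
    subst r1
    subst r2
    rfl

end Pool.Agent.H31.Kn
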