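import Pool.Agent.H31.Kn.Defs

/-!
Module H31 KN 06. The uncovered sets of the down-cover `stepD`.

Proof. Let `P ⊆ W` be such that no `P.erase y`, `y ∈ P`, lies in `stepD W chi D0`, and let
`s` be the sum of `chi` over `P`. For `y ∈ P` the sum over `P.erase y` is `s - chi y`.
* If `s = 0` and there were `y ∈ P` with `chi y = 0`, then `P.erase y` would have sum `0` and lie in
  `stepD`; so the trace of `P` on the fibre of `0` is empty.
* If `s ≠ 0`: there is no `y ∈ P` with `chi y = s` (else `P.erase y` has sum `0`). For `y ∈ P` with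
  `chi y = 0`: `P.erase y` has sum `s ≠ 0`, no element with `chi = s`, and trace
  `(trace of P).erase y`; since it is not in `stepD`, `(trace of P).erase y ∉ D0`. So the trace of
  `P` is in `unc (fibre of 0) D0`.
-/

namespace Pool.Agent.H31.Kn

open Finset

theorem unc_stepD_subset {α : Type} [DecidableEq α] {G : Type} [AddCommGroup G] [Fintype G]
    [DecidableEq G] (W : Finset α) (chi : α → G) (D0 : Finset (Finset α)) :
    unc W (stepD W chi D0) ⊆
      W.powerset.filter (fun S => S.filter (fun x => chi x = 0) = ∅) ∪
        avoid W chi (unc (W.filter (fun x => chi x = 0)) D0) := by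
  intro P hP
  simp only [unc, mem_filter, mem_powerset] at hP
  obtain ⟨hPW, hP⟩ := hP
  have hsum : ∀ y ∈ P, ∑ x ∈ P.erase y, chi x = (∑ x ∈ P, chi x) - chi y := by
    intro y hy
    rw [← Finset.sum_erase_add _ _ hy, add_sub_cancel_right]
  by_cases hs : ∑ x ∈ P, chi x = 0
  · apply mem_union_left
    rw [mem_filter, mem_powerset]
    refine ⟨hPW, ?_⟩
    rw [filter_eq_empty_iff]
    intro y hy hy0
    apply hP y hy
    apply mem_union_left
    rw [mem_filter, mem_powerset]
    exact ⟨(erase_subset _ _).trans hPW, by rw [hsum y hy, hs, hy0, sub_zero]⟩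
  · apply mem_union_right
    have hne : ∀ y ∈ P, chi y ≠ ∑ x ∈ P, chi x := by
      intro y hy h
      apply hP y hy
      apply mem_union_left
      rw [mem_filter, mem_powerset]
      exact ⟨(erase_subset _ _).trans hPW, by rw [hsum y hy, h, sub_self]⟩
    rw [avoid, mem_filter, mem_powerset]
    refine ⟨hPW, hs, hne, ?_⟩
    rw [unc, mem_filter, mem_powerset]
    refine ⟨filter_subset_filter _ hPW, ?_⟩
    intro y hy hD
    rw [mem_filter] at hy
    apply hP y hy.1
    apply mem_union_right
    rw [avoid, mem_filter, mem_powerset]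
    have h1 := hsum y hy.1
    rw [hy.2, sub_zero] at h1
    refine ⟨(erase_subset _ _).trans hPW, by rw [h1]; exact hs, ?_, ?_⟩
    · intro x hx
      rw [h1]
      exact hne x (mem_of_mem_erase hx)
    · have h2 : (P.erase y).filter (fun x => chi x = 0) =
          (P.filter (fun x => chi x = 0)).erase y := by
        ext x
        simp only [mem_filter, mem_erase]
        tauto
      rw [h2]
      exact hD

end Pool.Agent.H31.Kn
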