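import Pool.Agent.H31.Kn.K03Label
import Pool.Agent.H31.Kn.K04Toggle
import Pool.Agent.H31.Kn.K05Avoid
import Pool.Agent.H31.Kn.K06Unc

/-!
Module H31 KN 07. One step of the recursion for down-covers. (The imported modules 03-06 may still
contain `sorry`; use their statements.)

Proof. `G = Fin r → ZMod 2` has `2^r` elements and `g + g = 0`. By `exists_label` with `i0 = 0`
there is `chi : α → G` such that every `g ≠ 0` is used exactly `m` times on `W`.
Let `W0 = {x ∈ W : chi x = 0}`; `W` is the disjoint union of `W0` and the `2^r - 1` fibres, so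
`|W0| = |W| - (2^r-1) m` and `#{x ∈ W : chi x ≠ 0} = |W| - |W0|`. For `D0` take
`D = stepD W chi D0`. The first bound: `card_sum_eq` with `h = 0` and `card_avoid` with `A = D0`.
The second bound: `unc_stepD_subset`, `card_avoid` with `A = unc W0 D0`, and: the number of the
`S ⊆ W` with empty trace on `W0` is at most the number of subsets of `W \ W0`, `2^(|W| - |W0|)`.
-/

namespace Pool.Agent.H31.Kn

open Finset

theorem downcover_step {α : Type} [DecidableEq α] (m r : ℕ) (hm : 1 ≤ m) (W : Finset α)
    (hW : (2 ^ r - 1) * m ≤ W.card) :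
    ∃ W0 ⊆ W, W0.card = W.card - (2 ^ r - 1) * m ∧
      ∀ D0 : Finset (Finset α), D0 ⊆ W0.powerset → ∃ D ⊆ W.powerset,
        (D.card : ℝ) ≤ 2 ^ W.card / 2 ^ r + D0.card * 2 ^ (W.card - W0.card) / 2 ^ (m - 1) ∧
        ((unc W D).card : ℝ) ≤ 2 ^ (W.card - W0.card) +
          (unc W0 D0).card * 2 ^ (W.card - W0.card) / 2 ^ (m - 1) := by
  have hG : Fintype.card (Fin r → ZMod 2) = 2 ^ r := by
    rw [Fintype.card_fun, ZMod.card, Fintype.card_fin]
  have h2 : ∀ g : Fin r → ZMod 2, g + g = 0 := by
    intro g
    funext i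
    exact CharTwo.add_self_eq_zero (g i)
  obtain ⟨chi, hchi⟩ := exists_label (0 : Fin r → ZMod 2) W m (by rw [hG]; exact hW)
  have hW0 : (W.filter (fun x => chi x = 0)).card + (2 ^ r - 1) * m = W.card := by
    have h3 := card_eq_sum_card_fiberwise (f := chi) (s := W) (t := univ)
      (fun _ _ => mem_coe.2 (mem_univ _))
    have h4 : ∑ g ∈ univ.erase (0 : Fin r → ZMod 2), (W.filter (fun x => chi x = g)).card =
        (2 ^ r - 1) * m := by
      rw [sum_congr rfl fun g hg => hchi g (ne_of_mem_erase hg), sum_const,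
        card_erase_of_mem (mem_univ _), card_univ, hG, smul_eq_mul]
    rw [h3, ← add_sum_erase univ _ (mem_univ (0 : Fin r → ZMod 2)), h4]
  have hne : (W.filter (fun x => chi x ≠ 0)).card =
      W.card - (W.filter (fun x => chi x = 0)).card := by
    have h5 : (W.filter (fun x => chi x = 0)).card + (W.filter (fun x => chi x ≠ 0)).card =
        W.card := card_filter_add_card_filter_not _
    omega
  have hbig : ∀ g : Fin r → ZMod 2, g ≠ 0 → m ≤ (W.filter (fun x => chi x = g)).card :=
    fun g hg => (hchi g hg).ge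
  have hex : ∀ g : Fin r → ZMod 2, g ≠ 0 → ∃ x ∈ W, chi x = g := by
    intro g hg
    have h5 : 0 < (W.filter (fun x => chi x = g)).card := lt_of_lt_of_le hm (hbig g hg)
    obtain ⟨x, hx⟩ := card_pos.1 h5
    exact ⟨x, (mem_filter.1 hx).1, (mem_filter.1 hx).2⟩
  have hav : ∀ A : Finset (Finset α), ((avoid W chi A).card : ℝ) ≤
      A.card * 2 ^ (W.card - (W.filter (fun x => chi x = 0)).card) / 2 ^ (m - 1) := by
    intro A
    have h5 := card_avoid h2 W chi m hm hbig A
    rw [hne] at h5
    rw [le_div_iff₀ (by positivity)]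
    exact_mod_cast h5
  refine ⟨W.filter (fun x => chi x = 0), filter_subset _ _, by omega,
    fun D0 _ => ⟨stepD W chi D0, union_subset (filter_subset _ _) (filter_subset _ _), ?_, ?_⟩⟩
  · have h5 := card_sum_eq h2 W chi hex 0
    rw [hG] at h5
    have h6 : ((W.powerset.filter (fun S => (∑ x ∈ S, chi x) = 0)).card : ℝ) =
        2 ^ W.card / 2 ^ r := by
      rw [eq_div_iff (by positivity), mul_comm]
      exact_mod_cast h5
    have h7 : ((stepD W chi D0).card : ℝ) ≤
        (W.powerset.filter (fun S => (∑ x ∈ S, chi x) = 0)).card + (avoid W chi D0).card := by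
      exact_mod_cast card_union_le _ _
    rw [h6] at h7
    exact h7.trans (add_le_add le_rfl (hav D0))
  · have h5 : ((unc W (stepD W chi D0)).card : ℝ) ≤
        (W.powerset.filter (fun S => S.filter (fun x => chi x = 0) = ∅)).card +
          (avoid W chi (unc (W.filter (fun x => chi x = 0)) D0)).card := by
      exact_mod_cast (card_le_card (unc_stepD_subset W chi D0)).trans (card_union_le _ _)
    refine h5.trans (add_le_add ?_ (hav _))
    have h6 : (W.powerset.filter (fun S => S.filter (fun x => chi x = 0) = ∅)).card ≤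
        2 ^ (W.card - (W.filter (fun x => chi x = 0)).card) := by
      rw [← hne, ← card_powerset]
      refine card_le_card fun S hS => ?_
      rw [mem_filter, mem_powerset, filter_eq_empty_iff] at hS
      rw [mem_powerset]
      exact fun x hx => mem_filter.2 ⟨hS.1 hx, hS.2 hx⟩
    exact_mod_cast h6

end Pool.Agent.H31.Kn
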