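import Pool.Agent.H31.Kn.K07DownStep

/-!
Module H31 KN 08. The down-cover lemma. (The imported module 07 may still contain `sorry`; use its
statement `downcover_step`.)

Proof. Let `m = c + 3`, let `C` be such that `(2n)^c ≤ C 2^n` for all naturals `n`
(exists: `tendsto_pow_const_div_const_pow_of_one_lt`), and let `K = max (8m) (max ((4m)^c) (2C))`,
or the sum of these numbers plus `1`. Strong induction on `w = |W|`.
If `w < 4m` take `D = ∅`: `|unc W ∅| ≤ 2^w` and `w^c ≤ (4m)^c`.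
If `w ≥ 4m` let `r = Nat.log 2 (w / (2m))`, so `r ≥ 1`, `2^r ≤ w/(2m) < 2^(r+1)`, hence
`(2^r - 1) m ≤ w/2`, and `1/2^r ≤ 4m/w` (from `w/(2m) < 2^(r+1)` in real numbers: take care with the
integer division, `w < 2m (w/(2m) + 1) ≤ 2m 2^(r+1)`). `downcover_step` gives `W0` with
`w0 = |W0| = w - (2^r - 1) m`, `w/2 ≤ w0 < w`, `W0` nonempty; the induction hypothesis gives `D0`
on `W0` with `|D0| w0 ≤ K 2^w0` and `|unc W0 D0| w0^c ≤ K 2^w0`. Then for the `D` of the step
`|D| ≤ 2^w (4m/w) + (K/w0) 2^w / 2^(m-1) ≤ (2^w/w) (4m + K 2^(2-m)) ≤ (2^w/w) (K/2 + K/2)`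
(`m ≥ 3`, `w0 ≥ w/2`), and
`|unc W D| ≤ 2^(w-w0) + (K/w0^c) 2^w/2^(m-1) ≤ 2^(w-w0) + (K 2^w/w^c) 2^(c+1-m)`
with `2^(c+1-m) = 1/4`, and `w^c 2^(w-w0) ≤ (2 w0)^c 2^(w - w0) ≤ C 2^w ≤ (K/2) 2^w`.
-/

namespace Pool.Agent.H31.Kn

open Finset

theorem k08_poly_bound (c : ℕ) : ∃ C : ℝ, 0 < C ∧ ∀ n : ℕ, (2 * (n : ℝ)) ^ c ≤ C * 2 ^ n := by
  have h := tendsto_pow_const_div_const_pow_of_one_lt c (one_lt_two : (1 : ℝ) < 2)
  obtain ⟨B, hB⟩ := h.bddAbove_range
  refine ⟨2 ^ c * (|B| + 1), by positivity, fun n => ?_⟩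
  have h1 : (n : ℝ) ^ c / 2 ^ n ≤ B := hB ⟨n, rfl⟩
  have h2 : (n : ℝ) ^ c ≤ B * 2 ^ n := by
    rwa [div_le_iff₀ (by positivity)] at h1
  have h3 : (n : ℝ) ^ c ≤ (|B| + 1) * 2 ^ n := by
    refine h2.trans ?_
    have : B ≤ |B| + 1 := by linarith [le_abs_self B]
    exact mul_le_mul_of_nonneg_right this (by positivity)
  calc (2 * (n : ℝ)) ^ c = 2 ^ c * (n : ℝ) ^ c := by rw [mul_pow]
    _ ≤ 2 ^ c * ((|B| + 1) * 2 ^ n) := mul_le_mul_of_nonneg_left h3 (by positivity)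
    _ = 2 ^ c * (|B| + 1) * 2 ^ n := by ring

theorem exists_downcover (c : ℕ) :
    ∃ K : ℝ, 0 < K ∧ ∀ (α : Type) [DecidableEq α] (W : Finset α), W.Nonempty →
      ∃ D ⊆ W.powerset, (D.card : ℝ) * W.card ≤ K * 2 ^ W.card ∧
        ((unc W D).card : ℝ) * (W.card : ℝ) ^ c ≤ K * 2 ^ W.card := by
  obtain ⟨C, hC0, hC⟩ := k08_poly_bound c
  set m : ℕ := c + 3 with hm
  set K : ℝ := 8 * m + (4 * m) ^ c + 2 * C + 1 with hK
  have hm0 : (0 : ℝ) < m := by rw [hm]; positivity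
  have hKpos : 0 < K := by rw [hK]; positivity
  have hK1 : 8 * (m : ℝ) ≤ K := by
    rw [hK]
    have : (0 : ℝ) ≤ (4 * (m : ℝ)) ^ c := by positivity
    linarith
  have hK2 : (4 * (m : ℝ)) ^ c ≤ K := by
    rw [hK]; linarith
  have hK3 : 2 * C ≤ K := by
    rw [hK]
    have : (0 : ℝ) ≤ (4 * (m : ℝ)) ^ c := by positivity
    linarith
  refine ⟨K, hKpos, ?_⟩
  intro α _ W
  induction hw : W.card using Nat.strong_induction_on generalizing W with
  | _ w ih =>
  intro hWne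
  by_cases hsmall : w < 4 * m
  · refine ⟨∅, Finset.empty_subset _, ?_, ?_⟩
    · simp only [Finset.card_empty, Nat.cast_zero, zero_mul]
      positivity
    · have h1 : ((unc W ∅).card : ℝ) ≤ 2 ^ w := by
        have : (unc W ∅).card ≤ 2 ^ w := by
          unfold unc
          calc _ ≤ W.powerset.card := Finset.card_filter_le _ _
            _ = 2 ^ w := by rw [Finset.card_powerset, hw]
        exact_mod_cast this
      have h2 : (w : ℝ) ^ c ≤ (4 * (m : ℝ)) ^ c := by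
        apply pow_le_pow_left₀ (by positivity)
        have : (w : ℝ) ≤ ((4 * m : ℕ) : ℝ) := by exact_mod_cast hsmall.le
        simpa using this
      calc ((unc W ∅).card : ℝ) * (w : ℝ) ^ c ≤ 2 ^ w * (4 * (m : ℝ)) ^ c :=
            mul_le_mul h1 h2 (by positivity) (by positivity)
        _ ≤ 2 ^ w * K := mul_le_mul_of_nonneg_left hK2 (by positivity)
        _ = K * 2 ^ w := by ring
  · have hbig : 4 * m ≤ w := not_lt.mp hsmall
    have hmpos : 0 < m := by omega
    set t : ℕ := w / (2 * m) with ht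
    have ht2 : 2 ≤ t := by
      rw [ht, Nat.le_div_iff_mul_le (by omega)]
      omega
    set r : ℕ := Nat.log 2 t with hr
    have hr1 : 2 ^ r ≤ t := Nat.pow_log_le_self 2 (by omega)
    have hr2 : t < 2 ^ (r + 1) := Nat.lt_pow_succ_log_self (by norm_num) t
    have hrpos : 1 ≤ r := by
      by_contra hcon
      have : r = 0 := by omega
      rw [this] at hr2
      norm_num at hr2
      omega
    have htw : t * (2 * m) ≤ w := Nat.div_mul_le_self w (2 * m)
    have hwt : w < (t + 1) * (2 * m) := by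
      rw [ht]
      have := Nat.lt_div_mul_add (a := w) (b := 2 * m) (by omega)
      nlinarith [this]
    have h2r : 2 ^ r * (2 * m) ≤ w := le_trans (Nat.mul_le_mul_right _ hr1) htw
    have hw4 : w < 4 * m * 2 ^ r := by
      have h1 : t + 1 ≤ 2 ^ (r + 1) := hr2
      have h2 : (t + 1) * (2 * m) ≤ 2 ^ (r + 1) * (2 * m) := Nat.mul_le_mul_right _ h1
      have h3 : 2 ^ (r + 1) * (2 * m) = 4 * m * 2 ^ r := by ring
      omega
    have h2pos : 2 ≤ 2 ^ r := by
      calc 2 = 2 ^ 1 := by norm_num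
        _ ≤ 2 ^ r := Nat.pow_le_pow_right (by norm_num) hrpos
    set q : ℕ := (2 ^ r - 1) * m with hq
    have hq1 : q + m = 2 ^ r * m := by
      rw [hq]
      have : (2 ^ r - 1) + 1 = 2 ^ r := by omega
      calc (2 ^ r - 1) * m + m = ((2 ^ r - 1) + 1) * m := by ring
        _ = 2 ^ r * m := by rw [this]
    have hq2 : 2 * (q + m) ≤ w := by
      rw [hq1]
      calc 2 * (2 ^ r * m) = 2 ^ r * (2 * m) := by ring
        _ ≤ w := h2r
    have hqpos : 1 ≤ q := by
      have : 2 * m ≤ q + m := by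
        rw [hq1]
        exact Nat.mul_le_mul_right _ h2pos
      omega
    obtain ⟨W0, hW0W, hW0c, hstep⟩ := downcover_step m r (by omega) W (by rw [hw]; omega)
    rw [hw] at hW0c hstep
    rw [← hq] at hW0c
    set w0 : ℕ := W0.card with hw0
    have hw0lt : w0 < w := by omega
    have hw0half : w ≤ 2 * w0 := by omega
    have hw0pos : 0 < w0 := by omega
    obtain ⟨D0, hD0, hD1, hD2⟩ := ih w0 hw0lt W0 rfl (Finset.card_pos.mp hw0pos)
    obtain ⟨D, hDsub, hDa, hDb⟩ := hstep D0 hD0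
    refine ⟨D, hDsub, ?_, ?_⟩
    · have hwr : (w : ℝ) ≤ 4 * m * 2 ^ r := by exact_mod_cast hw4.le
      have hw0r : (w : ℝ) ≤ 2 * w0 := by exact_mod_cast hw0half
      have e1 : (2 : ℝ) ^ w / 2 ^ r * w ≤ 4 * m * 2 ^ w := by
        rw [div_mul_eq_mul_div, div_le_iff₀ (by positivity)]
        calc (2 : ℝ) ^ w * w ≤ 2 ^ w * (4 * m * 2 ^ r) :=
              mul_le_mul_of_nonneg_left hwr (by positivity)
          _ = 4 * m * 2 ^ w * 2 ^ r := by ring
      have e2 : (D0.card : ℝ) * 2 ^ (w - w0) / 2 ^ (m - 1) * w ≤ K / 2 * 2 ^ w := by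
        have hp : (4 : ℝ) ≤ 2 ^ (m - 1) := by
          calc (4 : ℝ) = 2 ^ 2 := by norm_num
            _ ≤ 2 ^ (m - 1) := pow_le_pow_right₀ (by norm_num) (by omega)
        have hsplit : (2 : ℝ) ^ w = 2 ^ w0 * 2 ^ (w - w0) := by
          rw [← pow_add]; congr 1; omega
        have h1 : (D0.card : ℝ) * w ≤ 2 * (K * 2 ^ w0) := by
          calc (D0.card : ℝ) * w ≤ D0.card * (2 * w0) :=
                mul_le_mul_of_nonneg_left hw0r (by positivity)
            _ = 2 * (D0.card * w0) := by ring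
            _ ≤ 2 * (K * 2 ^ w0) := by linarith
        rw [div_mul_eq_mul_div, div_le_iff₀ (by positivity)]
        calc (D0.card : ℝ) * 2 ^ (w - w0) * w = (D0.card * w) * 2 ^ (w - w0) := by ring
          _ ≤ (2 * (K * 2 ^ w0)) * 2 ^ (w - w0) :=
              mul_le_mul_of_nonneg_right h1 (by positivity)
          _ = K / 2 * 2 ^ w * 4 := by rw [hsplit]; ring
          _ ≤ K / 2 * 2 ^ w * 2 ^ (m - 1) :=
              mul_le_mul_of_nonneg_left hp (by positivity)
      calc (D.card : ℝ) * w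
          ≤ (2 ^ w / 2 ^ r + D0.card * 2 ^ (w - w0) / 2 ^ (m - 1)) * w :=
            mul_le_mul_of_nonneg_right hDa (by positivity)
        _ = 2 ^ w / 2 ^ r * w + D0.card * 2 ^ (w - w0) / 2 ^ (m - 1) * w := by ring
        _ ≤ 4 * m * 2 ^ w + K / 2 * 2 ^ w := add_le_add e1 e2
        _ ≤ K / 2 * 2 ^ w + K / 2 * 2 ^ w := by
            have : 4 * (m : ℝ) * 2 ^ w ≤ K / 2 * 2 ^ w :=
              mul_le_mul_of_nonneg_right (by linarith) (by positivity)
            linarith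
        _ = K * 2 ^ w := by ring
    · have hw0r : (w : ℝ) ^ c ≤ (2 * (w0 : ℝ)) ^ c := by
        apply pow_le_pow_left₀ (by positivity)
        exact_mod_cast hw0half
      have hsplit : (2 : ℝ) ^ w = 2 ^ w0 * 2 ^ (w - w0) := by
        rw [← pow_add]; congr 1; omega
      have e1 : (2 : ℝ) ^ (w - w0) * (w : ℝ) ^ c ≤ K / 2 * 2 ^ w := by
        calc (2 : ℝ) ^ (w - w0) * (w : ℝ) ^ c ≤ 2 ^ (w - w0) * (C * 2 ^ w0) :=
              mul_le_mul_of_nonneg_left (hw0r.trans (hC w0)) (by positivity)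
          _ = C * 2 ^ w := by rw [hsplit]; ring
          _ ≤ K / 2 * 2 ^ w := mul_le_mul_of_nonneg_right (by linarith) (by positivity)
      have e2 : ((unc W0 D0).card : ℝ) * 2 ^ (w - w0) / 2 ^ (m - 1) * (w : ℝ) ^ c
          ≤ K / 2 * 2 ^ w := by
        have hp : (2 : ℝ) ^ (m - 1) = 4 * 2 ^ c := by
          have : m - 1 = c + 2 := by omega
          rw [this, pow_add]; ring
        have h1 : ((unc W0 D0).card : ℝ) * (w : ℝ) ^ c ≤ 2 ^ c * (K * 2 ^ w0) := by
          calc ((unc W0 D0).card : ℝ) * (w : ℝ) ^ c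
              ≤ (unc W0 D0).card * (2 * (w0 : ℝ)) ^ c :=
                mul_le_mul_of_nonneg_left hw0r (by positivity)
            _ = 2 ^ c * ((unc W0 D0).card * (w0 : ℝ) ^ c) := by rw [mul_pow]; ring
            _ ≤ 2 ^ c * (K * 2 ^ w0) := mul_le_mul_of_nonneg_left hD2 (by positivity)
        rw [div_mul_eq_mul_div, div_le_iff₀ (by positivity), hp]
        calc ((unc W0 D0).card : ℝ) * 2 ^ (w - w0) * (w : ℝ) ^ c
            = ((unc W0 D0).card * (w : ℝ) ^ c) * 2 ^ (w - w0) := by ring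
          _ ≤ (2 ^ c * (K * 2 ^ w0)) * 2 ^ (w - w0) :=
              mul_le_mul_of_nonneg_right h1 (by positivity)
          _ = K * 2 ^ w * 2 ^ c := by rw [hsplit]; ring
          _ ≤ K / 2 * 2 ^ w * (4 * 2 ^ c) := by
              have : 0 ≤ K * 2 ^ w * 2 ^ c := by positivity
              nlinarith
      calc ((unc W D).card : ℝ) * (w : ℝ) ^ c
          ≤ (2 ^ (w - w0) + (unc W0 D0).card * 2 ^ (w - w0) / 2 ^ (m - 1)) * (w : ℝ) ^ c :=
            mul_le_mul_of_nonneg_right hDb (by positivity)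
        _ = 2 ^ (w - w0) * (w : ℝ) ^ c +
            (unc W0 D0).card * 2 ^ (w - w0) / 2 ^ (m - 1) * (w : ℝ) ^ c := by ring
        _ ≤ K / 2 * 2 ^ w + K / 2 * 2 ^ w := add_le_add e1 e2
        _ = K * 2 ^ w := by ring

end Pool.Agent.H31.Kn
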