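import Pool.Agent.H31.Kn.Defs

/-!
Module H31 KN 09. Cylinder sets: all subsets, and the subsets of a fixed size.

Proof. `Z ↦ (Z ∩ T, Z \ T)` is injective on the subsets of `W`; the first component lies in `A`,
the second is a subset of `W \ T`: this gives the first bound. For the second bound fix
`S = Z ∩ T ∈ A`; then `Z \ T` is a subset of `W \ T` of size `j - |S|`, and there are
`(|W|-|T|).choose (j - |S|) ≤ (|W|-|T|).choose ((|W|-|T|)/2)` of them (`Nat.choose_le_middle`).
-/

namespace Pool.Agent.H31.Kn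

open Finset

theorem K09Cyl_inj {α : Type} [DecidableEq α] (T : Finset α) :
    Function.Injective (fun Z : Finset α => (Z ∩ T, Z \ T)) := by
  intro Z Z' h
  have h1 := (Prod.mk.inj h).1
  have h2 := (Prod.mk.inj h).2
  rw [← sdiff_union_inter Z T, ← sdiff_union_inter Z' T, h1, h2]

theorem card_cyl_le {α : Type} [DecidableEq α] (W T : Finset α) (hT : T ⊆ W)
    (A : Finset (Finset α)) :
    (W.powerset.filter (fun Z => Z ∩ T ∈ A)).card ≤ A.card * 2 ^ (W.card - T.card) := by
  rw [← card_sdiff_of_subset hT, ← card_powerset, ← card_product]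
  refine card_le_card_of_injOn (fun Z => (Z ∩ T, Z \ T)) ?_ ?_
  · intro Z hZ
    rw [mem_coe, mem_filter, mem_powerset] at hZ
    rw [mem_coe, mem_product, mem_powerset]
    exact ⟨hZ.2, sdiff_subset_sdiff hZ.1 (subset_refl T)⟩
  · exact (K09Cyl_inj T).injOn

theorem card_cyl_level_le {α : Type} [DecidableEq α] (W T : Finset α) (hT : T ⊆ W)
    (A : Finset (Finset α)) (j : ℕ) :
    (W.powerset.filter (fun Z => Z.card = j ∧ Z ∩ T ∈ A)).card ≤
      A.card * (W.card - T.card).choose ((W.card - T.card) / 2) := by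
  have h1 : W.powerset.filter (fun Z => Z.card = j ∧ Z ∩ T ∈ A) ⊆
      A.biUnion (fun S => W.powerset.filter (fun Z => Z.card = j ∧ Z ∩ T = S)) := by
    intro Z hZ
    rw [mem_filter] at hZ
    rw [mem_biUnion]
    exact ⟨Z ∩ T, hZ.2.2, mem_filter.2 ⟨hZ.1, hZ.2.1, rfl⟩⟩
  refine (card_le_card h1).trans (card_biUnion_le_card_mul _ _ _ fun S _ => ?_)
  refine le_trans ?_ (Nat.choose_le_middle (j - S.card) (W.card - T.card))
  rw [← card_sdiff_of_subset hT, ← card_powersetCard]
  refine card_le_card_of_injOn (fun Z => Z \ T) ?_ ?_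
  · intro Z hZ
    rw [mem_coe, mem_filter, mem_powerset] at hZ
    rw [mem_coe, mem_powersetCard]
    refine ⟨sdiff_subset_sdiff hZ.1 (subset_refl T), ?_⟩
    rw [← hZ.2.1, ← hZ.2.2, card_sdiff, inter_comm]
  · intro Z hZ Z' hZ' h
    rw [mem_coe, mem_filter] at hZ hZ'
    apply K09Cyl_inj T
    change (Z ∩ T, Z \ T) = (Z' ∩ T, Z' \ T)
    have h3 : Z \ T = Z' \ T := h
    rw [hZ.2.2, hZ'.2.2, h3]

end Pool.Agent.H31.Kn
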