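import Pool.Agent.H31.Kn.Defs

/-!
Module H31 KN 10. Counting the sets whose trace on one part, or on at least `c` of the parts, lies
in a given small family. `p` is a condition on the size (all sizes, or one fixed size), `be` the
corresponding bound for cylinders.

Proof. First bound: the union over `s` of the cylinders `{Z : p |Z|, Z ∩ T s ∈ A s}`, each with at
most `|A s| * be (|W| - m) ≤ d * be (|W| - m)` members (`hbe` with `T s`, `A s`).
Second bound: if at least `c` parts `s` satisfy `Z ∩ T s ∈ A s` then there is `S : Finset ι`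
with `|S| = c` and `Z ∩ T s ∈ A s` for all `s ∈ S`. For fixed `S` let `TS = S.biUnion T`,
`|TS| = c * m`, and let `AS` be the family of the `Y ⊆ TS` with `Y ∩ T s ∈ A s` for all `s ∈ S`;
`Y ↦ (s ↦ Y ∩ T s)` is injective on it, so `|AS| ≤ ∏ s ∈ S, |A s| ≤ d ^ c`
(for example `Finset.card_le_card_of_injOn` into `Finset.pi`, or `Fintype.piFinset`). By `hbe` with
`TS`, `AS` the sets `Z` belonging to `S` are at most `d ^ c * be (|W| - c * m)` many
(`(Z ∩ TS) ∩ T s = Z ∩ T s`), and there are at most `2 ^ |ι|` sets `S`.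
-/

namespace Pool.Agent.H31.Kn

open Finset

theorem card_one_part {α : Type} [DecidableEq α] {ι : Type} [Fintype ι] [DecidableEq ι]
    (W : Finset α) (p : ℕ → Prop) [DecidablePred p] (be : ℕ → ℝ) (hb0 : ∀ n, 0 ≤ be n)
    (hbe : ∀ (T : Finset α) (A : Finset (Finset α)), T ⊆ W →
      ((W.powerset.filter (fun Z => p Z.card ∧ Z ∩ T ∈ A)).card : ℝ) ≤
        A.card * be (W.card - T.card))
    (T : ι → Finset α) (m : ℕ) (hTW : ∀ s, T s ⊆ W) (hTm : ∀ s, (T s).card = m)
    (A : ι → Finset (Finset α)) (d : ℝ) (hA : ∀ s, ((A s).card : ℝ) ≤ d) :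
    ((W.powerset.filter (fun Z => p Z.card ∧ ∃ s, Z ∩ T s ∈ A s)).card : ℝ) ≤
      Fintype.card ι * d * be (W.card - m) := by
  have h1 : W.powerset.filter (fun Z => p Z.card ∧ ∃ s, Z ∩ T s ∈ A s) ⊆
      univ.biUnion (fun s => W.powerset.filter (fun Z => p Z.card ∧ Z ∩ T s ∈ A s)) := by
    intro Z hZ
    rw [mem_filter] at hZ
    obtain ⟨h2, h3, s, h4⟩ := hZ
    rw [mem_biUnion]
    exact ⟨s, mem_univ s, mem_filter.2 ⟨h2, h3, h4⟩⟩
  have h2 : ((W.powerset.filter (fun Z => p Z.card ∧ ∃ s, Z ∩ T s ∈ A s)).card : ℝ) ≤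
      ∑ s : ι, ((W.powerset.filter (fun Z => p Z.card ∧ Z ∩ T s ∈ A s)).card : ℝ) := by
    exact_mod_cast (card_le_card h1).trans card_biUnion_le
  refine h2.trans ?_
  have h3 : ∀ s ∈ (univ : Finset ι),
      ((W.powerset.filter (fun Z => p Z.card ∧ Z ∩ T s ∈ A s)).card : ℝ) ≤
        d * be (W.card - m) := by
    intro s _
    refine (hbe (T s) (A s) (hTW s)).trans ?_
    rw [hTm s]
    exact mul_le_mul_of_nonneg_right (hA s) (hb0 _)
  refine (sum_le_card_nsmul _ _ _ h3).trans (le_of_eq ?_)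
  rw [card_univ, nsmul_eq_mul, mul_assoc]

/-- The sets with all traces in the given families. -/
def K10Parts_fam {α : Type} [DecidableEq α] {ι : Type} [DecidableEq ι] (T : ι → Finset α)
    (A : ι → Finset (Finset α)) (S : Finset ι) : Finset (Finset α) :=
  (S.biUnion T).powerset.filter (fun Y => ∀ s ∈ S, Y ∩ T s ∈ A s)

theorem K10Parts_mem {α : Type} [DecidableEq α] {ι : Type} [DecidableEq ι] (T : ι → Finset α)
    (A : ι → Finset (Finset α)) (S : Finset ι) (Y : Finset α) :
    Y ∈ K10Parts_fam T A S ↔ Y ⊆ S.biUnion T ∧ ∀ s ∈ S, Y ∩ T s ∈ A s := by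
  rw [K10Parts_fam, mem_filter, mem_powerset]

theorem K10Parts_card {α : Type} [DecidableEq α] {ι : Type} [DecidableEq ι] (T : ι → Finset α)
    (A : ι → Finset (Finset α)) (S : Finset ι) :
    (K10Parts_fam T A S).card ≤ ∏ s ∈ S, (A s).card := by
  rw [← card_pi]
  refine card_le_card_of_injOn (fun Y => fun s _ => Y ∩ T s) ?_ ?_
  · intro Y hY
    rw [mem_coe, K10Parts_mem] at hY
    rw [mem_coe, mem_pi]
    exact hY.2
  · intro Y hY Y' hY' h
    rw [mem_coe, K10Parts_mem] at hY hY'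
    have h1 : ∀ s ∈ S, Y ∩ T s = Y' ∩ T s := fun s hs => congrFun (congrFun h s) hs
    rw [← inter_eq_left.2 hY.1, ← inter_eq_left.2 hY'.1, inter_biUnion, inter_biUnion]
    exact biUnion_congr rfl h1

theorem card_many_parts {α : Type} [DecidableEq α] {ι : Type} [Fintype ι] [DecidableEq ι]
    (W : Finset α) (p : ℕ → Prop) [DecidablePred p] (be : ℕ → ℝ) (hb0 : ∀ n, 0 ≤ be n)
    (hbe : ∀ (T : Finset α) (A : Finset (Finset α)), T ⊆ W →
      ((W.powerset.filter (fun Z => p Z.card ∧ Z ∩ T ∈ A)).card : ℝ) ≤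
        A.card * be (W.card - T.card))
    (T : ι → Finset α) (m c : ℕ) (hTW : ∀ s, T s ⊆ W) (hTm : ∀ s, (T s).card = m)
    (hdis : ∀ s t, s ≠ t → Disjoint (T s) (T t))
    (A : ι → Finset (Finset α)) (d : ℝ) (hd : 0 ≤ d) (hA : ∀ s, ((A s).card : ℝ) ≤ d) :
    ((W.powerset.filter (fun Z => p Z.card ∧
        c ≤ (univ.filter (fun s => Z ∩ T s ∈ A s)).card)).card : ℝ) ≤
      2 ^ Fintype.card ι * d ^ c * be (W.card - c * m) := by
  have h1 : W.powerset.filter (fun Z => p Z.card ∧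
        c ≤ (univ.filter (fun s => Z ∩ T s ∈ A s)).card) ⊆
      (univ.powersetCard c).biUnion (fun S => W.powerset.filter (fun Z => p Z.card ∧
        Z ∩ S.biUnion T ∈ K10Parts_fam T A S)) := by
    intro Z hZ
    rw [mem_filter, mem_powerset] at hZ
    obtain ⟨h2, h3, h4⟩ := hZ
    obtain ⟨S, hS1, hS2⟩ := exists_subset_card_eq h4
    rw [mem_biUnion]
    refine ⟨S, mem_powersetCard.2 ⟨subset_univ S, hS2⟩, mem_filter.2 ⟨mem_powerset.2 h2, h3, ?_⟩⟩
    refine (K10Parts_mem T A S _).2 ⟨inter_subset_right, fun s hs => ?_⟩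
    have h5 : Z ∩ S.biUnion T ∩ T s = Z ∩ T s := by
      rw [inter_assoc, inter_eq_right.2 (subset_biUnion_of_mem T hs)]
    rw [h5]
    exact (mem_filter.1 (hS1 hs)).2
  have h2 : ((W.powerset.filter (fun Z => p Z.card ∧
        c ≤ (univ.filter (fun s => Z ∩ T s ∈ A s)).card)).card : ℝ) ≤
      ∑ S ∈ (univ : Finset ι).powersetCard c, ((W.powerset.filter (fun Z => p Z.card ∧
        Z ∩ S.biUnion T ∈ K10Parts_fam T A S)).card : ℝ) := by
    exact_mod_cast (card_le_card h1).trans card_biUnion_le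
  refine h2.trans ?_
  have h3 : ∀ S ∈ (univ : Finset ι).powersetCard c,
      ((W.powerset.filter (fun Z => p Z.card ∧
        Z ∩ S.biUnion T ∈ K10Parts_fam T A S)).card : ℝ) ≤
        d ^ c * be (W.card - c * m) := by
    intro S hS
    rw [mem_powersetCard] at hS
    refine (hbe (S.biUnion T) (K10Parts_fam T A S) (biUnion_subset.2 fun s _ => hTW s)).trans ?_
    have h4 : (S.biUnion T).card = c * m := by
      rw [card_biUnion fun s _ t _ hst => hdis s t hst, sum_congr rfl fun s _ => hTm s, sum_const,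
        hS.2, smul_eq_mul]
    rw [h4]
    refine mul_le_mul_of_nonneg_right ?_ (hb0 _)
    have h5 : ((K10Parts_fam T A S).card : ℝ) ≤ ∏ s ∈ S, ((A s).card : ℝ) := by
      exact_mod_cast K10Parts_card T A S
    refine h5.trans ((prod_le_prod (fun s _ => Nat.cast_nonneg _) fun s _ => hA s).trans
      (le_of_eq ?_))
    rw [prod_const, hS.2]
  refine (sum_le_card_nsmul _ _ _ h3).trans ?_
  rw [nsmul_eq_mul, mul_assoc]
  refine mul_le_mul_of_nonneg_right ?_ (mul_nonneg (pow_nonneg hd c) (hb0 _))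
  have h6 : ((univ : Finset ι).powersetCard c).card ≤ 2 ^ Fintype.card ι := by
    rw [← card_univ, ← card_powerset]
    refine card_le_card fun S _ => mem_powerset.2 (subset_univ S)
  exact_mod_cast h6

end Pool.Agent.H31.Kn
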