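import Pool.Agent.H31.Kn.K01Arith

/-!
Module H31 KN 11. The system of the step is independent. (Uses `sum_pow_ne_zero` of module 01.)

Proof. Let `X` be a lower and `Y` an upper member, `X ⊆ Y`, `|Y \ X| = c`. Then
`0 = gs Y - gs X` is the sum of the weights of the elements of `Y \ X`. The elements of `Y \ X`
with label `≠ none` have weight a power `2^i`, `i ≤ c`, the others have weight `0`. By
`sum_pow_ne_zero` there is no element of `Y \ X` with label `≠ none` (otherwise these elements,
at most `c` of them, would have sum `≠ 0`). So `X` and `Y` have the same elements with label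
`some ..`: `part lam (some l) X = part lam (some l) Y` and
`part lam (some l) (W \ X) = part lam (some l) (W \ Y)`, hence `tc X = tc Y` and `ec X = ec Y`.
As `tc Y < c`, `X` is a lower member by the second alternative: `ec X < c` and
`part none X ∈ Jlo`. As `ec Y = ec X < c`, `part none Y ∈ Jup`. But
`part none X ⊆ part none Y` and `part none Y \ part none X = Y \ X` has `c` elements: this
contradicts `Indep c Jlo Jup`. (`c = 0` needs no extra care: then `Y \ X = ∅`.)
-/

namespace Pool.Agent.H31.Kn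

open Finset

theorem K11Indep_part {α : Type} [DecidableEq α] {c : ℕ} (lam : α → Lab c) {X Y : Finset α}
    (hXY : X ⊆ Y) (h : ∀ y ∈ Y \ X, lam y = none) (l : Bool × Idx c) :
    part lam (some l) X = part lam (some l) Y := by
  unfold part
  ext y
  rw [mem_filter, mem_filter]
  constructor
  · rintro ⟨h1, h2⟩
    exact ⟨hXY h1, h2⟩
  · rintro ⟨h1, h2⟩
    refine ⟨?_, h2⟩
    by_contra h3
    rw [h y (mem_sdiff.2 ⟨h1, h3⟩)] at h2
    exact absurd h2 (by simp)

theorem indep_step {α : Type} [DecidableEq α] (c : ℕ) (lam : α → Lab c) (W : Finset α)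
    (D : Bool × Idx c → Finset (Finset α)) (a : ZMod (NN c)) (Jlo Jup : Finset (Finset α))
    (hJ : Indep c Jlo Jup) :
    Indep c (Qf c lam W D a Jlo) (Pf c lam W D a Jup) := by
  rintro X hX Y hY ⟨hXY, hcard⟩
  unfold Qf at hX
  unfold Pf at hY
  rw [mem_filter, mem_powerset] at hX hY
  obtain ⟨hXW, hXa, hX2⟩ := hX
  obtain ⟨hYW, hYa, hYt, hY2⟩ := hY
  have hsum : ∑ y ∈ Y \ X, wt c (lam y) = 0 := by
    have h1 : ∑ y ∈ Y \ X, wt c (lam y) + ∑ y ∈ X, wt c (lam y) = ∑ y ∈ Y, wt c (lam y) :=
      sum_sdiff hXY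
    unfold gs at hXa hYa
    rw [hXa, hYa] at h1
    exact add_eq_right.1 h1
  have hnone : ∀ y ∈ Y \ X, lam y = none := by
    by_contra hcon
    push Not at hcon
    obtain ⟨y, hy, hyn⟩ := hcon
    set R := (Y \ X).filter (fun y => lam y ≠ none) with hR
    have h2 : ∑ y ∈ R, wt c (lam y) = ∑ y ∈ Y \ X, wt c (lam y) := by
      refine sum_subset (filter_subset _ _) ?_
      intro z hz hzR
      have h3 : lam z = none := by
        by_contra h4
        exact hzR (mem_filter.2 ⟨hz, h4⟩)
      rw [h3]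
      rfl
    refine sum_pow_ne_zero c R (fun y => wt c (lam y)) ?_ ⟨y, mem_filter.2 ⟨hy, hyn⟩⟩ ?_
      (h2.trans hsum)
    · intro z hz
      have h3 := (mem_filter.1 hz).2
      obtain ⟨l, hl⟩ := Option.ne_none_iff_exists'.1 h3
      refine ⟨(l.2.1 : ℕ), by omega, ?_⟩
      rw [hl]
      rfl
    · rw [← hcard]
      exact card_le_card (filter_subset _ _)
  have hp := K11Indep_part lam hXY hnone
  have hp' : ∀ l, part lam (some l) (W \ Y) = part lam (some l) (W \ X) := by
    intro l
    refine K11Indep_part lam (sdiff_subset_sdiff le_rfl hXY) ?_ l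
    intro y hy
    rw [mem_sdiff, mem_sdiff, mem_sdiff] at hy
    refine hnone y (mem_sdiff.2 ⟨?_, hy.1.2⟩)
    by_contra h4
    exact hy.2 ⟨hy.1.1, h4⟩
  have htc : tc c lam D X = tc c lam D Y := by
    unfold tc
    simp only [hp]
  have hec : ec c lam W D X = ec c lam W D Y := by
    unfold ec
    simp only [hp']
  rw [htc, hec] at hX2
  have hX3 : ec c lam W D Y < c ∧ part lam none X ∈ Jlo := by
    rcases hX2 with h | h
    · omega
    · exact h
  have hY3 : part lam none Y ∈ Jup := by
    rcases hY2 with h | h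
    · omega
    · exact h
  refine hJ _ hX3.2 _ hY3 ⟨filter_subset_filter _ hXY, ?_⟩
  have e : part lam none Y \ part lam none X = Y \ X := by
    unfold part
    ext y
    rw [mem_sdiff, mem_sdiff, mem_filter, mem_filter]
    constructor
    · rintro ⟨⟨h1, h2⟩, h3⟩
      exact ⟨h1, fun h4 => h3 ⟨h4, h2⟩⟩
    · rintro ⟨h1, h2⟩
      exact ⟨⟨h1, hnone y (mem_sdiff.2 ⟨h1, h2⟩)⟩, fun h4 => h2 h4.1⟩
  rw [e, hcard]

end Pool.Agent.H31.Kn
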