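import Pool.Agent.H31.Kn.K02Arith

/-!
Module H31 KN 12. The upper sets that are not dominated by the lower members of the step. (The
imported module 02 may still contain `sorry`; use its statement `exists_pow_sum`.)

Proof. Let `Y ⊆ W` lie in none of the three families on the right; we find `X` in
`Qf c lam W D a Jlo` with `X ⊆ Y` and `|Y \ X| = c`.
* Case `gs Y ≠ a`. By `exists_pow_sum` there is `f : Fin c → Fin (c+1)` with
  `∑ j, 2^(f j) = gs Y - a`. For each `j`, with `s = (f j, j)`, the part
  `part lam (some (true, s)) Y`, a subset of `part lam (some (true, s)) W`, is not in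
  `unc (part lam (some (true, s)) W) (D (true, s))`, so there is `y j` in it with
  `(part lam (some (true, s)) Y).erase (y j) ∈ D (true, s)`. The `y j` have different labels, so
  they are `c` different elements of `Y`. Let `X = Y \ {y j}`. Then `|Y \ X| = c`,
  `gs X = gs Y - ∑ j, 2^(f j) = a`, and `part lam (some (true, (f j, j))) X =
  (part lam (some (true, (f j, j))) Y).erase (y j) ∈ D (true, (f j, j))` for all `j : Fin c`, so
  `c ≤ tc X` (the indices `(f j, j)` are different).
* Case `gs Y = a`. Then `part none Y ∉ upU c (part none W) Jlo`, so there is `X0 ∈ Jlo` with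
  `X0 ⊆ part none Y` and `|part none Y \ X0| = c`. Let `X = Y \ (part none Y \ X0)`. Only elements
  with label `none` (weight `0`) were removed: `gs X = a`, `ec X = ec Y < c`,
  `part none X = X0 ∈ Jlo`; `X ⊆ Y`, `|Y \ X| = c`.
-/

namespace Pool.Agent.H31.Kn

open Finset

theorem k12_mem_part {α : Type} [DecidableEq α] {c : ℕ} (lam : α → Lab c) (l : Lab c)
    (Z : Finset α) (x : α) : x ∈ part lam l Z ↔ x ∈ Z ∧ lam x = l := by
  unfold part
  rw [mem_filter]

theorem k12_gs_sdiff {α : Type} [DecidableEq α] (c : ℕ) (lam : α → Lab c) (Y R : Finset α)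
    (hR : R ⊆ Y) : gs c lam (Y \ R) + ∑ x ∈ R, wt c (lam x) = gs c lam Y := by
  unfold gs
  exact sum_sdiff hR

theorem upU_step {α : Type} [DecidableEq α] (c : ℕ) (lam : α → Lab c) (W : Finset α)
    (D : Bool × Idx c → Finset (Finset α)) (a : ZMod (NN c)) (Jlo : Finset (Finset α)) :
    upU c W (Qf c lam W D a Jlo) ⊆
      W.powerset.filter (fun Y => ∃ s : Idx c, part lam (some (true, s)) Y ∈
          unc (part lam (some (true, s)) W) (D (true, s))) ∪
      W.powerset.filter (fun Y => c ≤ ec c lam W D Y) ∪
      W.powerset.filter (fun Y => gs c lam Y = a ∧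
          part lam none Y ∈ upU c (part lam none W) Jlo) := by
  intro Y hY
  unfold upU at hY
  rw [mem_filter, mem_powerset] at hY
  obtain ⟨hYW, hQ⟩ := hY
  by_contra hn
  simp only [mem_union, mem_filter, mem_powerset, hYW, true_and, not_or] at hn
  obtain ⟨⟨h1, h2⟩, h3⟩ := hn
  by_cases hg : gs c lam Y = a
  · -- remove elements of the core
    have h4 : part lam none Y ∉ upU c (part lam none W) Jlo := fun h => h3 ⟨hg, h⟩
    unfold upU at h4
    rw [mem_filter, mem_powerset] at h4
    have h5 : part lam none Y ⊆ part lam none W := by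
      intro x hx
      rw [k12_mem_part] at hx ⊢
      exact ⟨hYW hx.1, hx.2⟩
    have h6 : ∃ X0 ∈ Jlo, X0 ⊆ part lam none Y ∧ (part lam none Y \ X0).card = c := by
      by_contra hc
      apply h4
      refine ⟨h5, fun X hX hX2 => hc ⟨X, hX, hX2⟩⟩
    obtain ⟨X0, hX0, hX0Y, hcard⟩ := h6
    set R := part lam none Y \ X0 with hR
    have hRY : R ⊆ Y := by
      intro x hx
      rw [hR, mem_sdiff, k12_mem_part] at hx
      exact hx.1.1
    have hRn : ∀ x ∈ R, lam x = none := by
      intro x hx
      rw [hR, mem_sdiff, k12_mem_part] at hx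
      exact hx.1.2
    have hpn : part lam none (Y \ R) = X0 := by
      ext x
      rw [k12_mem_part, mem_sdiff, hR, mem_sdiff, k12_mem_part]
      constructor
      · rintro ⟨⟨a1, a2⟩, a3⟩
        by_contra hx
        exact a2 ⟨⟨a1, a3⟩, hx⟩
      · intro hx
        have := hX0Y hx
        rw [k12_mem_part] at this
        exact ⟨⟨this.1, fun h => h.2 hx⟩, this.2⟩
    apply hQ (Y \ R)
    · unfold Qf
      rw [mem_filter, mem_powerset]
      refine ⟨sdiff_subset.trans hYW, ?_, Or.inr ⟨?_, ?_⟩⟩
      · have h7 := k12_gs_sdiff c lam Y R hRY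
        have h8 : ∑ x ∈ R, wt c (lam x) = 0 := by
          apply sum_eq_zero
          intro x hx
          rw [hRn x hx]
          rfl
        rw [h8, add_zero] at h7
        rw [h7, hg]
      · have h9 : ec c lam W D (Y \ R) = ec c lam W D Y := by
          unfold ec
          congr 1
          apply filter_congr
          intro s _
          have h10 : part lam (some (false, s)) (W \ (Y \ R)) =
              part lam (some (false, s)) (W \ Y) := by
            ext x
            rw [k12_mem_part, k12_mem_part]
            simp only [mem_sdiff]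
            constructor
            · rintro ⟨⟨a1, a2⟩, a3⟩
              refine ⟨⟨a1, fun hx => a2 ⟨hx, fun hxR => ?_⟩⟩, a3⟩
              rw [hRn x hxR] at a3
              exact Option.some_ne_none _ a3.symm
            · rintro ⟨⟨a1, a2⟩, a3⟩
              exact ⟨⟨a1, fun hx => a2 hx.1⟩, a3⟩
          rw [h10]
        rw [h9]
        exact not_le.1 h2
      · rw [hpn]
        exact hX0
    · refine ⟨sdiff_subset, ?_⟩
      rw [sdiff_sdiff_right_self, inf_eq_inter, inter_eq_right.2 hRY]
      exact hcard
  · obtain ⟨f, hf⟩ := exists_pow_sum c (gs c lam Y - a) (sub_ne_zero.2 hg)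
    have h4 : ∀ j : Fin c, ∃ y ∈ part lam (some (true, ((f j, j) : Idx c))) Y,
        (part lam (some (true, ((f j, j) : Idx c))) Y).erase y ∈ D (true, (f j, j)) := by
      intro j
      have h5 : part lam (some (true, ((f j, j) : Idx c))) Y ∉
          unc (part lam (some (true, ((f j, j) : Idx c))) W) (D (true, (f j, j))) :=
        fun h => h1 ⟨_, h⟩
      unfold unc at h5
      rw [mem_filter, mem_powerset] at h5
      by_contra hc
      apply h5
      refine ⟨?_, fun y hy hy2 => hc ⟨y, hy, hy2⟩⟩
      intro x hx
      rw [k12_mem_part] at hx ⊢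
      exact ⟨hYW hx.1, hx.2⟩
    choose y hy1 hy2 using h4
    have hyY : ∀ j, y j ∈ Y := fun j => ((k12_mem_part _ _ _ _).1 (hy1 j)).1
    have hyl : ∀ j, lam (y j) = some (true, ((f j, j) : Idx c)) :=
      fun j => ((k12_mem_part _ _ _ _).1 (hy1 j)).2
    have hyinj : Function.Injective y := by
      intro j j' h
      have h5 := hyl j
      rw [h, hyl j'] at h5
      have h6 := (Prod.mk.inj (Option.some.inj h5)).2
      exact (Prod.mk.inj h6).2.symm
    set R := univ.image y with hR
    have hRY : R ⊆ Y := by
      intro x hx
      rw [hR, mem_image] at hx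
      obtain ⟨j, -, rfl⟩ := hx
      exact hyY j
    have hRc : R.card = c := by
      rw [hR, card_image_of_injective _ hyinj, card_univ, Fintype.card_fin]
    apply hQ (Y \ R)
    · unfold Qf
      rw [mem_filter, mem_powerset]
      refine ⟨sdiff_subset.trans hYW, ?_, Or.inl ?_⟩
      · have h7 := k12_gs_sdiff c lam Y R hRY
        have h8 : ∑ x ∈ R, wt c (lam x) = gs c lam Y - a := by
          rw [hR, sum_image (fun _ _ _ _ h => hyinj h), ← hf]
          apply sum_congr rfl
          intro j _
          rw [hyl]
          rfl
        rw [h8] at h7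
        have h9 : gs c lam (Y \ R) = gs c lam Y - (gs c lam Y - a) := eq_sub_of_add_eq h7
        rw [h9, sub_sub_cancel]
      · have h9 : (univ.image (fun j : Fin c => ((f j, j) : Idx c))).card = c := by
          rw [card_image_of_injective, card_univ, Fintype.card_fin]
          intro j j' h
          exact (Prod.mk.inj h).2
        unfold tc
        refine h9.symm.le.trans ?_
        apply card_le_card
        intro s hs
        rw [mem_image] at hs
        obtain ⟨j, -, rfl⟩ := hs
        rw [mem_filter]
        refine ⟨mem_univ _, ?_⟩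
        have h10 : part lam (some (true, ((f j, j) : Idx c))) (Y \ R) =
            (part lam (some (true, ((f j, j) : Idx c))) Y).erase (y j) := by
          ext x
          rw [k12_mem_part, mem_erase, k12_mem_part, mem_sdiff]
          constructor
          · rintro ⟨⟨a1, a2⟩, a3⟩
            refine ⟨?_, a1, a3⟩
            rintro rfl
            exact a2 (mem_image_of_mem y (mem_univ j))
          · rintro ⟨a1, a2, a3⟩
            refine ⟨⟨a2, ?_⟩, a3⟩
            intro hx
            rw [hR, mem_image] at hx
            obtain ⟨j', -, rfl⟩ := hx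
            apply a1
            rw [hyl j'] at a3
            have h6 := (Prod.mk.inj (Option.some.inj a3)).2
            rw [(Prod.mk.inj h6).2]
        rw [h10]
        exact hy2 j
    · refine ⟨sdiff_subset, ?_⟩
      rw [sdiff_sdiff_right_self, inf_eq_inter, inter_eq_right.2 hRY]
      exact hRc

end Pool.Agent.H31.Kn
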