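import Pool.Agent.H31.Kn.K02Arith

/-!
Module H31 KN 13. The lower sets that are not dominated by the upper members of the step. (The
imported module 02 may still contain `sorry`; use its statement `exists_pow_sum`.)

Proof. Let `X ⊆ W` lie in none of the three families on the right; we find `Y` in
`Pf c lam W D a Jup` with `X ⊆ Y` and `|Y \ X| = c`. Note `tc X < c`.
* Case `gs X ≠ a`. By `exists_pow_sum` there is `f : Fin c → Fin (c+1)` with
  `∑ j, 2^(f j) = a - gs X`. For each `j`, with `s = (f j, j)`, the set
  `part lam (some (false, s)) (W \ X)`, a subset of `part lam (some (false, s)) W`, is not in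
  `unc (part lam (some (false, s)) W) (D (false, s))`, so there is `y j` in it with
  `(part lam (some (false, s)) (W \ X)).erase (y j) ∈ D (false, s)`. The `y j` have different
  labels, so they are `c` different elements of `W \ X`. Let `Y = X ∪ {y j}`. Then
  `|Y \ X| = c`, `Y ⊆ W`, `gs Y = gs X + ∑ j, 2^(f j) = a`, `tc Y = tc X < c` (the traces on the
  parts with `true` do not change), and `part lam (some (false, (f j, j))) (W \ Y) =
  (part lam (some (false, (f j, j))) (W \ X)).erase (y j) ∈ D (false, (f j, j))` for all `j`, so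
  `c ≤ ec Y` (the indices `(f j, j)` are different).
* Case `gs X = a`. Then `part none X ∉ loL c (part none W) Jup`, so there is `Y0 ∈ Jup` with
  `part none X ⊆ Y0` and `|Y0 \ part none X| = c`. We need `Y0 ⊆ part none W`: this is the
  hypothesis `hJ`. Let `Y = X ∪ Y0`. Only elements with label `none` (weight `0`) were added:
  `gs Y = a`, `tc Y = tc X < c`, `part none Y = Y0 ∈ Jup`; `X ⊆ Y ⊆ W`, `|Y \ X| = c`.
-/

namespace Pool.Agent.H31.Kn

open Finset

theorem k13_mem_loL {α : Type} [DecidableEq α] {c : ℕ} {W : Finset α} {P : Finset (Finset α)}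
    {X : Finset α} :
    X ∈ loL c W P ↔ X ⊆ W ∧ ∀ Y ∈ P, ¬ (X ⊆ Y ∧ (Y \ X).card = c) := by
  unfold loL
  rw [mem_filter, mem_powerset]

theorem k13_mem_part {α : Type} [DecidableEq α] {c : ℕ} {lam : α → Lab c} {l : Lab c}
    {Z : Finset α} {x : α} : x ∈ part lam l Z ↔ x ∈ Z ∧ lam x = l := by
  unfold part
  rw [mem_filter]

theorem k13_mem_unc {α : Type} [DecidableEq α] {W : Finset α} {D : Finset (Finset α)}
    {X : Finset α} : X ∈ unc W D ↔ X ⊆ W ∧ ∀ y ∈ X, X.erase y ∉ D := by
  unfold unc
  rw [mem_filter, mem_powerset]

theorem k13_mem_Pf {α : Type} [DecidableEq α] {c : ℕ} {lam : α → Lab c} {W : Finset α}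
    {D : Bool × Idx c → Finset (Finset α)} {a : ZMod (NN c)} {Jup : Finset (Finset α)}
    {Z : Finset α} : Z ∈ Pf c lam W D a Jup ↔ Z ⊆ W ∧ gs c lam Z = a ∧ tc c lam D Z < c ∧
    (c ≤ ec c lam W D Z ∨ part lam none Z ∈ Jup) := by
  unfold Pf
  rw [mem_filter, mem_powerset]

theorem k13_tc_eq {α : Type} [DecidableEq α] (c : ℕ) (lam : α → Lab c)
    (D : Bool × Idx c → Finset (Finset α)) (X V : Finset α)
    (hV : ∀ x ∈ V, ∀ s : Idx c, lam x ≠ some (true, s)) :
    tc c lam D (X ∪ V) = tc c lam D X := by
  have h : ∀ s : Idx c, part lam (some (true, s)) (X ∪ V) = part lam (some (true, s)) X := by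
    intro s
    ext x
    rw [k13_mem_part, k13_mem_part, mem_union]
    constructor
    · rintro ⟨h1 | h1, h2⟩
      · exact ⟨h1, h2⟩
      · exact absurd h2 (hV x h1 s)
    · rintro ⟨h1, h2⟩
      exact ⟨Or.inl h1, h2⟩
  unfold tc
  simp only [h]

theorem loL_step {α : Type} [DecidableEq α] (c : ℕ) (lam : α → Lab c) (W : Finset α)
    (D : Bool × Idx c → Finset (Finset α)) (a : ZMod (NN c)) (Jup : Finset (Finset α))
    (hJ : ∀ Y ∈ Jup, Y ⊆ part lam none W) :
    loL c W (Pf c lam W D a Jup) ⊆
      W.powerset.filter (fun X => ∃ s : Idx c, part lam (some (false, s)) (W \ X) ∈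
          unc (part lam (some (false, s)) W) (D (false, s))) ∪
      W.powerset.filter (fun X => c ≤ tc c lam D X) ∪
      W.powerset.filter (fun X => gs c lam X = a ∧
          part lam none X ∈ loL c (part lam none W) Jup) := by
  intro X hX
  rw [k13_mem_loL] at hX
  obtain ⟨hXW, hXP⟩ := hX
  by_contra hcon
  rw [mem_union, mem_union, mem_filter, mem_filter, mem_filter, mem_powerset] at hcon
  have hu : ∀ s : Idx c, part lam (some (false, s)) (W \ X) ∉
      unc (part lam (some (false, s)) W) (D (false, s)) := by
    intro s hs
    exact hcon (Or.inl (Or.inl ⟨hXW, s, hs⟩))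
  have htc : tc c lam D X < c := by
    by_contra h
    exact hcon (Or.inl (Or.inr ⟨hXW, not_lt.1 h⟩))
  have hlo : gs c lam X = a → part lam none X ∉ loL c (part lam none W) Jup := by
    intro h1 h2
    exact hcon (Or.inr ⟨hXW, h1, h2⟩)
  by_cases hga : gs c lam X = a
  · -- second case
    have h1 := hlo hga
    rw [k13_mem_loL] at h1
    have h2 : part lam none X ⊆ part lam none W := by
      intro x hx
      rw [k13_mem_part] at hx ⊢
      exact ⟨hXW hx.1, hx.2⟩
    have h3 : ∃ Y0 ∈ Jup, part lam none X ⊆ Y0 ∧ (Y0 \ part lam none X).card = c := by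
      by_contra h
      apply h1
      refine ⟨h2, ?_⟩
      intro Y hY hYY
      exact h ⟨Y, hY, hYY⟩
    obtain ⟨Y0, hY0, hs0, hc0⟩ := h3
    have hlab : ∀ x ∈ Y0, lam x = none := fun x hx => (k13_mem_part.1 (hJ Y0 hY0 hx)).2
    have hW0 : ∀ x ∈ Y0, x ∈ W := fun x hx => (k13_mem_part.1 (hJ Y0 hY0 hx)).1
    have hdiff : (X ∪ Y0) \ X = Y0 \ part lam none X := by
      ext x
      rw [mem_sdiff, mem_sdiff, mem_union, k13_mem_part]
      constructor
      · rintro ⟨h4 | h4, h5⟩
        · exact absurd h4 h5
        · exact ⟨h4, fun h6 => h5 h6.1⟩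
      · rintro ⟨h4, h5⟩
        exact ⟨Or.inr h4, fun h6 => h5 ⟨h6, hlab x h4⟩⟩
    refine hXP (X ∪ Y0) ?_ ⟨subset_union_left, by rw [hdiff]; exact hc0⟩
    rw [k13_mem_Pf]
    refine ⟨?_, ?_, ?_, Or.inr ?_⟩
    · intro x hx
      rcases mem_union.1 hx with h | h
      · exact hXW h
      · exact hW0 x h
    · have h5 : gs c lam (X ∪ Y0) = gs c lam ((X ∪ Y0) \ X) + gs c lam X := by
        unfold gs
        exact (sum_sdiff (subset_union_left (s₁ := X) (s₂ := Y0))).symm
      have h6 : gs c lam ((X ∪ Y0) \ X) = 0 := by
        unfold gs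
        apply sum_eq_zero
        intro x hx
        rw [mem_sdiff, mem_union] at hx
        rcases hx.1 with h | h
        · exact absurd h hx.2
        · rw [hlab x h]
          rfl
      rw [h5, h6, zero_add, hga]
    · rw [k13_tc_eq]
      · exact htc
      · intro x hx s
        rw [hlab x hx]
        simp
    · have h7 : part lam none (X ∪ Y0) = Y0 := by
        ext x
        rw [k13_mem_part, mem_union]
        constructor
        · rintro ⟨h4 | h4, h5⟩
          · exact hs0 (k13_mem_part.2 ⟨h4, h5⟩)
          · exact h4
        · intro h4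
          exact ⟨Or.inr h4, hlab x h4⟩
      rw [h7]
      exact hY0
  · -- first case
    obtain ⟨f, hf⟩ := exists_pow_sum c (a - gs c lam X) (sub_ne_zero.2 (Ne.symm hga))
    have hy : ∀ j : Fin c, ∃ y ∈ part lam (some (false, (f j, j))) (W \ X),
        (part lam (some (false, (f j, j))) (W \ X)).erase y ∈ D (false, (f j, j)) := by
      intro j
      by_contra h
      apply hu (f j, j)
      rw [k13_mem_unc]
      refine ⟨?_, ?_⟩
      · intro x hx
        rw [k13_mem_part, mem_sdiff] at hx
        rw [k13_mem_part]
        exact ⟨hx.1.1, hx.2⟩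
      · intro y hy1 hy2
        exact h ⟨y, hy1, hy2⟩
    choose y hy1 hy2 using hy
    have hyl : ∀ j, lam (y j) = some (false, (f j, j)) := fun j => (k13_mem_part.1 (hy1 j)).2
    have hyW : ∀ j, y j ∈ W := fun j => (mem_sdiff.1 (k13_mem_part.1 (hy1 j)).1).1
    have hyX : ∀ j, y j ∉ X := fun j => (mem_sdiff.1 (k13_mem_part.1 (hy1 j)).1).2
    have hinj : Function.Injective y := by
      intro i j hij
      have h1 := hyl i
      rw [hij, hyl j] at h1
      simp only [Option.some.injEq, Prod.mk.injEq, true_and] at h1
      exact h1.2.symm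
    have hdis : Disjoint X (univ.image y) := by
      rw [Finset.disjoint_right]
      intro x hx
      rw [mem_image] at hx
      obtain ⟨j, -, rfl⟩ := hx
      exact hyX j
    have hdiff : (X ∪ univ.image y) \ X = univ.image y := by
      rw [union_sdiff_left, Finset.sdiff_eq_self_iff_disjoint]
      exact hdis.symm
    refine hXP (X ∪ univ.image y) ?_ ⟨subset_union_left, ?_⟩
    · rw [k13_mem_Pf]
      refine ⟨?_, ?_, ?_, Or.inl ?_⟩
      · intro x hx
        rcases mem_union.1 hx with h | h
        · exact hXW h
        · rw [mem_image] at h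
          obtain ⟨j, -, rfl⟩ := h
          exact hyW j
      · have h1 : gs c lam (X ∪ univ.image y) = gs c lam X + gs c lam (univ.image y) := by
          unfold gs
          exact sum_union hdis
        have h2 : gs c lam (univ.image y) = a - gs c lam X := by
          rw [← hf]
          unfold gs
          rw [sum_image (fun i _ j _ h => hinj h)]
          apply sum_congr rfl
          intro j _
          rw [hyl j]
          rfl
        rw [h1, h2]
        ring
      · rw [k13_tc_eq]
        · exact htc
        · intro x hx s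
          rw [mem_image] at hx
          obtain ⟨j, -, rfl⟩ := hx
          rw [hyl j]
          simp
      · have h1 : ∀ j : Fin c, part lam (some (false, (f j, j))) (W \ (X ∪ univ.image y)) ∈
            D (false, (f j, j)) := by
          intro j
          have h2 : part lam (some (false, (f j, j))) (W \ (X ∪ univ.image y)) =
              (part lam (some (false, (f j, j))) (W \ X)).erase (y j) := by
            ext x
            rw [mem_erase, k13_mem_part, k13_mem_part, mem_sdiff, mem_sdiff, mem_union]
            constructor
            · rintro ⟨⟨h3, h4⟩, h5⟩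
              refine ⟨?_, ⟨h3, fun h => h4 (Or.inl h)⟩, h5⟩
              intro h
              apply h4
              right
              rw [h]
              exact mem_image_of_mem y (mem_univ j)
            · rintro ⟨h3, ⟨h4, h5⟩, h6⟩
              refine ⟨⟨h4, ?_⟩, h6⟩
              rintro (h | h)
              · exact h5 h
              · rw [mem_image] at h
                obtain ⟨i, -, hi⟩ := h
                rw [← hi, hyl i] at h6
                simp only [Option.some.injEq, Prod.mk.injEq, true_and] at h6
                apply h3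
                rw [← hi, h6.2]
          rw [h2]
          exact hy2 j
        unfold ec
        have h3 : Function.Injective (fun j : Fin c => ((f j, j) : Idx c)) := by
          intro i j hij
          simp only [Prod.mk.injEq] at hij
          exact hij.2
        calc c = (univ : Finset (Fin c)).card := by rw [card_univ, Fintype.card_fin]
          _ ≤ _ := by
            refine card_le_card_of_injOn (fun j : Fin c => ((f j, j) : Idx c)) ?_
              (fun i _ j _ h => h3 h)
            intro j _
            rw [mem_coe, mem_filter]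
            exact ⟨mem_univ _, h1 j⟩
    · rw [hdiff, card_image_of_injective _ hinj, card_univ, Fintype.card_fin]

end Pool.Agent.H31.Kn
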