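import Pool.Agent.H31.Kn.K10Parts
import Pool.Agent.H31.Kn.K12Up

/-!
Module H31 KN 14. The count for `upU` of the step; `p` is a condition on the size, `be` the
corresponding bound for cylinders. (The imported modules 10 and 12 may still contain `sorry`; use
their statements.)

Proof. By `upU_step` the family on the left is contained in the union of three families (filtered
by `p`).
(1) `∃ s, part lam (some (true, s)) Y ∈ unc ..`: for `Y ⊆ W` we have
`part lam (some (true, s)) Y = Y ∩ part lam (some (true, s)) W`; use `card_one_part` with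
`ι = Idx c` (it has `(c+1) * c` elements), `T s = part lam (some (true, s)) W`,
`A s = unc (T s) (D (true, s))`, `d = u`.
(2) `c ≤ ec c lam W D Y`: for `Y ⊆ W` and `E s = part lam (some (false, s)) W` we have
`part lam (some (false, s)) (W \ Y) = E s \ (Y ∩ E s)`, so it lies in `D (false, s)` only if
`Y ∩ E s ∈ A s := (D (false, s)).image (fun S => E s \ S)` (since `Y ∩ E s = E s \ (E s \ (Y ∩ E s))`),
and `|A s| ≤ |D (false, s)| ≤ d`; use `card_many_parts`.
(3) is the last term.
-/

namespace Pool.Agent.H31.Kn

open Finset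

theorem k14_part_inter {α : Type} [DecidableEq α] {c : ℕ} (lam : α → Lab c) (l : Lab c)
    (W Y : Finset α) (h : Y ⊆ W) : part lam l Y = Y ∩ part lam l W := by
  unfold part
  ext x
  simp only [mem_filter, mem_inter]
  constructor
  · rintro ⟨h1, h2⟩
    exact ⟨h1, h h1, h2⟩
  · rintro ⟨h1, _, h2⟩
    exact ⟨h1, h2⟩

theorem k14_part_sdiff {α : Type} [DecidableEq α] {c : ℕ} (lam : α → Lab c) (l : Lab c)
    (W Y : Finset α) (_h : Y ⊆ W) :
    part lam l W \ part lam l (W \ Y) = Y ∩ part lam l W := by
  unfold part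
  ext x
  simp only [mem_filter, mem_inter, mem_sdiff]
  constructor
  · rintro ⟨⟨h1, h2⟩, h3⟩
    refine ⟨?_, h1, h2⟩
    by_contra hc
    exact h3 ⟨⟨h1, hc⟩, h2⟩
  · rintro ⟨h1, h2, h3⟩
    exact ⟨⟨h2, h3⟩, fun hc => hc.1.2 h1⟩

theorem card_upU_step {α : Type} [DecidableEq α] (c : ℕ) (lam : α → Lab c) (W : Finset α)
    (D : Bool × Idx c → Finset (Finset α)) (a : ZMod (NN c)) (Jlo : Finset (Finset α))
    (p : ℕ → Prop) [DecidablePred p] (be : ℕ → ℝ) (hb0 : ∀ n, 0 ≤ be n)
    (hbe : ∀ (T : Finset α) (A : Finset (Finset α)), T ⊆ W →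
      ((W.powerset.filter (fun Z => p Z.card ∧ Z ∩ T ∈ A)).card : ℝ) ≤
        A.card * be (W.card - T.card))
    (m : ℕ) (hm : ∀ l : Bool × Idx c, (part lam (some l) W).card = m)
    (d u : ℝ) (hd0 : 0 ≤ d) (hd : ∀ l, ((D l).card : ℝ) ≤ d)
    (hu : ∀ l, ((unc (part lam (some l) W) (D l)).card : ℝ) ≤ u) :
    (((upU c W (Qf c lam W D a Jlo)).filter (fun Y => p Y.card)).card : ℝ) ≤
      ((c + 1) * c) * u * be (W.card - m) + 2 ^ ((c + 1) * c) * d ^ c * be (W.card - c * m) +
        ((W.powerset.filter (fun Y => p Y.card ∧ gs c lam Y = a ∧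
          part lam none Y ∈ upU c (part lam none W) Jlo)).card : ℝ) := by
  have hTW : ∀ l : Lab c, part lam l W ⊆ W := fun l => Finset.filter_subset _ _
  have hcardI : (Fintype.card (Idx c) : ℝ) = (c + 1) * c := by
    simp [Idx, Fintype.card_prod, Fintype.card_fin]
  have hcardN : Fintype.card (Idx c) = (c + 1) * c := by
    simp [Idx, Fintype.card_prod, Fintype.card_fin]
  have h1 := card_one_part (ι := Idx c) W p be hb0 hbe
    (fun s => part lam (some (true, s)) W) m (fun s => hTW _) (fun s => hm _)
    (fun s => unc (part lam (some (true, s)) W) (D (true, s))) u (fun s => hu _)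
  have h2 := card_many_parts (ι := Idx c) W p be hb0 hbe
    (fun s => part lam (some (false, s)) W) m c (fun s => hTW _) (fun s => hm _)
    (by
      intro s t hst
      rw [Finset.disjoint_left]
      intro x hx hy
      unfold part at hx hy
      rw [mem_filter] at hx hy
      have := hx.2.symm.trans hy.2
      simp only [Option.some.injEq, Prod.mk.injEq, true_and] at this
      exact hst (by
        ext <;> simp [this]))
    (fun s => (D (false, s)).image (fun S => part lam (some (false, s)) W \ S)) d hd0
    (fun s => by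
      refine le_trans ?_ (hd (false, s))
      exact_mod_cast Finset.card_image_le)
  rw [hcardI] at h1
  rw [hcardN] at h2
  have hsub : (upU c W (Qf c lam W D a Jlo)).filter (fun Y => p Y.card) ⊆
      (W.powerset.filter (fun Z => p Z.card ∧ ∃ s : Idx c, Z ∩ part lam (some (true, s)) W ∈
          unc (part lam (some (true, s)) W) (D (true, s)))) ∪
      (W.powerset.filter (fun Z => p Z.card ∧
        c ≤ (univ.filter (fun s : Idx c => Z ∩ part lam (some (false, s)) W ∈
          (D (false, s)).image (fun S => part lam (some (false, s)) W \ S))).card)) ∪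
      (W.powerset.filter (fun Y => p Y.card ∧ gs c lam Y = a ∧
          part lam none Y ∈ upU c (part lam none W) Jlo)) := by
    intro Y hY
    rw [mem_filter] at hY
    obtain ⟨hY1, hpY⟩ := hY
    have hmem := upU_step c lam W D a Jlo hY1
    rw [mem_union, mem_union, mem_filter, mem_filter, mem_filter] at hmem
    rw [mem_union, mem_union, mem_filter, mem_filter, mem_filter]
    rcases hmem with (⟨hYW, s, hs⟩ | ⟨hYW, hec⟩) | ⟨hYW, hg, hpn⟩
    · left; left
      refine ⟨hYW, hpY, s, ?_⟩
      rwa [k14_part_inter lam _ W Y (mem_powerset.mp hYW)] at hs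
    · left; right
      refine ⟨hYW, hpY, hec.trans ?_⟩
      unfold ec
      apply Finset.card_le_card
      intro s hs
      rw [mem_filter] at hs ⊢
      refine ⟨mem_univ _, ?_⟩
      rw [mem_image]
      exact ⟨_, hs.2, k14_part_sdiff lam _ W Y (mem_powerset.mp hYW)⟩
    · right
      exact ⟨hYW, hpY, hg, hpn⟩
  have hcard := (Finset.card_le_card hsub).trans
    ((Finset.card_union_le _ _).trans (Nat.add_le_add_right (Finset.card_union_le _ _) _))
  have hcardR : (((upU c W (Qf c lam W D a Jlo)).filter (fun Y => p Y.card)).card : ℝ) ≤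
      ((W.powerset.filter (fun Z => p Z.card ∧ ∃ s : Idx c, Z ∩ part lam (some (true, s)) W ∈
          unc (part lam (some (true, s)) W) (D (true, s)))).card : ℝ) +
      ((W.powerset.filter (fun Z => p Z.card ∧
        c ≤ (univ.filter (fun s : Idx c => Z ∩ part lam (some (false, s)) W ∈
          (D (false, s)).image (fun S => part lam (some (false, s)) W \ S))).card)).card : ℝ) +
      ((W.powerset.filter (fun Y => p Y.card ∧ gs c lam Y = a ∧
          part lam none Y ∈ upU c (part lam none W) Jlo)).card : ℝ) := by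
    exact_mod_cast hcard
  calc (((upU c W (Qf c lam W D a Jlo)).filter (fun Y => p Y.card)).card : ℝ) ≤ _ := hcardR
    _ ≤ _ := add_le_add (add_le_add h1 h2) le_rfl

end Pool.Agent.H31.Kn
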