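import Pool.Agent.H31.Kn.K10Parts
import Pool.Agent.H31.Kn.K13Lo

/-!
Module H31 KN 15. The count for `loL` of the step.
-/

namespace Pool.Agent.H31.Kn

open Finset

theorem K15_part {α : Type} [DecidableEq α] {c : ℕ} (lam : α → Lab c) (l : Lab c)
    (W Y : Finset α) (h : Y ⊆ W) : part lam l Y = Y ∩ part lam l W := by
  ext x
  simp only [part, mem_filter, mem_inter]
  constructor
  · rintro ⟨h1, h2⟩
    exact ⟨h1, h h1, h2⟩
  · rintro ⟨h1, _, h2⟩
    exact ⟨h1, h2⟩

theorem K15_part_sdiff {α : Type} [DecidableEq α] {c : ℕ} (lam : α → Lab c) (l : Lab c)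
    (W Y : Finset α) : Y ∩ part lam l W = part lam l W \ part lam l (W \ Y) := by
  ext x
  simp only [part, mem_filter, mem_inter, mem_sdiff]
  tauto

theorem K15_mem_image {α : Type} [DecidableEq α] {c : ℕ} (lam : α → Lab c) (l : Lab c)
    (W Y : Finset α) (D : Finset (Finset α)) (h : part lam l (W \ Y) ∈ D) :
    Y ∩ part lam l W ∈ D.image (fun S => part lam l W \ S) := by
  rw [K15_part_sdiff]
  exact mem_image_of_mem _ h

theorem card_loL_step {α : Type} [DecidableEq α] (c : ℕ) (lam : α → Lab c) (W : Finset α)
    (D : Bool × Idx c → Finset (Finset α)) (a : ZMod (NN c)) (Jup : Finset (Finset α))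
    (hJ : ∀ Y ∈ Jup, Y ⊆ part lam none W)
    (p : ℕ → Prop) [DecidablePred p] (be : ℕ → ℝ) (hb0 : ∀ n, 0 ≤ be n)
    (hbe : ∀ (T : Finset α) (A : Finset (Finset α)), T ⊆ W →
      ((W.powerset.filter (fun Z => p Z.card ∧ Z ∩ T ∈ A)).card : ℝ) ≤
        A.card * be (W.card - T.card))
    (m : ℕ) (hm : ∀ l : Bool × Idx c, (part lam (some l) W).card = m)
    (d u : ℝ) (hd0 : 0 ≤ d) (hd : ∀ l, ((D l).card : ℝ) ≤ d)
    (hu : ∀ l, ((unc (part lam (some l) W) (D l)).card : ℝ) ≤ u) :
    (((loL c W (Pf c lam W D a Jup)).filter (fun X => p X.card)).card : ℝ) ≤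
      ((c + 1) * c) * u * be (W.card - m) + 2 ^ ((c + 1) * c) * d ^ c * be (W.card - c * m) +
        ((W.powerset.filter (fun X => p X.card ∧ gs c lam X = a ∧
          part lam none X ∈ loL c (part lam none W) Jup)).card : ℝ) := by
  have h1 := card_one_part W p be hb0 hbe
    (fun s : Idx c => part lam (some (false, s)) W) m (fun s => filter_subset _ _)
    (fun s => hm _) (fun s => (unc (part lam (some (false, s)) W) (D (false, s))).image
      (fun S => part lam (some (false, s)) W \ S)) u
    (fun s => le_trans (by exact_mod_cast card_image_le) (hu (false, s)))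
  have h2 := card_many_parts W p be hb0 hbe
    (fun s : Idx c => part lam (some (true, s)) W) m c (fun s => filter_subset _ _)
    (fun s => hm _) (by
      intro s t hst
      rw [disjoint_left]
      intro x hx hx'
      simp only [part, mem_filter] at hx hx'
      rw [hx.2] at hx'
      have := hx'.2
      simp at this
      exact hst this)
    (fun s => D (true, s)) d hd0 (fun s => hd (true, s))
  have hcard : Fintype.card (Idx c) = (c + 1) * c := by
    simp [Idx, Fintype.card_prod]
  rw [hcard] at h1 h2
  have hsub : (loL c W (Pf c lam W D a Jup)).filter (fun X => p X.card) ⊆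
      W.powerset.filter (fun Z => p Z.card ∧ ∃ s : Idx c,
        Z ∩ part lam (some (false, s)) W ∈
          (unc (part lam (some (false, s)) W) (D (false, s))).image
            (fun S => part lam (some (false, s)) W \ S)) ∪
      W.powerset.filter (fun Z => p Z.card ∧ c ≤ (univ.filter (fun s : Idx c =>
        Z ∩ part lam (some (true, s)) W ∈ D (true, s))).card) ∪
      W.powerset.filter (fun X => p X.card ∧ gs c lam X = a ∧
          part lam none X ∈ loL c (part lam none W) Jup) := by
    intro Y hY
    rw [mem_filter] at hY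
    obtain ⟨hY1, hY2⟩ := hY
    have hY3 := loL_step c lam W D a Jup hJ hY1
    rw [mem_union, mem_union, mem_filter, mem_filter, mem_filter] at hY3
    rw [mem_union, mem_union, mem_filter, mem_filter, mem_filter]
    rcases hY3 with (⟨hW, s, hs⟩ | ⟨hW, hs⟩) | ⟨hW, hs⟩
    · left; left
      exact ⟨hW, hY2, s, K15_mem_image lam _ W Y _ hs⟩
    · left; right
      refine ⟨hW, hY2, le_trans hs ?_⟩
      unfold tc
      apply card_le_card
      intro s hs'
      rw [mem_filter] at hs' ⊢
      refine ⟨mem_univ _, ?_⟩
      rw [← K15_part lam _ W Y (mem_powerset.1 hW)]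
      exact hs'.2
    · right
      exact ⟨hW, hY2, hs⟩
  have h3 : ((loL c W (Pf c lam W D a Jup)).filter (fun X => p X.card)).card ≤
      (W.powerset.filter (fun Z => p Z.card ∧ ∃ s : Idx c,
        Z ∩ part lam (some (false, s)) W ∈
          (unc (part lam (some (false, s)) W) (D (false, s))).image
            (fun S => part lam (some (false, s)) W \ S))).card +
      (W.powerset.filter (fun Z => p Z.card ∧ c ≤ (univ.filter (fun s : Idx c =>
        Z ∩ part lam (some (true, s)) W ∈ D (true, s))).card)).card +
      (W.powerset.filter (fun X => p X.card ∧ gs c lam X = a ∧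
          part lam none X ∈ loL c (part lam none W) Jup)).card :=
    le_trans (card_le_card hsub) (le_trans (card_union_le _ _)
      (Nat.add_le_add_right (card_union_le _ _) _))
  have h4 : (((loL c W (Pf c lam W D a Jup)).filter (fun X => p X.card)).card : ℝ) ≤
      ((W.powerset.filter (fun Z => p Z.card ∧ ∃ s : Idx c,
        Z ∩ part lam (some (false, s)) W ∈
          (unc (part lam (some (false, s)) W) (D (false, s))).image
            (fun S => part lam (some (false, s)) W \ S))).card : ℝ) +
      ((W.powerset.filter (fun Z => p Z.card ∧ c ≤ (univ.filter (fun s : Idx c =>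
        Z ∩ part lam (some (true, s)) W ∈ D (true, s))).card)).card : ℝ) +
      ((W.powerset.filter (fun X => p X.card ∧ gs c lam X = a ∧
          part lam none X ∈ loL c (part lam none W) Jup)).card : ℝ) := by
    exact_mod_cast h3
  push_cast at h1 h2
  linarith

end Pool.Agent.H31.Kn
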