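import Pool.Agent.H31.Kn.K01Arith

/-!
Module H31 KN 16. At most half of the sets with a given trace on the core have `gs = a`. (Uses `sum_pow_ne_zero` of module 01.)

Proof. Let `x ∈ W` have label `some l`; its weight `2^i`, `i ≤ c`, is not `0` (`sum_pow_ne_zero`
with one term, `1 ≤ c`). The map `Z ↦ symmDiff Z {x}` is an involution of the power set of `W`,
it does not change `part none Z`, and it changes `gs Z` by `± 2^i ≠ 0`; so it maps the family on
the left into `{Z ⊆ W : part none Z ∈ A, gs Z ≠ a}`. So twice the number is at most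
`#{Z ⊆ W : part none Z ∈ A} ≤ |A| * 2^(|W| - |part none W|)`
(`Z ↦ (part none Z, Z \ part none Z)` is injective, with second component a subset of
`W \ part none W`).
-/

namespace Pool.Agent.H31.Kn

open Finset

theorem K16Half_part {α : Type} [DecidableEq α] {c : ℕ} (lam : α → Lab c) (x : α)
    (l : Bool × Idx c) (hl : lam x = some l) (Z : Finset α) :
    part lam none (symmDiff Z {x}) = part lam none Z := by
  unfold part
  ext y
  rw [mem_filter, mem_filter, mem_symmDiff, mem_singleton]
  constructor
  · rintro ⟨⟨h, _⟩ | ⟨h, _⟩, h2⟩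
    · exact ⟨h, h2⟩
    · rw [h, hl] at h2
      exact absurd h2 (by simp)
  · rintro ⟨h, h2⟩
    refine ⟨Or.inl ⟨h, ?_⟩, h2⟩
    intro h3
    rw [h3, hl] at h2
    exact absurd h2 (by simp)

theorem K16Half_gs {α : Type} [DecidableEq α] {c : ℕ} (lam : α → Lab c) (x : α)
    (hw : wt c (lam x) ≠ 0) (Z : Finset α) :
    gs c lam (symmDiff Z {x}) ≠ gs c lam Z := by
  unfold gs
  by_cases hx : x ∈ Z
  · have e : symmDiff Z {x} = Z.erase x := by
      ext y
      simp only [mem_symmDiff, mem_singleton, mem_erase]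
      constructor
      · rintro (⟨h, h'⟩ | ⟨h, h'⟩)
        · exact ⟨h', h⟩
        · exact absurd (h ▸ hx) h'
      · rintro ⟨h, h'⟩
        exact Or.inl ⟨h', h⟩
    rw [e, ← sum_erase_add Z _ hx]
    intro h
    exact hw (left_eq_add.1 h)
  · have e : symmDiff Z {x} = insert x Z := by
      ext y
      simp only [mem_symmDiff, mem_singleton, mem_insert]
      constructor
      · rintro (⟨h, h'⟩ | ⟨h, h'⟩)
        · exact Or.inr h
        · exact Or.inl h
      · rintro (h | h)
        · exact Or.inr ⟨h, h ▸ hx⟩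
        · exact Or.inl ⟨h, fun h' => hx (h' ▸ h)⟩
    rw [e, sum_insert hx]
    intro h
    exact hw (add_eq_right.1 h)

theorem card_half_le {α : Type} [DecidableEq α] (c : ℕ) (hc : 1 ≤ c) (lam : α → Lab c)
    (W : Finset α) (a : ZMod (NN c)) (A : Finset (Finset α)) (x : α) (hx : x ∈ W)
    (l : Bool × Idx c) (hl : lam x = some l) :
    2 * (W.powerset.filter (fun Z => gs c lam Z = a ∧ part lam none Z ∈ A)).card ≤
      A.card * 2 ^ (W.card - (part lam none W).card) := by
  have hw : wt c (lam x) ≠ 0 := by
    have h1 := sum_pow_ne_zero c {x} (fun y => wt c (lam y)) (by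
      intro y hy
      rw [mem_singleton] at hy
      refine ⟨(l.2.1 : ℕ), by omega, ?_⟩
      rw [hy, hl]
      rfl) (singleton_nonempty x) (by simpa using hc)
    rwa [sum_singleton] at h1
  set S := W.powerset.filter (fun Z => part lam none Z ∈ A) with hS
  set S1 := W.powerset.filter (fun Z => gs c lam Z = a ∧ part lam none Z ∈ A) with hS1
  have h1S : S1 ⊆ S := by
    intro Z hZ
    rw [hS1, mem_filter] at hZ
    rw [hS, mem_filter]
    exact ⟨hZ.1, hZ.2.2⟩
  have hle : S1.card ≤ (S \ S1).card := by
    refine card_le_card_of_injOn (fun Z => symmDiff Z {x}) ?_ ?_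
    · intro Z hZ
      rw [mem_coe, hS1, mem_filter, mem_powerset] at hZ
      rw [mem_coe, mem_sdiff, hS, hS1, mem_filter, mem_filter, mem_powerset]
      have hsub : symmDiff Z {x} ⊆ W := by
        intro y hy
        rw [mem_symmDiff, mem_singleton] at hy
        rcases hy with ⟨h3, _⟩ | ⟨h3, _⟩
        · exact hZ.1 h3
        · exact h3 ▸ hx
      refine ⟨⟨hsub, ?_⟩, ?_⟩
      · rw [K16Half_part lam x l hl]
        exact hZ.2.2
      · rintro ⟨_, h2, _⟩
        exact K16Half_gs lam x hw Z (h2.trans hZ.2.1.symm)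
    · intro Z _ Z' _ h
      exact symmDiff_left_injective {x} h
  have hS2 : 2 * S1.card ≤ S.card := by
    rw [card_sdiff_of_subset h1S] at hle
    have := card_le_card h1S
    omega
  refine hS2.trans ?_
  have h3 : (W \ part lam none W).card = W.card - (part lam none W).card :=
    card_sdiff_of_subset (filter_subset _ _)
  rw [← h3, ← card_powerset, ← card_product]
  refine card_le_card_of_injOn (fun Z => (part lam none Z, Z \ part lam none Z)) ?_ ?_
  · intro Z hZ
    rw [mem_coe, hS, mem_filter, mem_powerset] at hZ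
    rw [mem_coe, mem_product, mem_powerset]
    refine ⟨hZ.2, ?_⟩
    intro y hy
    rw [mem_sdiff] at hy ⊢
    refine ⟨hZ.1 hy.1, fun h => hy.2 ?_⟩
    unfold part at h ⊢
    exact mem_filter.2 ⟨hy.1, (mem_filter.1 h).2⟩
  · intro Z _ Z' _ h
    rw [Prod.mk.injEq] at h
    have e : ∀ Y : Finset α, part lam none Y ∪ (Y \ part lam none Y) = Y := fun Y =>
      union_sdiff_of_subset (filter_subset _ _)
    rw [← e Z, ← e Z', h.2, h.1]

end Pool.Agent.H31.Kn
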