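import Pool.Agent.H31.Kn.K03Label
import Pool.Agent.H31.Kn.K08DownCover
import Pool.Agent.H31.Kn.K09Cyl
import Pool.Agent.H31.Kn.K11Indep
import Pool.Agent.H31.Kn.K14CountUp
import Pool.Agent.H31.Kn.K15CountLo
import Pool.Agent.H31.Kn.K16Half

/-!
Module H31 KN 17. Systems with small cost exist on every ground set.
-/

namespace Pool.Agent.H31.Kn

open Finset

theorem K17_key (c m q w w0 : ℕ) (hm : 1 ≤ m) (hw : w ≤ 2 * q * m)
    (hmw : m ≤ w) (hcm : c * m ≤ w) (hw0 : w0 ≤ w) (h34 : 3 * (w : ℝ) ^ c ≤ 4 * (w0 : ℝ) ^ c)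
    (K R X U last : ℝ) (hK : 0 < K) (hU0 : 0 ≤ U)
    (hR : 3 * (((c + 1) * c * K + 2 ^ ((c + 1) * c) * K ^ c) * (2 * q) ^ c) ≤ R)
    (hX : X ≤ ((c + 1) * c) * (K * 2 ^ m / (m : ℝ) ^ c) * 2 ^ (w - m) +
      2 ^ ((c + 1) * c) * (K * 2 ^ m / m) ^ c * 2 ^ (w - c * m) + last)
    (hlast : 2 * last ≤ U * 2 ^ (w - w0)) (hU : U * (w0 : ℝ) ^ c ≤ R * 2 ^ w0) :
    X * (w : ℝ) ^ c ≤ R * 2 ^ w := by
  have hm0 : (0 : ℝ) < m := by exact_mod_cast hm
  have hmc : (0 : ℝ) < (m : ℝ) ^ c := by positivity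
  have hwc : (0 : ℝ) ≤ (w : ℝ) ^ c := by positivity
  have e1 : (2 : ℝ) ^ m * 2 ^ (w - m) = 2 ^ w := by
    rw [← pow_add]; congr 1; omega
  have e2 : ((2 : ℝ) ^ m) ^ c * 2 ^ (w - c * m) = 2 ^ w := by
    rw [← pow_mul, ← pow_add]; congr 1
    rw [mul_comm m c]; omega
  have e3 : (2 : ℝ) ^ w0 * 2 ^ (w - w0) = 2 ^ w := by
    rw [← pow_add]; congr 1; omega
  -- the first two terms
  have t1 : ((c + 1) * c : ℝ) * (K * 2 ^ m / (m : ℝ) ^ c) * 2 ^ (w - m) =
      ((c + 1) * c * K) * 2 ^ w / (m : ℝ) ^ c := by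
    rw [← e1]; ring
  have t2 : (2 : ℝ) ^ ((c + 1) * c) * (K * 2 ^ m / m) ^ c * 2 ^ (w - c * m) =
      (2 ^ ((c + 1) * c) * K ^ c) * 2 ^ w / (m : ℝ) ^ c := by
    rw [← e2, div_pow, mul_pow]; ring
  have hwm : (w : ℝ) ^ c ≤ (2 * q) ^ c * (m : ℝ) ^ c := by
    rw [← mul_pow]
    apply pow_le_pow_left₀ (by positivity)
    exact_mod_cast hw
  set A' : ℝ := (c + 1) * c * K + 2 ^ ((c + 1) * c) * K ^ c with hA'
  have hA'0 : 0 ≤ A' := by positivity
  have s1 : (A' * 2 ^ w / (m : ℝ) ^ c) * (w : ℝ) ^ c ≤ A' * (2 * q) ^ c * 2 ^ w := by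
    calc (A' * 2 ^ w / (m : ℝ) ^ c) * (w : ℝ) ^ c
        ≤ (A' * 2 ^ w / (m : ℝ) ^ c) * ((2 * q) ^ c * (m : ℝ) ^ c) := by
          apply mul_le_mul_of_nonneg_left hwm; positivity
      _ = A' * (2 * q) ^ c * 2 ^ w := by field_simp
  have s2 : last * (w : ℝ) ^ c ≤ 2 / 3 * R * 2 ^ w := by
    have h1 : 2 * last * (w : ℝ) ^ c ≤ U * 2 ^ (w - w0) * (w : ℝ) ^ c :=
      mul_le_mul_of_nonneg_right hlast hwc
    have h2 : U * 2 ^ (w - w0) * (w : ℝ) ^ c ≤ U * 2 ^ (w - w0) * (4 / 3 * (w0 : ℝ) ^ c) := by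
      apply mul_le_mul_of_nonneg_left _ (by positivity)
      linarith
    have h3 : U * 2 ^ (w - w0) * (4 / 3 * (w0 : ℝ) ^ c) ≤ 4 / 3 * R * 2 ^ w := by
      have h4 : (U * (w0 : ℝ) ^ c) * (4 / 3 * 2 ^ (w - w0)) ≤
          (R * 2 ^ w0) * (4 / 3 * 2 ^ (w - w0)) :=
        mul_le_mul_of_nonneg_right hU (by positivity)
      calc U * 2 ^ (w - w0) * (4 / 3 * (w0 : ℝ) ^ c)
          = (U * (w0 : ℝ) ^ c) * (4 / 3 * 2 ^ (w - w0)) := by ring
        _ ≤ (R * 2 ^ w0) * (4 / 3 * 2 ^ (w - w0)) := h4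
        _ = 4 / 3 * R * (2 ^ w0 * 2 ^ (w - w0)) := by ring
        _ = 4 / 3 * R * 2 ^ w := by rw [e3]
    linarith
  have s3 : X ≤ A' * 2 ^ w / (m : ℝ) ^ c + last := by
    rw [t1, t2] at hX
    have : A' * 2 ^ w / (m : ℝ) ^ c = ((c + 1) * c * K) * 2 ^ w / (m : ℝ) ^ c +
        (2 ^ ((c + 1) * c) * K ^ c) * 2 ^ w / (m : ℝ) ^ c := by rw [hA']; ring
    rw [this]; exact hX
  have s4 : X * (w : ℝ) ^ c ≤ (A' * 2 ^ w / (m : ℝ) ^ c + last) * (w : ℝ) ^ c :=
    mul_le_mul_of_nonneg_right s3 hwc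
  have h2w : (0 : ℝ) < 2 ^ w := by positivity
  have s5 : A' * (2 * q) ^ c * 2 ^ w ≤ 1 / 3 * R * 2 ^ w := by
    apply mul_le_mul_of_nonneg_right _ h2w.le
    linarith
  nlinarith

theorem K17_bern (c w w0 : ℕ) (hc : 1 ≤ c) (h : 4 * c * w ≤ 4 * c * w0 + w) :
    3 * (w : ℝ) ^ c ≤ 4 * (w0 : ℝ) ^ c := by
  rcases Nat.eq_zero_or_pos w with hw | hw
  · subst hw
    have : ((0 : ℕ) : ℝ) ^ c = 0 := by
      rw [Nat.cast_zero]; exact zero_pow (by omega)
    rw [this, mul_zero]
    positivity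
  · have hw' : (0 : ℝ) < w := by exact_mod_cast hw
    have hc' : (0 : ℝ) < c := by exact_mod_cast hc
    have h1 : (1 : ℝ) - 1 / (4 * c) ≤ (w0 : ℝ) / w := by
      rw [le_div_iff₀ hw']
      have h2 : (4 : ℝ) * c * w ≤ 4 * c * w0 + w := by exact_mod_cast h
      have h3 : (1 - 1 / (4 * c)) * (w : ℝ) = (4 * c * w - w) / (4 * c) := by
        field_simp
      rw [h3, div_le_iff₀ (by positivity)]
      linarith
    have h4 : (1 : ℝ) + c * (-(1 / (4 * c))) ≤ (1 + -(1 / (4 * c))) ^ c := by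
      apply one_add_mul_le_pow
      have : (1 : ℝ) / (4 * c) ≤ 1 := by
        rw [div_le_one (by positivity)]
        have : (1 : ℝ) ≤ c := by exact_mod_cast hc
        linarith
      linarith
    have h5 : (1 : ℝ) + c * (-(1 / (4 * c))) = 3 / 4 := by
      field_simp; norm_num
    have h6 : (0 : ℝ) ≤ 1 + -(1 / (4 * c)) := by
      have : (1 : ℝ) / (4 * c) ≤ 1 := by
        rw [div_le_one (by positivity)]
        have : (1 : ℝ) ≤ c := by exact_mod_cast hc
        linarith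
      linarith
    have h7 : (1 + -(1 / (4 * (c : ℝ)))) ^ c ≤ ((w0 : ℝ) / w) ^ c :=
      pow_le_pow_left₀ h6 (by linarith) c
    have h8 : (3 : ℝ) / 4 ≤ (w0 : ℝ) ^ c / (w : ℝ) ^ c := by
      rw [← div_pow]; linarith
    rw [le_div_iff₀ (by positivity)] at h8
    linarith

theorem K17_card_lab (c : ℕ) : Fintype.card (Lab c) - 1 = 2 * ((c + 1) * c) := by
  simp [Lab, Idx, Fintype.card_option, Fintype.card_prod]

theorem K17_core_card {α : Type} [DecidableEq α] (c m : ℕ) (lam : α → Lab c) (W : Finset α)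
    (h : ∀ l : Bool × Idx c, (part lam (some l) W).card = m) :
    (part lam none W).card + 2 * ((c + 1) * c) * m = W.card := by
  have h1 : W.card = ∑ l : Lab c, (W.filter (fun x => lam x = l)).card :=
    card_eq_sum_card_fiberwise (fun x _ => mem_coe.2 (mem_univ (lam x)))
  rw [h1, Fintype.sum_option]
  have h2 : ∑ i : Bool × Idx c, (W.filter (fun x => lam x = some i)).card =
      ∑ i : Bool × Idx c, m := by
    apply sum_congr rfl
    intro i _
    exact h i
  rw [h2, sum_const, card_univ, smul_eq_mul]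
  simp only [part, Idx, Fintype.card_prod, Fintype.card_bool, Fintype.card_fin]

theorem exists_system (c : ℕ) (hc : 1 ≤ c) :
    ∃ R : ℝ, 0 < R ∧ ∀ (α : Type) [DecidableEq α] (W : Finset α),
      ∃ Q P : Finset (Finset α), Q ⊆ W.powerset ∧ P ⊆ W.powerset ∧ Indep c Q P ∧
        ((upU c W Q).card : ℝ) * (W.card : ℝ) ^ c ≤ R * 2 ^ W.card ∧
        ((loL c W P).card : ℝ) * (W.card : ℝ) ^ c ≤ R * 2 ^ W.card := by
  obtain ⟨K, hK, hKD⟩ := exists_downcover c
  set q : ℕ := 8 * c ^ 2 * (c + 1) with hq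
  have hq1 : 1 ≤ q := by
    rw [hq]
    have : 1 ≤ c ^ 2 := Nat.one_le_pow _ _ hc
    nlinarith
  set R : ℝ := 3 * (((c + 1) * c * K + 2 ^ ((c + 1) * c) * K ^ c) * (2 * q) ^ c) + (q : ℝ) ^ c
    with hRdef
  have hR1 : 3 * (((c + 1) * c * K + 2 ^ ((c + 1) * c) * K ^ c) * (2 * q) ^ c) ≤ R := by
    rw [hRdef]
    have : (0 : ℝ) ≤ (q : ℝ) ^ c := by positivity
    linarith
  have hR2 : (q : ℝ) ^ c ≤ R := by
    rw [hRdef]
    have : (0 : ℝ) ≤ 3 * (((c + 1) * c * K + 2 ^ ((c + 1) * c) * K ^ c) * (2 * q) ^ c) := by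
      positivity
    linarith
  have hq' : (0 : ℝ) < q := by exact_mod_cast hq1
  have hR0 : 0 < R := lt_of_lt_of_le (by positivity) hR2
  refine ⟨R, hR0, ?_⟩
  intro α _ W
  induction hn : W.card using Nat.strong_induction_on generalizing W with
  | _ w ih =>
  rcases lt_or_ge w q with hlt | hge
  · refine ⟨∅, ∅, empty_subset _, empty_subset _, ?_, ?_, ?_⟩
    · intro X hX
      simp at hX
    · have h1 : ((upU c W ∅).card : ℝ) ≤ 2 ^ w := by
        have := card_le_card (filter_subset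
          (fun Y => ∀ X ∈ (∅ : Finset (Finset α)), ¬ (X ⊆ Y ∧ (Y \ X).card = c)) W.powerset)
        rw [card_powerset, hn] at this
        exact_mod_cast this
      have h2 : (w : ℝ) ^ c ≤ R := by
        refine le_trans ?_ hR2
        apply pow_le_pow_left₀ (by positivity)
        exact_mod_cast hlt.le
      calc ((upU c W ∅).card : ℝ) * (w : ℝ) ^ c ≤ 2 ^ w * R := by
            apply mul_le_mul h1 h2 (by positivity) (by positivity)
        _ = R * 2 ^ w := by ring
    · have h1 : ((loL c W ∅).card : ℝ) ≤ 2 ^ w := by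
        have := card_le_card (filter_subset
          (fun X => ∀ Y ∈ (∅ : Finset (Finset α)), ¬ (X ⊆ Y ∧ (Y \ X).card = c)) W.powerset)
        rw [card_powerset, hn] at this
        exact_mod_cast this
      have h2 : (w : ℝ) ^ c ≤ R := by
        refine le_trans ?_ hR2
        apply pow_le_pow_left₀ (by positivity)
        exact_mod_cast hlt.le
      calc ((loL c W ∅).card : ℝ) * (w : ℝ) ^ c ≤ 2 ^ w * R := by
            apply mul_le_mul h1 h2 (by positivity) (by positivity)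
        _ = R * 2 ^ w := by ring
  · set m : ℕ := w / q with hm
    have hm1 : 1 ≤ m := Nat.div_pos hge hq1
    have hqm : q * m ≤ w := Nat.mul_div_le w q
    have hw2 : w ≤ 2 * q * m := by
      have h1 : w < q * (m + 1) := by
        rw [hm]; exact Nat.lt_mul_div_succ w hq1
      nlinarith
    have hlab : (Fintype.card (Lab c) - 1) * m ≤ W.card := by
      rw [K17_card_lab, hn]
      refine le_trans ?_ hqm
      apply Nat.mul_le_mul_right
      rw [hq]
      have : 1 ≤ c := hc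
      nlinarith [Nat.zero_le (c * c), Nat.zero_le (c * c * c)]
    obtain ⟨lam, hlam⟩ := exists_label (ι := Lab c) none W m hlab
    have hpart : ∀ l : Bool × Idx c, (part lam (some l) W).card = m := by
      intro l
      exact hlam (some l) (by simp)
    have hcore := K17_core_card c m lam W hpart
    set W0 : Finset α := part lam none W with hW0
    have hW0W : W0 ⊆ W := filter_subset _ _
    rw [hn] at hcore
    set w0 : ℕ := W0.card with hw0
    have hcc : 1 ≤ (c + 1) * c := by nlinarith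
    have hlt : w0 < w := by
      have : 1 ≤ 2 * ((c + 1) * c) * m := by nlinarith
      omega
    have hbern : 3 * (w : ℝ) ^ c ≤ 4 * (w0 : ℝ) ^ c := by
      apply K17_bern c w w0 hc
      have h1 : 4 * c * (2 * ((c + 1) * c) * m) = q * m := by rw [hq]; ring
      calc 4 * c * w = 4 * c * (w0 + 2 * ((c + 1) * c) * m) := by rw [hcore]
        _ = 4 * c * w0 + q * m := by rw [mul_add, h1]
        _ ≤ 4 * c * w0 + w := by omega
    have hmw : m ≤ w := by nlinarith
    have hcm : c * m ≤ w := by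
      refine le_trans ?_ hqm
      apply Nat.mul_le_mul_right
      rw [hq]; nlinarith [Nat.zero_le (c * c), Nat.zero_le (c * c * c)]
    -- down-covers
    have hDex : ∀ l : Bool × Idx c, ∃ D ⊆ (part lam (some l) W).powerset,
        (D.card : ℝ) * (part lam (some l) W).card ≤ K * 2 ^ (part lam (some l) W).card ∧
        ((unc (part lam (some l) W) D).card : ℝ) * ((part lam (some l) W).card : ℝ) ^ c ≤
          K * 2 ^ (part lam (some l) W).card := by
      intro l
      apply hKD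
      rw [← card_pos, hpart l]
      exact hm1
    choose D hDsub hD1 hD2 using hDex
    have hm0 : (0 : ℝ) < m := by exact_mod_cast hm1
    have hd : ∀ l, ((D l).card : ℝ) ≤ K * 2 ^ m / m := by
      intro l
      rw [le_div_iff₀ hm0]
      have := hD1 l
      rw [hpart l] at this
      exact this
    have hu : ∀ l, ((unc (part lam (some l) W) (D l)).card : ℝ) ≤ K * 2 ^ m / (m : ℝ) ^ c := by
      intro l
      rw [le_div_iff₀ (by positivity)]
      have := hD2 l
      rw [hpart l] at this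
      exact this
    obtain ⟨Jlo, Jup, hJlo, hJup, hJ, hU, hL⟩ := ih w0 hlt W0 rfl
    -- an element with a label
    obtain ⟨x, hx⟩ : (part lam (some (true, ((0 : Fin (c + 1)), (⟨0, hc⟩ : Fin c)))) W).Nonempty := by
      rw [← card_pos, hpart]; exact hm1
    rw [part, mem_filter] at hx
    have hbe : ∀ (T : Finset α) (A : Finset (Finset α)), T ⊆ W →
        ((W.powerset.filter (fun Z => (fun _ : ℕ => True) Z.card ∧ Z ∩ T ∈ A)).card : ℝ) ≤
          A.card * (fun n : ℕ => (2 : ℝ) ^ n) (W.card - T.card) := by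
      intro T A hT
      have := card_cyl_le W T hT A
      simp only [true_and]
      exact_mod_cast this
    refine ⟨Qf c lam W D 0 Jlo, Pf c lam W D 0 Jup, filter_subset _ _, filter_subset _ _,
      indep_step c lam W D 0 Jlo Jup hJ, ?_, ?_⟩
    · have h1 := card_upU_step c lam W D 0 Jlo (fun _ => True) (fun n => (2 : ℝ) ^ n)
        (fun n => by positivity) hbe m hpart (K * 2 ^ m / m) (K * 2 ^ m / (m : ℝ) ^ c)
        (by positivity) hd hu
      have h2 := card_half_le c hc lam W 0 (upU c W0 Jlo) x hx.1 _ hx.2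
      simp only [true_and, filter_true] at h1
      rw [hn] at h1 h2
      apply K17_key c m q w w0 hm1 hw2 hmw hcm hlt.le hbern K R _ ((upU c W0 Jlo).card : ℝ)
        ((W.powerset.filter (fun Y => gs c lam Y = 0 ∧
          part lam none Y ∈ upU c (part lam none W) Jlo)).card : ℝ) hK (by positivity) hR1 h1
        _ hU
      exact_mod_cast h2
    · have h1 := card_loL_step c lam W D 0 Jup (fun Y hY => mem_powerset.1 (hJup hY))
        (fun _ => True) (fun n => (2 : ℝ) ^ n)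
        (fun n => by positivity) hbe m hpart (K * 2 ^ m / m) (K * 2 ^ m / (m : ℝ) ^ c)
        (by positivity) hd hu
      have h2 := card_half_le c hc lam W 0 (loL c W0 Jup) x hx.1 _ hx.2
      simp only [true_and, filter_true] at h1
      rw [hn] at h1 h2
      apply K17_key c m q w w0 hm1 hw2 hmw hcm hlt.le hbern K R _ ((loL c W0 Jup).card : ℝ)
        ((W.powerset.filter (fun Y => gs c lam Y = 0 ∧
          part lam none Y ∈ loL c (part lam none W) Jup)).card : ℝ) hK (by positivity) hR1 h1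
        _ hL
      exact_mod_cast h2

end Pool.Agent.H31.Kn
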