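import Pool.Agent.H31.Kn.Defs

/-!
Module H31 KN 18. Comparison of middle binomial coefficients.

Proof. Two classical bounds, each by induction on `j`:
`(2j+1) * centralBinom(j)^2 ≤ 16^j` and `16^j ≤ 4 j * centralBinom(j)^2` for `j ≥ 1`
(use `Nat.succ_mul_centralBinom_succ : (j+1) * centralBinom (j+1) = 2 (2j+1) centralBinom j` and
`(2j+1)(2j+3) ≤ (2j+2)^2`, `4 j (j+1) ≤ (2j+1)^2`).
From the first, `n * (n.choose (n/2))^2 ≤ 2 * 4^n` for all `n` (even `n = 2j` directly; odd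
`n = 2j+1`: `2 * (2j+1).choose j = centralBinom (j+1)`). Let `w = 2k+c-1`. Then
`((n.choose (n/2)) 2^(w-n))^2 * n ≤ 2 * 4^w`, and `n ≥ w/q ≥ (2k-1)/q ≥ k/q`, so
`((n.choose (n/2)) 2^(w-n))^2 ≤ 2 q 4^w / k ≤ 2 q 4^c 16^k / k ≤ 8 q 4^c centralBinom(k)^2`
`≤ 8 q 4^c ((2k+c).choose k)^2`. So `H = 4 q 2^c` works (`8 q ≤ 16 q^2`).
-/

namespace Pool.Agent.H31.Kn

open Finset

theorem K18Ratio_a (j : ℕ) : (2 * (j : ℝ) + 1) * (j.centralBinom : ℝ) ^ 2 ≤ 16 ^ j := by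
  induction j with
  | zero => simp
  | succ j ih =>
    have h1 : ((j : ℝ) + 1) * ((j + 1).centralBinom : ℝ) = 2 * (2 * j + 1) * (j.centralBinom : ℝ) := by
      exact_mod_cast Nat.succ_mul_centralBinom_succ j
    have hj : (0 : ℝ) ≤ j := Nat.cast_nonneg j
    have h2 : ((j : ℝ) + 1) ^ 2 * ((2 * ((j : ℝ) + 1) + 1) * ((j + 1).centralBinom : ℝ) ^ 2) ≤
        ((j : ℝ) + 1) ^ 2 * 16 ^ (j + 1) := by
      calc ((j : ℝ) + 1) ^ 2 * ((2 * ((j : ℝ) + 1) + 1) * ((j + 1).centralBinom : ℝ) ^ 2)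
          = (2 * (j : ℝ) + 3) * (((j : ℝ) + 1) * ((j + 1).centralBinom : ℝ)) ^ 2 := by ring
        _ = 4 * ((2 * (j : ℝ) + 3) * (2 * j + 1)) * ((2 * (j : ℝ) + 1) * (j.centralBinom : ℝ) ^ 2) := by
            rw [h1]; ring
        _ ≤ 4 * ((2 * (j : ℝ) + 3) * (2 * j + 1)) * 16 ^ j :=
            mul_le_mul_of_nonneg_left ih (by positivity)
        _ ≤ 4 * (2 * (j : ℝ) + 2) ^ 2 * 16 ^ j := by
            apply mul_le_mul_of_nonneg_right _ (by positivity)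
            nlinarith
        _ = ((j : ℝ) + 1) ^ 2 * 16 ^ (j + 1) := by ring
    have h3 := le_of_mul_le_mul_left h2 (by positivity)
    push_cast
    exact h3

theorem K18Ratio_b (j : ℕ) (hj : 1 ≤ j) : (16 : ℝ) ^ j ≤ 4 * j * (j.centralBinom : ℝ) ^ 2 := by
  induction j, hj using Nat.le_induction with
  | base => norm_num [Nat.centralBinom]
  | succ j hj ih =>
    have h1 : ((j : ℝ) + 1) * ((j + 1).centralBinom : ℝ) = 2 * (2 * j + 1) * (j.centralBinom : ℝ) := by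
      exact_mod_cast Nat.succ_mul_centralBinom_succ j
    have hj1 : (1 : ℝ) ≤ j := by exact_mod_cast hj
    have h2 : (j : ℝ) * ((j : ℝ) + 1) * 16 ^ (j + 1) ≤ (j : ℝ) * ((j : ℝ) + 1) *
        (4 * ((j : ℝ) + 1) * ((j + 1).centralBinom : ℝ) ^ 2) := by
      calc (j : ℝ) * ((j : ℝ) + 1) * 16 ^ (j + 1) = 4 * (4 * (j : ℝ) * (j + 1)) * 16 ^ j := by ring
        _ ≤ 4 * (2 * (j : ℝ) + 1) ^ 2 * 16 ^ j := by
            apply mul_le_mul_of_nonneg_right _ (by positivity)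
            nlinarith
        _ ≤ 4 * (2 * (j : ℝ) + 1) ^ 2 * (4 * j * (j.centralBinom : ℝ) ^ 2) :=
            mul_le_mul_of_nonneg_left ih (by positivity)
        _ = 4 * (j : ℝ) * (2 * (2 * j + 1) * (j.centralBinom : ℝ)) ^ 2 := by ring
        _ = (j : ℝ) * ((j : ℝ) + 1) * (4 * ((j : ℝ) + 1) * ((j + 1).centralBinom : ℝ) ^ 2) := by
            rw [← h1]; ring
    have h3 := le_of_mul_le_mul_left h2 (by positivity)
    push_cast
    exact h3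

theorem K18Ratio_c (n : ℕ) : (n : ℝ) * ((n.choose (n / 2) : ℕ) : ℝ) ^ 2 ≤ 2 * 4 ^ n := by
  rcases Nat.even_or_odd' n with ⟨j, rfl | rfl⟩
  · have h1 := K18Ratio_a j
    rw [Nat.centralBinom_eq_two_mul_choose] at h1
    rw [Nat.mul_div_cancel_left j (by norm_num : 0 < 2)]
    have h2 : (4 : ℝ) ^ (2 * j) = 16 ^ j := by rw [pow_mul]; norm_num
    rw [h2]
    push_cast
    have h3 : (0 : ℝ) ≤ (((2 * j).choose j : ℕ) : ℝ) ^ 2 := by positivity
    have h4 : (0 : ℝ) ≤ 16 ^ j := by positivity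
    nlinarith
  · have h1 := K18Ratio_a (j + 1)
    have h2 : (2 * j + 1) / 2 = j := by omega
    rw [h2]
    have h3 : (j + 1).centralBinom = 2 * (2 * j + 1).choose j := by
      rw [Nat.centralBinom_eq_two_mul_choose, show 2 * (j + 1) = (2 * j + 1) + 1 by ring,
        Nat.choose_succ_succ, ← Nat.choose_symm_half j]
      ring
    rw [h3] at h1
    push_cast at h1 ⊢
    set a : ℝ := (((2 * j + 1).choose j : ℕ) : ℝ) with ha
    have h4 : (4 : ℝ) ^ (2 * j + 1) = 4 * 16 ^ j := by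
      rw [pow_succ, pow_mul]; norm_num; ring
    rw [h4]
    have h5 : (16 : ℝ) ^ (j + 1) = 16 * 16 ^ j := by ring
    rw [h5] at h1
    have hj : (0 : ℝ) ≤ j := Nat.cast_nonneg j
    have h6 : (0 : ℝ) ≤ 16 ^ j := by positivity
    have h7 : (0 : ℝ) ≤ a ^ 2 := sq_nonneg a
    have h8 : (2 * ((j : ℝ) + 1) + 1) * (2 * a) ^ 2 = 4 * ((2 * (j : ℝ) + 1) * a ^ 2) + 8 * a ^ 2 := by
      ring
    rw [h8] at h1
    nlinarith

theorem ratio_bound (c q : ℕ) (hq : 1 ≤ q) :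
    ∃ H : ℝ, 0 < H ∧ ∀ k n : ℕ, 1 ≤ k → n ≤ 2 * k + c - 1 → 2 * k + c - 1 ≤ q * n →
      ((n.choose (n / 2) : ℕ) : ℝ) * 2 ^ (2 * k + c - 1 - n) ≤
        H * (((2 * k + c).choose k : ℕ) : ℝ) := by
  have hq1 : (1 : ℝ) ≤ q := by exact_mod_cast hq
  refine ⟨4 * q * 2 ^ c, by positivity, fun k n hk hn hw => ?_⟩
  set w := 2 * k + c - 1 with hwd
  have hkw : k ≤ w := by omega
  have hk1 : (1 : ℝ) ≤ k := by exact_mod_cast hk
  have hkqn : (k : ℝ) ≤ q * n := by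
    have : k ≤ q * n := hkw.trans hw
    exact_mod_cast this
  set a : ℝ := ((n.choose (n / 2) : ℕ) : ℝ) with ha
  have h1 : (n : ℝ) * a ^ 2 ≤ 2 * 4 ^ n := K18Ratio_c n
  have h2 : (n : ℝ) * (a * 2 ^ (w - n)) ^ 2 ≤ 2 * 4 ^ w := by
    have h3 : (4 : ℝ) ^ w = 4 ^ n * 4 ^ (w - n) := by
      rw [← pow_add]
      congr 1
      omega
    have h4 : ((2 : ℝ) ^ (w - n)) ^ 2 = 4 ^ (w - n) := by
      rw [← pow_mul, mul_comm, pow_mul]; norm_num
    rw [mul_pow, h4, h3]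
    have h5 : (0 : ℝ) ≤ 4 ^ (w - n) := by positivity
    nlinarith
  have h6 : (k : ℝ) * (a * 2 ^ (w - n)) ^ 2 ≤ q * (2 * 4 ^ w) := by
    calc (k : ℝ) * (a * 2 ^ (w - n)) ^ 2 ≤ (q * n) * (a * 2 ^ (w - n)) ^ 2 :=
          mul_le_mul_of_nonneg_right hkqn (by positivity)
      _ = q * (n * (a * 2 ^ (w - n)) ^ 2) := by ring
      _ ≤ q * (2 * 4 ^ w) := mul_le_mul_of_nonneg_left h2 (by positivity)
  have h7 : (4 : ℝ) ^ w ≤ 4 ^ c * 16 ^ k := by
    have h8 : (4 : ℝ) ^ c * 16 ^ k = 4 ^ (2 * k + c) := by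
      rw [pow_add, pow_mul]; norm_num; ring
    rw [h8]
    exact pow_le_pow_right₀ (by norm_num) (by omega)
  have h9 := K18Ratio_b k hk
  set b : ℝ := (((2 * k + c).choose k : ℕ) : ℝ) with hb
  have hbc : (k.centralBinom : ℝ) ≤ b := by
    rw [Nat.centralBinom_eq_two_mul_choose, hb]
    exact_mod_cast Nat.choose_le_choose k (by omega)
  have hb0 : (0 : ℝ) ≤ (k.centralBinom : ℝ) := by positivity
  have h10 : (k : ℝ) * (a * 2 ^ (w - n)) ^ 2 ≤ k * (4 * q * 2 ^ c * b) ^ 2 := by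
    have h11 : ((2 : ℝ) ^ c) ^ 2 = 4 ^ c := by
      rw [← pow_mul, mul_comm, pow_mul]; norm_num
    have h12 : (k.centralBinom : ℝ) ^ 2 ≤ b ^ 2 := pow_le_pow_left₀ hb0 hbc 2
    calc (k : ℝ) * (a * 2 ^ (w - n)) ^ 2 ≤ q * (2 * 4 ^ w) := h6
      _ ≤ q * (2 * (4 ^ c * 16 ^ k)) := by gcongr
      _ ≤ q * (2 * (4 ^ c * (4 * k * b ^ 2))) := by
          have h13 : (16 : ℝ) ^ k ≤ 4 * k * b ^ 2 :=
            h9.trans (mul_le_mul_of_nonneg_left h12 (by positivity))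
          gcongr
      _ = k * (8 * q * 4 ^ c * b ^ 2) := by ring
      _ ≤ k * (16 * q ^ 2 * 4 ^ c * b ^ 2) := by
          apply mul_le_mul_of_nonneg_left _ (by positivity)
          apply mul_le_mul_of_nonneg_right _ (by positivity)
          apply mul_le_mul_of_nonneg_right _ (by positivity)
          nlinarith
      _ = k * (4 * q * 2 ^ c * b) ^ 2 := by rw [← h11]; ring
  have h14 : (a * 2 ^ (w - n)) ^ 2 ≤ (4 * q * 2 ^ c * b) ^ 2 :=
    le_of_mul_le_mul_left h10 (by linarith)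
  exact le_of_sq_le_sq h14 (by positivity)

end Pool.Agent.H31.Kn
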