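import Pool.Agent.H31.Kn.K17System
import Pool.Agent.H31.Kn.K18Ratio

/-!
Module H31 KN 19. The system for the Kneser graph: counts on one level.
-/

namespace Pool.Agent.H31.Kn

open Finset

theorem K19_key (c m q k w w0 : ℕ) (hm : 1 ≤ m) (hk : 1 ≤ k) (hkw : k ≤ w) (hw : w ≤ 2 * q * m)
    (hcm : c * m ≤ w) (hmw : m ≤ w) (hw02 : w ≤ 2 * w0) (hw0w : w0 ≤ w)
    (hn1 : w ≤ 2 * q * (w - m)) (hn2 : w ≤ 2 * q * (w - c * m)) (hn3 : w ≤ 2 * q * (w - w0))
    (K R H C X U last : ℝ) (hK : 0 < K) (hR : 0 < R) (hH : 0 < H) (hC : 0 ≤ C) (hU0 : 0 ≤ U)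
    (be : ℕ → ℝ) (hb0 : ∀ n, 0 ≤ be n)
    (hbe : ∀ n, n ≤ w → w ≤ 2 * q * n → be n * 2 ^ (w - n) ≤ H * C)
    (hX : X ≤ ((c + 1) * c) * (K * 2 ^ m / (m : ℝ) ^ c) * be (w - m) +
      2 ^ ((c + 1) * c) * (K * 2 ^ m / m) ^ c * be (w - c * m) + last)
    (hlast : last ≤ U * be (w - w0)) (hU : U * (w0 : ℝ) ^ c ≤ R * 2 ^ w0) :
    X * (k : ℝ) ^ c ≤ (((c + 1) * c * K + 2 ^ ((c + 1) * c) * K ^ c) * (2 * q) ^ c + 2 ^ c * R) *
      H * C := by
  have hm0 : (0 : ℝ) < m := by exact_mod_cast hm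
  have hmc : (0 : ℝ) < (m : ℝ) ^ c := by positivity
  have hkc : (0 : ℝ) ≤ (k : ℝ) ^ c := by positivity
  have hw00 : 0 < w0 := by omega
  have hw0' : (0 : ℝ) < w0 := by exact_mod_cast hw00
  have hw0c : (0 : ℝ) < (w0 : ℝ) ^ c := by positivity
  have hHC : 0 ≤ H * C := by positivity
  have b1 : be (w - m) * 2 ^ m ≤ H * C := by
    have := hbe (w - m) (by omega) hn1
    rwa [show w - (w - m) = m by omega] at this
  have b2 : be (w - c * m) * 2 ^ (c * m) ≤ H * C := by
    have := hbe (w - c * m) (by omega) hn2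
    rwa [show w - (w - c * m) = c * m by omega] at this
  have b3 : be (w - w0) * 2 ^ w0 ≤ H * C := by
    have := hbe (w - w0) (by omega) hn3
    rwa [show w - (w - w0) = w0 by omega] at this
  have hk1 : (k : ℝ) ^ c ≤ (2 * q) ^ c * (m : ℝ) ^ c := by
    rw [← mul_pow]
    apply pow_le_pow_left₀ (by positivity)
    exact_mod_cast le_trans hkw hw
  have hk2 : (k : ℝ) ^ c ≤ 2 ^ c * (w0 : ℝ) ^ c := by
    rw [← mul_pow]
    apply pow_le_pow_left₀ (by positivity)
    exact_mod_cast le_trans hkw hw02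
  have t1 : ((c + 1) * c : ℝ) * (K * 2 ^ m / (m : ℝ) ^ c) * be (w - m) ≤
      ((c + 1) * c * K) * (H * C) / (m : ℝ) ^ c := by
    calc ((c + 1) * c : ℝ) * (K * 2 ^ m / (m : ℝ) ^ c) * be (w - m)
        = ((c + 1) * c * K) * (be (w - m) * 2 ^ m) / (m : ℝ) ^ c := by ring
      _ ≤ ((c + 1) * c * K) * (H * C) / (m : ℝ) ^ c := by
        apply div_le_div_of_nonneg_right _ hmc.le
        apply mul_le_mul_of_nonneg_left b1 (by positivity)
  have t2 : (2 : ℝ) ^ ((c + 1) * c) * (K * 2 ^ m / m) ^ c * be (w - c * m) ≤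
      (2 ^ ((c + 1) * c) * K ^ c) * (H * C) / (m : ℝ) ^ c := by
    calc (2 : ℝ) ^ ((c + 1) * c) * (K * 2 ^ m / m) ^ c * be (w - c * m)
        = (2 ^ ((c + 1) * c) * K ^ c) * (be (w - c * m) * 2 ^ (c * m)) / (m : ℝ) ^ c := by
          rw [div_pow, mul_pow, ← pow_mul, mul_comm m c]; ring
      _ ≤ (2 ^ ((c + 1) * c) * K ^ c) * (H * C) / (m : ℝ) ^ c := by
        apply div_le_div_of_nonneg_right _ hmc.le
        apply mul_le_mul_of_nonneg_left b2 (by positivity)
  have t3 : last * (k : ℝ) ^ c ≤ 2 ^ c * R * (H * C) := by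
    have h1 : last * (k : ℝ) ^ c ≤ U * be (w - w0) * (2 ^ c * (w0 : ℝ) ^ c) := by
      calc last * (k : ℝ) ^ c ≤ U * be (w - w0) * (k : ℝ) ^ c :=
            mul_le_mul_of_nonneg_right hlast hkc
        _ ≤ U * be (w - w0) * (2 ^ c * (w0 : ℝ) ^ c) :=
            mul_le_mul_of_nonneg_left hk2 (mul_nonneg hU0 (hb0 _))
    have h2 : U * be (w - w0) * (2 ^ c * (w0 : ℝ) ^ c) ≤ 2 ^ c * R * (be (w - w0) * 2 ^ w0) := by
      calc U * be (w - w0) * (2 ^ c * (w0 : ℝ) ^ c)
          = (U * (w0 : ℝ) ^ c) * (2 ^ c * be (w - w0)) := by ring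
        _ ≤ (R * 2 ^ w0) * (2 ^ c * be (w - w0)) :=
            mul_le_mul_of_nonneg_right hU (mul_nonneg (by positivity) (hb0 _))
        _ = 2 ^ c * R * (be (w - w0) * 2 ^ w0) := by ring
    have h3 : 2 ^ c * R * (be (w - w0) * 2 ^ w0) ≤ 2 ^ c * R * (H * C) :=
      mul_le_mul_of_nonneg_left b3 (by positivity)
    linarith
  set A' : ℝ := (c + 1) * c * K + 2 ^ ((c + 1) * c) * K ^ c with hA'
  have hA'0 : 0 ≤ A' := by positivity
  have s1 : (A' * (H * C) / (m : ℝ) ^ c) * (k : ℝ) ^ c ≤ A' * (2 * q) ^ c * (H * C) := by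
    calc (A' * (H * C) / (m : ℝ) ^ c) * (k : ℝ) ^ c
        ≤ (A' * (H * C) / (m : ℝ) ^ c) * ((2 * q) ^ c * (m : ℝ) ^ c) := by
          apply mul_le_mul_of_nonneg_left hk1; positivity
      _ = A' * (2 * q) ^ c * (H * C) := by field_simp
  have s2 : X ≤ A' * (H * C) / (m : ℝ) ^ c + last := by
    have : A' * (H * C) / (m : ℝ) ^ c = ((c + 1) * c * K) * (H * C) / (m : ℝ) ^ c +
        (2 ^ ((c + 1) * c) * K ^ c) * (H * C) / (m : ℝ) ^ c := by rw [hA']; ring
    rw [this]; linarith
  have s3 : X * (k : ℝ) ^ c ≤ (A' * (H * C) / (m : ℝ) ^ c + last) * (k : ℝ) ^ c :=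
    mul_le_mul_of_nonneg_right s2 hkc
  calc X * (k : ℝ) ^ c ≤ (A' * (H * C) / (m : ℝ) ^ c + last) * (k : ℝ) ^ c := s3
    _ = (A' * (H * C) / (m : ℝ) ^ c) * (k : ℝ) ^ c + last * (k : ℝ) ^ c := by ring
    _ ≤ A' * (2 * q) ^ c * (H * C) + 2 ^ c * R * (H * C) := add_le_add s1 t3
    _ = (A' * (2 * q) ^ c + 2 ^ c * R) * H * C := by ring

theorem K19_part {α : Type} [DecidableEq α] {c : ℕ} (lam : α → Lab c) (l : Lab c)
    (W Y : Finset α) (h : Y ⊆ W) : part lam l Y = Y ∩ part lam l W := by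
  ext x
  simp only [part, mem_filter, mem_inter]
  constructor
  · rintro ⟨h1, h2⟩
    exact ⟨h1, h h1, h2⟩
  · rintro ⟨h1, _, h2⟩
    exact ⟨h1, h2⟩

theorem K19_last {α : Type} [DecidableEq α] (c : ℕ) (lam : α → Lab c) (W : Finset α)
    (a : ZMod (NN c)) (A : Finset (Finset α)) (j : ℕ) :
    ((W.powerset.filter (fun Y => Y.card = j ∧ gs c lam Y = a ∧
      part lam none Y ∈ A)).card : ℝ) ≤
      A.card * (((W.card - (part lam none W).card).choose
        ((W.card - (part lam none W).card) / 2) : ℕ) : ℝ) := by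
  have h1 := card_cyl_level_le W (part lam none W) (filter_subset _ _) A j
  have h2 : W.powerset.filter (fun Y => Y.card = j ∧ gs c lam Y = a ∧
      part lam none Y ∈ A) ⊆
      W.powerset.filter (fun Z => Z.card = j ∧ Z ∩ part lam none W ∈ A) := by
    intro Y hY
    rw [mem_filter] at hY ⊢
    refine ⟨hY.1, hY.2.1, ?_⟩
    rw [← K19_part lam none W Y (mem_powerset.1 hY.1)]
    exact hY.2.2.2
  exact_mod_cast le_trans (card_le_card h2) h1

theorem exists_level_system (c : ℕ) (hc : 1 ≤ c) :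
    ∃ B : ℝ, 0 < B ∧ ∀ (α : Type) [DecidableEq α] (W : Finset α) (k : ℕ), 1 ≤ k →
      W.card = 2 * k + c - 1 →
      ∃ gam : α → ZMod (NN c), (∀ x, gam x = 0 ∨ ∃ i ≤ c, gam x = 2 ^ i) ∧
        ∀ a : ZMod (NN c), ∃ Q P : Finset (Finset α),
          (∀ X ∈ Q, X ⊆ W ∧ (∑ x ∈ X, gam x) = a) ∧
          (∀ Y ∈ P, Y ⊆ W ∧ (∑ x ∈ Y, gam x) = a) ∧ Indep c Q P ∧
          (((upU c W Q).filter (fun Y => Y.card = k + c - 1)).card : ℝ) * (k : ℝ) ^ c ≤
            B * (((2 * k + c).choose k : ℕ) : ℝ) ∧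
          (((loL c W P).filter (fun X => X.card = k - 1)).card : ℝ) * (k : ℝ) ^ c ≤
            B * (((2 * k + c).choose k : ℕ) : ℝ) := by
  obtain ⟨K, hK, hKD⟩ := exists_downcover c
  obtain ⟨R, hR, hRS⟩ := exists_system c hc
  set q : ℕ := 8 * c ^ 2 * (c + 1) with hq
  have hq1 : 1 ≤ q := by
    rw [hq]
    have : 1 ≤ c ^ 2 := Nat.one_le_pow _ _ hc
    nlinarith
  obtain ⟨H, hH, hHr⟩ := ratio_bound c (2 * q) (by omega)
  set B0 : ℝ := (((c + 1) * c * K + 2 ^ ((c + 1) * c) * K ^ c) * (2 * q) ^ c + 2 ^ c * R) * H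
    with hB0
  have hB00 : 0 < B0 := by positivity
  have hq' : (0 : ℝ) < q := by exact_mod_cast hq1
  refine ⟨B0 + (q : ℝ) ^ c, by positivity, ?_⟩
  intro α _ W k hk hW
  have hC0 : (0 : ℝ) ≤ (((2 * k + c).choose k : ℕ) : ℝ) := by positivity
  rcases lt_or_ge W.card q with hlt | hge
  · refine ⟨fun _ => 0, fun _ => Or.inl rfl, fun a => ⟨∅, ∅, ?_, ?_, ?_, ?_, ?_⟩⟩
    · intro X hX; simp at hX
    · intro X hX; simp at hX
    · intro X hX; simp at hX
    · have hkq : (k : ℝ) ^ c ≤ (q : ℝ) ^ c := by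
        apply pow_le_pow_left₀ (by positivity)
        have : k ≤ q := by omega
        exact_mod_cast this
      have h1 : ((upU c W ∅).filter (fun Y => Y.card = k + c - 1)).card ≤
          (2 * k + c).choose k := by
        have h2 : (upU c W ∅).filter (fun Y => Y.card = k + c - 1) ⊆
            W.powersetCard (k + c - 1) := by
          intro Y hY
          rw [mem_filter, upU, mem_filter, mem_powerset] at hY
          rw [mem_powersetCard]
          exact ⟨hY.1.1, hY.2⟩
        have h3 := card_le_card h2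
        rw [card_powersetCard, hW] at h3
        refine le_trans h3 ?_
        rw [Nat.choose_symm_of_eq_add (show 2 * k + c - 1 = (k + c - 1) + k by omega)]
        exact Nat.choose_le_choose k (by omega)
      have h1' : (((upU c W ∅).filter (fun Y => Y.card = k + c - 1)).card : ℝ) ≤
          (((2 * k + c).choose k : ℕ) : ℝ) := by exact_mod_cast h1
      calc (((upU c W ∅).filter (fun Y => Y.card = k + c - 1)).card : ℝ) * (k : ℝ) ^ c
          ≤ (((2 * k + c).choose k : ℕ) : ℝ) * (q : ℝ) ^ c := by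
            apply mul_le_mul h1' hkq (by positivity) hC0
        _ = (q : ℝ) ^ c * (((2 * k + c).choose k : ℕ) : ℝ) := by ring
        _ ≤ (B0 + (q : ℝ) ^ c) * (((2 * k + c).choose k : ℕ) : ℝ) := by
            apply mul_le_mul_of_nonneg_right _ hC0
            linarith
    · have hkq : (k : ℝ) ^ c ≤ (q : ℝ) ^ c := by
        apply pow_le_pow_left₀ (by positivity)
        have : k ≤ q := by omega
        exact_mod_cast this
      have h1 : ((loL c W ∅).filter (fun Y => Y.card = k - 1)).card ≤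
          (2 * k + c).choose k := by
        have h2 : (loL c W ∅).filter (fun Y => Y.card = k - 1) ⊆
            W.powersetCard (k - 1) := by
          intro Y hY
          rw [mem_filter, loL, mem_filter, mem_powerset] at hY
          rw [mem_powersetCard]
          exact ⟨hY.1.1, hY.2⟩
        have h3 := card_le_card h2
        rw [card_powersetCard, hW] at h3
        refine le_trans h3 ?_
        obtain ⟨k', rfl⟩ : ∃ k', k = k' + 1 := ⟨k - 1, by omega⟩
        rw [show 2 * (k' + 1) + c = (2 * (k' + 1) + c - 1) + 1 by omega, Nat.choose_succ_succ]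
        simp
      have h1' : (((loL c W ∅).filter (fun Y => Y.card = k - 1)).card : ℝ) ≤
          (((2 * k + c).choose k : ℕ) : ℝ) := by exact_mod_cast h1
      calc (((loL c W ∅).filter (fun Y => Y.card = k - 1)).card : ℝ) * (k : ℝ) ^ c
          ≤ (((2 * k + c).choose k : ℕ) : ℝ) * (q : ℝ) ^ c := by
            apply mul_le_mul h1' hkq (by positivity) hC0
        _ = (q : ℝ) ^ c * (((2 * k + c).choose k : ℕ) : ℝ) := by ring
        _ ≤ (B0 + (q : ℝ) ^ c) * (((2 * k + c).choose k : ℕ) : ℝ) := by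
            apply mul_le_mul_of_nonneg_right _ hC0
            linarith
  · obtain ⟨w, hn⟩ : ∃ w, W.card = w := ⟨_, rfl⟩
    rw [hn] at hge
    have hwk : w = 2 * k + c - 1 := by rw [← hn, hW]
    set m : ℕ := w / q with hm
    have hm1 : 1 ≤ m := Nat.div_pos hge hq1
    have hqm : q * m ≤ w := Nat.mul_div_le w q
    have hw2 : w ≤ 2 * q * m := by
      have h1 : w < q * (m + 1) := by
        rw [hm]; exact Nat.lt_mul_div_succ w hq1
      nlinarith
    have hq8 : 8 * c ≤ q := by
      rw [hq]; nlinarith [Nat.zero_le (c * c), Nat.zero_le (c * c * c)]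
    have hq8' : 4 * (2 * ((c + 1) * c)) ≤ q := by
      rw [hq]; nlinarith [Nat.zero_le (c * c), Nat.zero_le (c * c * c)]
    have hlab0 : 4 * (2 * ((c + 1) * c)) * m ≤ w :=
      le_trans (Nat.mul_le_mul_right _ hq8') hqm
    have hlab : (Fintype.card (Lab c) - 1) * m ≤ W.card := by
      rw [K17_card_lab, hn]
      nlinarith
    obtain ⟨lam, hlam⟩ := exists_label (ι := Lab c) none W m hlab
    have hpart : ∀ l : Bool × Idx c, (part lam (some l) W).card = m := by
      intro l
      exact hlam (some l) (by simp)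
    have hcore := K17_core_card c m lam W hpart
    obtain ⟨w0, hw0⟩ : ∃ w0, (part lam none W).card = w0 := ⟨_, rfl⟩
    rw [hn, hw0] at hcore
    have hcc : 1 ≤ (c + 1) * c := by nlinarith
    have hcm8 : 8 * c * m ≤ w := le_trans (Nat.mul_le_mul_right _ hq8) hqm
    have hcm : c * m ≤ w := by nlinarith
    have hmcm : m ≤ c * m := Nat.le_mul_of_pos_left m hc
    have hmw : m ≤ w := le_trans hmcm hcm
    have hcm2 : 2 * (c * m) ≤ w := by nlinarith
    have hm2 : 2 * m ≤ w := by nlinarith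
    have hgap : w - w0 = 2 * ((c + 1) * c) * m := by omega
    have hgapm : m ≤ 2 * ((c + 1) * c) * m := by
      apply Nat.le_mul_of_pos_left; omega
    have hw02 : w ≤ 2 * w0 := by nlinarith
    have hw0w : w0 ≤ w := by omega
    have h2q : 2 ≤ 2 * q := by omega
    have hn1 : w ≤ 2 * q * (w - m) := by
      calc w ≤ 2 * (w - m) := by omega
        _ ≤ 2 * q * (w - m) := Nat.mul_le_mul_right _ h2q
    have hn2 : w ≤ 2 * q * (w - c * m) := by
      calc w ≤ 2 * (w - c * m) := by omega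
        _ ≤ 2 * q * (w - c * m) := Nat.mul_le_mul_right _ h2q
    have hn3 : w ≤ 2 * q * (w - w0) := by
      rw [hgap]
      exact le_trans hw2 (Nat.mul_le_mul_left _ hgapm)
    have hDex : ∀ l : Bool × Idx c, ∃ D ⊆ (part lam (some l) W).powerset,
        (D.card : ℝ) * (part lam (some l) W).card ≤ K * 2 ^ (part lam (some l) W).card ∧
        ((unc (part lam (some l) W) D).card : ℝ) * ((part lam (some l) W).card : ℝ) ^ c ≤
          K * 2 ^ (part lam (some l) W).card := by
      intro l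
      apply hKD
      rw [← card_pos, hpart l]
      exact hm1
    choose D hDsub hD1 hD2 using hDex
    have hm0 : (0 : ℝ) < m := by exact_mod_cast hm1
    have hd : ∀ l, ((D l).card : ℝ) ≤ K * 2 ^ m / m := by
      intro l
      rw [le_div_iff₀ hm0]
      have := hD1 l
      rw [hpart l] at this
      exact this
    have hu : ∀ l, ((unc (part lam (some l) W) (D l)).card : ℝ) ≤ K * 2 ^ m / (m : ℝ) ^ c := by
      intro l
      rw [le_div_iff₀ (by positivity)]
      have := hD2 l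
      rw [hpart l] at this
      exact this
    obtain ⟨Jlo, Jup, hJlo, hJup, hJ, hU, hL⟩ := hRS α (part lam none W)
    rw [hw0] at hU hL
    have hbe : ∀ j : ℕ, ∀ (T : Finset α) (A : Finset (Finset α)), T ⊆ W →
        ((W.powerset.filter (fun Z => (fun n : ℕ => n = j) Z.card ∧ Z ∩ T ∈ A)).card : ℝ) ≤
          A.card * (fun n : ℕ => ((n.choose (n / 2) : ℕ) : ℝ)) (W.card - T.card) := by
      intro j T A hT
      have h := card_cyl_level_le W T hT A j
      have h' : ((W.powerset.filter (fun Z => Z.card = j ∧ Z ∩ T ∈ A)).card : ℝ) ≤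
          A.card * (((W.card - T.card).choose ((W.card - T.card) / 2) : ℕ) : ℝ) := by
        exact_mod_cast h
      exact h'
    have hratio : ∀ n, n ≤ w → w ≤ 2 * q * n →
        (fun n : ℕ => ((n.choose (n / 2) : ℕ) : ℝ)) n * 2 ^ (w - n) ≤
          H * (((2 * k + c).choose k : ℕ) : ℝ) := by
      intro n h1 h2
      have := hHr k n hk (by omega) (by omega)
      rw [← hwk] at this
      exact this
    have hkw : k ≤ w := by omega
    refine ⟨fun x => wt c (lam x), ?_, fun a => ⟨Qf c lam W D a Jlo, Pf c lam W D a Jup,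
      ?_, ?_, indep_step c lam W D a Jlo Jup hJ, ?_, ?_⟩⟩
    · intro x
      rcases hx : lam x with _ | ⟨b, s⟩
      · left; simp only [hx, wt]
      · right
        refine ⟨(s.1 : ℕ), by omega, ?_⟩
        simp only [hx, wt]
    · intro X hX
      rw [Qf, mem_filter, mem_powerset] at hX
      exact ⟨hX.1, hX.2.1⟩
    · intro X hX
      rw [Pf, mem_filter, mem_powerset] at hX
      exact ⟨hX.1, hX.2.1⟩
    · have h1 := card_upU_step c lam W D a Jlo (fun n => n = k + c - 1)
        (fun n : ℕ => ((n.choose (n / 2) : ℕ) : ℝ))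
        (fun n => by positivity) (hbe _) m hpart (K * 2 ^ m / m) (K * 2 ^ m / (m : ℝ) ^ c)
        (by positivity) hd hu
      have h2 := K19_last c lam W a (upU c (part lam none W) Jlo) (k + c - 1)
      rw [hn] at h1 h2
      rw [hw0] at h2
      have h3 := K19_key c m q k w w0 hm1 hk hkw hw2 hcm hmw hw02 hw0w hn1 hn2 hn3
        K R H (((2 * k + c).choose k : ℕ) : ℝ) _ ((upU c (part lam none W) Jlo).card : ℝ)
        _ hK hR hH hC0 (by positivity) (fun n : ℕ => ((n.choose (n / 2) : ℕ) : ℝ))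
        (fun n => by positivity) hratio h1 h2 hU
      refine le_trans h3 ?_
      apply mul_le_mul_of_nonneg_right _ hC0
      have : (0 : ℝ) ≤ (q : ℝ) ^ c := by positivity
      linarith
    · have h1 := card_loL_step c lam W D a Jup (fun Y hY => mem_powerset.1 (hJup hY))
        (fun n => n = k - 1)
        (fun n : ℕ => ((n.choose (n / 2) : ℕ) : ℝ))
        (fun n => by positivity) (hbe _) m hpart (K * 2 ^ m / m) (K * 2 ^ m / (m : ℝ) ^ c)
        (by positivity) hd hu
      have h2 := K19_last c lam W a (loL c (part lam none W) Jup) (k - 1)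
      rw [hn] at h1 h2
      rw [hw0] at h2
      have h3 := K19_key c m q k w w0 hm1 hk hkw hw2 hcm hmw hw02 hw0w hn1 hn2 hn3
        K R H (((2 * k + c).choose k : ℕ) : ℝ) _ ((loL c (part lam none W) Jup).card : ℝ)
        _ hK hR hH hC0 (by positivity) (fun n : ℕ => ((n.choose (n / 2) : ℕ) : ℝ))
        (fun n => by positivity) hratio h1 h2 hL
      refine le_trans h3 ?_
      apply mul_le_mul_of_nonneg_right _ hC0
      have : (0 : ℝ) ≤ (q : ℝ) ^ c := by positivity
      linarith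

end Pool.Agent.H31.Kn
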