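import Pool.Agent.H31.Kn.K01Arith

/-!
Module H31 KN 20. From a system to a maximal intersecting family. (The imported module 01 may
still contain `sorry`; use its statement `sum_pow_ne_zero`.)

Proof. Let `W = univ.erase z`, `|W| = 2k+c-1`, and let `F0` be the family of the `A` with
`|A| = k` and: (`z ∈ A` and `A.erase z ∈ Q`) or (`z ∉ A` and `W \ A ∈ P`).
`F0` is intersecting: let `A, B ∈ F0` be disjoint (`A ≠ B` as `k ≥ 1`; for `A = B` the
intersection is `A`, nonempty). Not both contain `z`. If `z ∈ A`, `z ∉ B`: `X = A.erase z ∈ Q`,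
`Y = W \ B ∈ P`, `X ⊆ Y`, `|Y \ X| = (2k+c-1-k) - (k-1) = c`: contradiction to `hI`. If
`z ∉ A`, `z ∉ B`: with `S U` the sum of `gam` over `U`, `S (W \ A) = S (W \ B) = a`, so
`S A = S B = S W - a`; let `R = W \ (A ∪ B)`, `|R| = c - 1`,
`S R = S W - 2 (S W - a) = 2 a - S W = -1`. So the sum over the elements of `R` with `gam ≠ 0`, and
one more term `1 = 2^0`, is `0`: at most `c` powers, a contradiction to `sum_pow_ne_zero` (for
example for the set `insert z (R.filter (gam · ≠ 0))` and the function that is `1` at `z`).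
Let `F ⊇ F0` be a maximal intersecting family of `k`-sets (finite: `Set.Finite.exists_le_maximal`
or `exists_le_maximal` for finite orders; `Finset (Finset (Fin n))` is finite). If `A ∈ F`,
`z ∈ A`, then `A.erase z ∈ loL c W P`: if `Y ∈ P`, `A.erase z ⊆ Y`, `|Y \ A.erase z| = c`, then
`|Y| = k + c - 1`, `B = W \ Y` has `|B| = k`, `z ∉ B`, `W \ B = Y ∈ P`, so `B ∈ F0 ⊆ F`, and
`A ∩ B = ∅`, a contradiction. If `A ∈ F`, `z ∉ A`, then `W \ A ∈ upU c W Q`: if `X ∈ Q`,
`X ⊆ W \ A`, `|(W \ A) \ X| = c`, then `|X| = k - 1`, `B = insert z X` is in `F0 ⊆ F`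
(`B.erase z = X` as `z ∉ X`), and `A ∩ B = ∅`. The maps `A ↦ A.erase z` (on `z ∈ A`) and
`A ↦ W \ A` (on `z ∉ A`) are injective, so
`|F| ≤ #{X ∈ loL c W P : |X| = k-1} + #{Y ∈ upU c W Q : |Y| = k+c-1}`.
-/

namespace Pool.Agent.H31.Kn

open Finset

theorem k20_mem_loL {α : Type} [DecidableEq α] {c : ℕ} {W : Finset α} {P : Finset (Finset α)}
    {X : Finset α} :
    X ∈ loL c W P ↔ X ⊆ W ∧ ∀ Y ∈ P, ¬ (X ⊆ Y ∧ (Y \ X).card = c) := by
  unfold loL
  rw [mem_filter, mem_powerset]

theorem k20_mem_upU {α : Type} [DecidableEq α] {c : ℕ} {W : Finset α} {Q : Finset (Finset α)}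
    {Y : Finset α} :
    Y ∈ upU c W Q ↔ Y ⊆ W ∧ ∀ X ∈ Q, ¬ (X ⊆ Y ∧ (Y \ X).card = c) := by
  unfold upU
  rw [mem_filter, mem_powerset]

theorem kneser_of_system (c k : ℕ) (hc : 1 ≤ c) (hk : 1 ≤ k) (z : Fin (2 * k + c))
    (gam : Fin (2 * k + c) → ZMod (NN c))
    (hg : ∀ x, gam x = 0 ∨ ∃ i ≤ c, gam x = 2 ^ i)
    (a : ZMod (NN c)) (ha : 2 * a + 1 = ∑ x ∈ univ.erase z, gam x)
    (Q P : Finset (Finset (Fin (2 * k + c))))
    (hQ : ∀ X ∈ Q, X ⊆ univ.erase z ∧ (∑ x ∈ X, gam x) = a)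
    (hP : ∀ Y ∈ P, Y ⊆ univ.erase z ∧ (∑ x ∈ Y, gam x) = a)
    (hI : Indep c Q P) :
    ∃ F : Finset (Finset (Fin (2 * k + c))), Maximal (IsInt (2 * k + c) k) F ∧
      F.card ≤ ((loL c (univ.erase z) P).filter (fun X => X.card = k - 1)).card +
        ((upU c (univ.erase z) Q).filter (fun Y => Y.card = k + c - 1)).card := by
  classical
  generalize hWdef : (univ.erase z : Finset (Fin (2 * k + c))) = W at *
  have hWc : W.card = 2 * k + c - 1 := by
    rw [← hWdef, card_erase_of_mem (mem_univ z), card_univ, Fintype.card_fin]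
  have hWm : ∀ x, x ∈ W ↔ x ≠ z := by
    intro x
    rw [← hWdef]
    simp
  have hzW : z ∉ W := fun h => (hWm z).1 h rfl
  have hsubW : ∀ B : Finset (Fin (2 * k + c)), z ∉ B → B ⊆ W := fun B hzB x hx =>
    (hWm x).2 (fun h => hzB (h ▸ hx))
  obtain ⟨F0, hF0m⟩ : ∃ F0 : Finset (Finset (Fin (2 * k + c))), ∀ A, A ∈ F0 ↔
      (A.card = k ∧ ((z ∈ A ∧ A.erase z ∈ Q) ∨ (z ∉ A ∧ W \ A ∈ P))) := by
    refine ⟨univ.filter (fun A => A.card = k ∧
      ((z ∈ A ∧ A.erase z ∈ Q) ∨ (z ∉ A ∧ W \ A ∈ P))), ?_⟩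
    intro A
    simp
  have hin : ∀ A, A ∈ F0 → z ∈ A → A.erase z ∈ Q := by
    intro A hA hz
    rcases ((hF0m A).1 hA).2 with h | h
    · exact h.2
    · exact absurd hz h.1
  have hout : ∀ A, A ∈ F0 → z ∉ A → W \ A ∈ P := by
    intro A hA hz
    rcases ((hF0m A).1 hA).2 with h | h
    · exact absurd h.1 hz
    · exact h.2
  -- the mixed case
  have hmix : ∀ A B, A ∈ F0 → B ∈ F0 → z ∈ A → z ∉ B → (A ∩ B).Nonempty := by
    intro A B hA hB hzA hzB
    by_contra hne
    rw [not_nonempty_iff_eq_empty, ← disjoint_iff_inter_eq_empty] at hne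
    have hsub : A.erase z ⊆ W \ B := by
      intro x hx
      rw [mem_erase] at hx
      rw [mem_sdiff, hWm]
      exact ⟨hx.1, fun hxB => Finset.disjoint_left.1 hne hx.2 hxB⟩
    refine hI _ (hin A hA hzA) _ (hout B hB hzB) ⟨hsub, ?_⟩
    rw [card_sdiff_of_subset hsub, card_sdiff_of_subset (hsubW B hzB), card_erase_of_mem hzA,
      hWc, ((hF0m A).1 hA).1, ((hF0m B).1 hB).1]
    omega
  have hboth : ∀ A B, A ∈ F0 → B ∈ F0 → z ∉ A → z ∉ B → (A ∩ B).Nonempty := by
    intro A B hA hB hzA hzB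
    by_contra hne
    rw [not_nonempty_iff_eq_empty, ← disjoint_iff_inter_eq_empty] at hne
    have hAW := hsubW A hzA
    have hBW := hsubW B hzB
    have sA : ∑ x ∈ W \ A, gam x = a := (hP _ (hout A hA hzA)).2
    have sB : ∑ x ∈ W \ B, gam x = a := (hP _ (hout B hB hzB)).2
    have e1 : ∑ x ∈ W \ A, gam x + ∑ x ∈ A, gam x = ∑ x ∈ W, gam x := sum_sdiff hAW
    have e2 : ∑ x ∈ W \ B, gam x + ∑ x ∈ B, gam x = ∑ x ∈ W, gam x := sum_sdiff hBW
    have hUW : A ∪ B ⊆ W := union_subset hAW hBW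
    have e3 : ∑ x ∈ W \ (A ∪ B), gam x + ∑ x ∈ A ∪ B, gam x = ∑ x ∈ W, gam x :=
      sum_sdiff hUW
    have e4 : ∑ x ∈ A ∪ B, gam x = ∑ x ∈ A, gam x + ∑ x ∈ B, gam x := sum_union hne
    have eR : 1 + ∑ x ∈ W \ (A ∪ B), gam x = 0 := by
      linear_combination e3 - e4 - e1 - e2 + ha + sA + sB
    have hRc : (W \ (A ∪ B)).card + 1 = c := by
      rw [card_sdiff_of_subset hUW, card_union_of_disjoint hne, hWc, ((hF0m A).1 hA).1,
        ((hF0m B).1 hB).1]
      omega
    have hzR1 : z ∉ (W \ (A ∪ B)).filter (fun x => gam x ≠ 0) := by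
      intro h
      exact hzW (mem_sdiff.1 (mem_filter.1 h).1).1
    have hs : ∑ x ∈ insert z ((W \ (A ∪ B)).filter (fun x => gam x ≠ 0)),
        (if x = z then (1 : ZMod (NN c)) else gam x) = 1 + ∑ x ∈ W \ (A ∪ B), gam x := by
      rw [sum_insert hzR1, if_pos rfl, ← sum_filter_ne_zero (s := W \ (A ∪ B)) (f := gam)]
      congr 1
      apply sum_congr rfl
      intro x hx
      rw [if_neg]
      intro h
      exact hzR1 (h ▸ hx)
    refine sum_pow_ne_zero c (insert z ((W \ (A ∪ B)).filter (fun x => gam x ≠ 0)))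
      (fun x => if x = z then (1 : ZMod (NN c)) else gam x) ?_ (insert_nonempty _ _) ?_
      (hs.trans eR)
    · intro x hx
      by_cases hxz : x = z
      · refine ⟨0, Nat.zero_le _, ?_⟩
        simp [hxz]
      · rw [mem_insert] at hx
        have hx1 : gam x ≠ 0 := by
          rcases hx with h | h
          · exact absurd h hxz
          · exact (mem_filter.1 h).2
        rcases hg x with h | ⟨i, hi, h⟩
        · exact absurd h hx1
        · refine ⟨i, hi, ?_⟩
          rw [if_neg hxz, h]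
    · calc (insert z ((W \ (A ∪ B)).filter (fun x => gam x ≠ 0))).card
          ≤ ((W \ (A ∪ B)).filter (fun x => gam x ≠ 0)).card + 1 := card_insert_le _ _
        _ ≤ (W \ (A ∪ B)).card + 1 := Nat.add_le_add_right (card_filter_le _ _) 1
        _ = c := hRc
  have hF0 : IsInt (2 * k + c) k F0 := by
    refine ⟨fun A hA => ((hF0m A).1 hA).1, ?_⟩
    intro A hA B hB
    by_cases hzA : z ∈ A
    · by_cases hzB : z ∈ B
      · exact ⟨z, mem_inter.2 ⟨hzA, hzB⟩⟩
      · exact hmix A B hA hB hzA hzB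
    · by_cases hzB : z ∈ B
      · rw [inter_comm]
        exact hmix B A hB hA hzB hzA
      · exact hboth A B hA hB hzA hzB
  obtain ⟨F, hF0F, hF⟩ := Finite.exists_le_maximal (p := IsInt (2 * k + c) k) hF0
  refine ⟨F, hF, ?_⟩
  have hFc := hF.1.1
  have hFi := hF.1.2
  rw [← card_filter_add_card_filter_not (s := F) (fun A => z ∈ A)]
  refine Nat.add_le_add ?_ ?_
  · refine card_le_card_of_injOn (fun A => A.erase z) ?_ ?_
    · intro A hA
      rw [mem_coe, mem_filter] at hA
      obtain ⟨hAF, hzA⟩ := hA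
      rw [mem_coe, mem_filter]
      refine ⟨?_, ?_⟩
      · rw [k20_mem_loL]
        refine ⟨fun x hx => (hWm x).2 (ne_of_mem_erase hx), ?_⟩
        intro Y hY ⟨hsub, hcard⟩
        have hYW := (hP Y hY).1
        rw [card_sdiff_of_subset hsub, card_erase_of_mem hzA, hFc A hAF] at hcard
        have hYc : Y.card = k + c - 1 := by omega
        have hBF : W \ Y ∈ F := by
          apply hF0F
          rw [hF0m]
          refine ⟨?_, Or.inr ⟨fun h => hzW (mem_sdiff.1 h).1, ?_⟩⟩
          · rw [card_sdiff_of_subset hYW, hWc, hYc]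
            omega
          · rw [Finset.sdiff_sdiff_eq_self hYW]
            exact hY
        obtain ⟨x, hx⟩ := hFi A hAF _ hBF
        rw [mem_inter, mem_sdiff] at hx
        exact hx.2.2 (hsub (mem_erase.2 ⟨(hWm x).1 hx.2.1, hx.1⟩))
      · dsimp only
        rw [card_erase_of_mem hzA, hFc A hAF]
    · intro A hA B hB hAB
      rw [mem_coe, mem_filter] at hA hB
      dsimp only at hAB
      rw [← insert_erase hA.2, hAB, insert_erase hB.2]
  · refine card_le_card_of_injOn (fun A => W \ A) ?_ ?_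
    · intro A hA
      rw [mem_coe, mem_filter] at hA
      obtain ⟨hAF, hzA⟩ := hA
      have hAW := hsubW A hzA
      rw [mem_coe, mem_filter]
      refine ⟨?_, ?_⟩
      · rw [k20_mem_upU]
        refine ⟨sdiff_subset, ?_⟩
        intro X hX ⟨hsub, hcard⟩
        have hXW := (hQ X hX).1
        have hzX : z ∉ X := fun h => hzW (hXW h)
        have hle := card_le_card hsub
        rw [card_sdiff_of_subset hsub] at hcard
        rw [card_sdiff_of_subset hAW, hWc, hFc A hAF] at hcard hle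
        have hXc : X.card = k - 1 := by omega
        have hBF : insert z X ∈ F := by
          apply hF0F
          rw [hF0m]
          refine ⟨?_, Or.inl ⟨mem_insert_self _ _, ?_⟩⟩
          · rw [card_insert_of_notMem hzX, hXc]
            omega
          · rw [erase_insert hzX]
            exact hX
        obtain ⟨x, hx⟩ := hFi A hAF _ hBF
        rw [mem_inter, mem_insert] at hx
        rcases hx.2 with h | h
        · exact hzA (h ▸ hx.1)
        · exact (mem_sdiff.1 (hsub h)).2 hx.1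
      · dsimp only
        rw [card_sdiff_of_subset hAW, hWc, hFc A hAF]
        omega
    · intro A hA B hB hAB
      rw [mem_coe, mem_filter] at hA hB
      dsimp only at hAB
      rw [← Finset.sdiff_sdiff_eq_self (hsubW A hA.2), hAB, Finset.sdiff_sdiff_eq_self (hsubW B hB.2)]

end Pool.Agent.H31.Kn
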