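import Pool.Agent.H31.Kn.K19Level
import Pool.Agent.H31.Kn.K20Kneser
import Pool.Agent.H31.Kn.K21Lower

namespace Pool.Agent.H31.Kn

open Finset

theorem K22_two_mul (c : ℕ) : (2 : ZMod (NN c)) * 2 ^ c = 1 := by
  have h : ((2 ^ (c + 1) : ℕ) : ZMod (NN c)) = 1 := by
    have h1 : 2 ^ (c + 1) = NN c + 1 := by
      unfold NN
      have : 1 ≤ 2 ^ (c + 1) := Nat.one_le_two_pow
      omega
    rw [h1]
    push_cast
    simp
  have h2 : ((2 ^ (c + 1) : ℕ) : ZMod (NN c)) = 2 * 2 ^ c := by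
    push_cast
    ring
  rw [← h2, h]

theorem final_upper (c : ℕ) :
    ∃ b : ℝ, 0 < b ∧ ∀ k : ℕ, 1 ≤ k → ∃ F : Finset (Finset (Fin (2 * k + c))),
      Maximal (IsInt (2 * k + c) k) F ∧
        (F.card : ℝ) * (k : ℝ) ^ c ≤ b * (((2 * k + c).choose k : ℕ) : ℝ) := by
  rcases Nat.eq_zero_or_pos c with hc | hc
  · subst hc
    refine ⟨1, one_pos, fun k _ => ?_⟩
    obtain ⟨F, hF⟩ := exists_maximal (2 * k + 0) k
    refine ⟨F, hF, ?_⟩
    rw [pow_zero, mul_one, one_mul]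
    have h1 : F ⊆ (univ : Finset (Fin (2 * k + 0))).powersetCard k := by
      intro A hA
      rw [mem_powersetCard]
      exact ⟨subset_univ _, hF.prop.1 A hA⟩
    have h2 := card_le_card h1
    rw [card_powersetCard, card_univ, Fintype.card_fin] at h2
    exact_mod_cast h2
  · obtain ⟨B, hB, hBk⟩ := exists_level_system c hc
    refine ⟨2 * B, by positivity, fun k hk => ?_⟩
    have hpos : 0 < 2 * k + c := by omega
    obtain ⟨gam, hg, hsys⟩ := hBk (Fin (2 * k + c)) (univ.erase ⟨0, hpos⟩) k hk (by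
      rw [card_erase_of_mem (mem_univ _), card_univ, Fintype.card_fin])
    obtain ⟨Q, P, hQ, hP, hI, h1, h2⟩ :=
      hsys (2 ^ c * ((∑ x ∈ univ.erase (⟨0, hpos⟩ : Fin (2 * k + c)), gam x) - 1))
    obtain ⟨F, hF, hcard⟩ := kneser_of_system c k hc hk ⟨0, hpos⟩ gam hg _ (by
      rw [← mul_assoc, K22_two_mul, one_mul, sub_add_cancel]) Q P hQ hP hI
    refine ⟨F, hF, ?_⟩
    have h3 : (F.card : ℝ) ≤
        (((loL c (univ.erase (⟨0, hpos⟩ : Fin (2 * k + c))) P).filter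
          (fun X => X.card = k - 1)).card : ℝ) +
        (((upU c (univ.erase (⟨0, hpos⟩ : Fin (2 * k + c))) Q).filter
          (fun Y => Y.card = k + c - 1)).card : ℝ) := by
      exact_mod_cast hcard
    have h4 : (0 : ℝ) ≤ (k : ℝ) ^ c := by positivity
    nlinarith [mul_le_mul_of_nonneg_right h3 h4]

end Pool.Agent.H31.Kn
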